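import Pool.Agent.NH29.LE.B

set_option autoImplicit false

namespace Pool.Agent.NH29.LE

open Polynomial Real

section
variable {M : Type} [Field M] {v : AbsoluteValue M ℝ} {F : M[X]} {b : M}

lemma Cantor.natCast_le (h : Cantor v F b) (n : ℕ) : v (n : M) ≤ 1 := by
  induction n with
  | zero => simp
  | succ n ih =>
    push_cast
    exact (h.nonarch _ _).trans (max_le ih (by simp))

lemma Cantor.b_pos (h : Cantor v F b) : 0 < v b := v.pos h.b0

lemma Cantor.F_ne (h : Cantor v F b) : F ≠ 0 := by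
  rintro rfl
  have := h.deg
  simp at this

lemma Cantor.deg_phi (h : Cantor v F b) : (C b⁻¹ * F).natDegree = F.natDegree :=
  natDegree_C_mul (inv_ne_zero h.b0)

lemma Cantor.lead_phi (h : Cantor v F b) : v (C b⁻¹ * F).leadingCoeff = (v b)⁻¹ := by
  rw [leadingCoeff_mul, leadingCoeff_C, map_mul, h.lead, mul_one, map_inv₀]

lemma Cantor.lam_pos (h : Cantor v F b) : 0 < -Real.log (v b) := by
  have := log_neg h.b_pos h.b1
  linarith

/-- values of integral polynomials at integral elements -/
lemma Cantor.eval_le (h : Cantor v F b) {z : M} (hz : v z ≤ 1) {G : M[X]}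
    (hG : ∀ i, v (G.coeff i) ≤ 1) : v (G.eval z) ≤ 1 := by
  rw [eval_eq_sum_range]
  refine sum_le_nonarch v h.nonarch _ _ zero_le_one fun i _ => ?_
  rw [map_mul, map_pow]
  exact mul_le_one₀ (hG i) (pow_nonneg (v.nonneg _) _) (pow_le_one₀ (v.nonneg _) hz)

/-- the absolute value of `F z` for large `z` -/
lemma Cantor.eval_large (h : Cantor v F b) {z : M} (hz : 1 < v z) :
    v (F.eval z) = v z ^ F.natDegree := by
  have hz0 : 0 < v z := zero_lt_one.trans hz
  have h1 : F.eval z = (∑ i ∈ Finset.range F.natDegree, F.coeff i * z ^ i) +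
      F.leadingCoeff * z ^ F.natDegree := by
    rw [eval_eq_sum_range, Finset.sum_range_succ]
    rfl
  have h2 : v (F.leadingCoeff * z ^ F.natDegree) = v z ^ F.natDegree := by
    rw [map_mul, map_pow, h.lead, one_mul]
  have hd := h.deg
  have h3 : v (∑ i ∈ Finset.range F.natDegree, F.coeff i * z ^ i) ≤
      v z ^ (F.natDegree - 1) := by
    refine sum_le_nonarch v h.nonarch _ _ (by positivity) fun i hi => ?_
    rw [map_mul, map_pow]
    have h4 : i ≤ F.natDegree - 1 := by
      have := Finset.mem_range.1 hi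
      omega
    calc v (F.coeff i) * v z ^ i ≤ 1 * v z ^ i :=
          mul_le_mul_of_nonneg_right (h.coeff i) (by positivity)
      _ = v z ^ i := one_mul _
      _ ≤ v z ^ (F.natDegree - 1) := pow_le_pow_right₀ hz.le h4
  have h5 : v (∑ i ∈ Finset.range F.natDegree, F.coeff i * z ^ i) < v z ^ F.natDegree :=
    h3.trans_lt (pow_lt_pow_right₀ hz (by omega))
  rw [h1]
  have h6 := h.nonarch.add_eq_right_of_lt (x := ∑ i ∈ Finset.range F.natDegree, F.coeff i * z ^ i)
    (y := F.leadingCoeff * z ^ F.natDegree) (by rw [h2]; exact h5)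
  rw [h6, h2]

lemma Cantor.phi_eval (_h : Cantor v F b) (z : M) :
    v ((C b⁻¹ * F).eval z) = v (F.eval z) / v b := by
  rw [eval_mul, eval_C, map_mul, map_inv₀]
  field_simp

/-- large points escape -/
lemma Cantor.large (h : Cantor v F b) (n : ℕ) : ∀ z : M, 1 < v z →
    1 < v (it (C b⁻¹ * F) n z) ∧
      Real.log (v (it (C b⁻¹ * F) n z)) = (F.natDegree : ℝ) ^ n * Real.log (v z) +
        (-Real.log (v b)) / ((F.natDegree : ℝ) - 1) * ((F.natDegree : ℝ) ^ n - 1) := by
  have hd := h.deg
  have hd' : (2 : ℝ) ≤ F.natDegree := by exact_mod_cast hd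
  have hb := h.b_pos
  induction n with
  | zero =>
    intro z hz
    refine ⟨hz, ?_⟩
    rw [pow_zero, sub_self, mul_zero, add_zero, one_mul]
    rfl
  | succ n ih =>
    intro z hz
    have hz0 : 0 < v z := zero_lt_one.trans hz
    have h1 : v ((C b⁻¹ * F).eval z) = v z ^ F.natDegree / v b := by
      rw [h.phi_eval, h.eval_large hz]
    have h2 : 1 < v ((C b⁻¹ * F).eval z) := by
      rw [h1, lt_div_iff₀ hb, one_mul]
      exact h.b1.trans (one_lt_pow₀ hz (by omega))
    obtain ⟨h3, h4⟩ := ih _ h2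
    rw [it_succ]
    refine ⟨h3, ?_⟩
    rw [h4, h1, log_div (pow_ne_zero _ hz0.ne') hb.ne', log_pow]
    have h5 : (F.natDegree : ℝ) - 1 ≠ 0 := by linarith
    field_simp
    ring

lemma Cantor.gr_large (h : Cantor v F b) (n : ℕ) (z : M) (hz : 1 < v z) :
    gr v (C b⁻¹ * F) n z = Real.log (v z) + (-Real.log (v b)) / ((F.natDegree : ℝ) - 1) *
      (1 - ((F.natDegree : ℝ) ^ n)⁻¹) := by
  have hd := h.deg
  have hd' : (2 : ℝ) ≤ F.natDegree := by exact_mod_cast hd
  obtain ⟨h1, h2⟩ := h.large n z hz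
  rw [gr, h.deg_phi, posLog_eq_log (by rw [abs_of_nonneg (v.nonneg _)]; exact h1.le), h2]
  field_simp

end

theorem st_A1 : St_A1 := by
  intro M _ v F b h
  have hd := h.deg
  have hd' : (2 : ℝ) ≤ F.natDegree := by exact_mod_cast hd
  have hlam := h.lam_pos
  have hq : 0 < (-Real.log (v b)) / ((F.natDegree : ℝ) - 1) := div_pos hlam (by linarith)
  -- the large points
  have key : ∀ (n l : ℕ) (z : M), 1 < v z → posLog (v z) +
      (-Real.log (v b)) / ((F.natDegree : ℝ) - 1) *
      (((F.natDegree : ℝ) ^ l)⁻¹ - ((F.natDegree : ℝ) ^ n)⁻¹) ≤ gr v (C b⁻¹ * F) n z := by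
    intro n l z hz
    rw [h.gr_large n z hz, posLog_eq_log (by rw [abs_of_nonneg (v.nonneg _)]; exact hz.le)]
    have h1 : ((F.natDegree : ℝ) ^ l)⁻¹ ≤ 1 := inv_le_one_of_one_le₀ (one_le_pow₀ (by linarith))
    have h2 : (-Real.log (v b)) / ((F.natDegree : ℝ) - 1) *
      (((F.natDegree : ℝ) ^ l)⁻¹ - ((F.natDegree : ℝ) ^ n)⁻¹) ≤
      (-Real.log (v b)) / ((F.natDegree : ℝ) - 1) * (1 - ((F.natDegree : ℝ) ^ n)⁻¹) :=
      mul_le_mul_of_nonneg_left (by linarith) hq.le
    linarith
  intro n l hl z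
  constructor
  · rcases le_or_gt (v z) 1 with hz | hz
    · rw [(posLog_eq_zero_iff _).2 (by rw [abs_of_nonneg (v.nonneg _)]; exact hz)]
      exact gr_nonneg v _ n z
    · have h1 := key n n z hz
      rw [sub_self, mul_zero, add_zero] at h1
      exact h1
  · induction l generalizing n z with
    | zero =>
      intro h1
      exact absurd (fun j hj => absurd hj (Nat.not_lt_zero j)) h1
    | succ l ih =>
      intro h1
      obtain ⟨m, rfl⟩ := Nat.exists_eq_succ_of_ne_zero (show n ≠ 0 by omega)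
      rw [Nat.succ_eq_add_one] at *
      rcases lt_or_ge 1 (v z) with hz | hz
      · exact key (m + 1) (l + 1) z hz
      · have hz0 : posLog (v z) = 0 :=
          (posLog_eq_zero_iff _).2 (by rw [abs_of_nonneg (v.nonneg _)]; exact hz)
        rw [hz0, zero_add, gr_succ, h.deg_phi]
        have hdiv : ∀ X : ℝ, (-Real.log (v b)) / ((F.natDegree : ℝ) - 1) *
            (((F.natDegree : ℝ) ^ l)⁻¹ - ((F.natDegree : ℝ) ^ m)⁻¹) ≤ X →
            (-Real.log (v b)) / ((F.natDegree : ℝ) - 1) *
            (((F.natDegree : ℝ) ^ (l + 1))⁻¹ - ((F.natDegree : ℝ) ^ (m + 1))⁻¹) ≤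
            X / F.natDegree := by
          intro X hX
          rw [le_div_iff₀ (by linarith)]
          refine le_trans (le_of_eq ?_) hX
          have hd0 : (F.natDegree : ℝ) ≠ 0 := by linarith
          rw [mul_assoc, sub_mul, pow_succ, pow_succ, mul_inv, mul_inv, mul_assoc, mul_assoc,
            inv_mul_cancel₀ hd0, mul_one, mul_one]
        apply hdiv
        rcases lt_or_ge (v b) (v (F.eval z)) with hF | hF
        · have h2 : 1 < v ((C b⁻¹ * F).eval z) := by
            rw [h.phi_eval, lt_div_iff₀ h.b_pos, one_mul]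
            exact hF
          have h3 := key m l _ h2
          have h4 : 0 ≤ posLog (v ((C b⁻¹ * F).eval z)) := posLog_nonneg
          linarith
        · have h2 : ¬ St v F b l ((C b⁻¹ * F).eval z) := by
            intro h3
            apply h1
            intro j hj
            rcases Nat.eq_zero_or_pos j with rfl | hj0
            · exact ⟨hz, hF⟩
            · obtain ⟨i, rfl⟩ := Nat.exists_eq_succ_of_ne_zero (show j ≠ 0 by omega)
              rw [Nat.succ_eq_add_one, it_succ]
              exact h3 i (by omega)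
          have h3 := ih m (by omega) _ h2
          have h4 : 0 ≤ posLog (v ((C b⁻¹ * F).eval z)) := posLog_nonneg
          linarith

end Pool.Agent.NH29.LE
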