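import Pool.Agent.NH29.LE.A1

set_option autoImplicit false

namespace Pool.Agent.NH29.LE

open Polynomial Real

section
variable {M : Type} [Field M] {v : AbsoluteValue M ℝ} {F : M[X]} {b : M}

/-- `F` is an isometry near its roots modulo `v` -/
lemma Cantor.isom (h : Cantor v F b) {z z' : M} (hz : v z ≤ 1) (hF : v (F.eval z) < 1)
    (hzz : v (z - z') < 1) : v (F.eval z - F.eval z') = v (z - z') := by
  obtain ⟨y, rfl⟩ : ∃ y, z' = y + z := ⟨z' - z, by ring⟩
  have hy : v y < 1 := by
    have : z - (y + z) = -y := by ring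
    rw [this, v.map_neg] at hzz
    exact hzz
  rcases eq_or_ne y 0 with rfl | hy0
  · simp
  have hyp : 0 < v y := v.pos hy0
  have hd := h.deg
  obtain ⟨m, hm⟩ : ∃ m, F.natDegree = m + 2 := ⟨F.natDegree - 2, by omega⟩
  have h1 : F.eval (y + z) = (∑ i ∈ Finset.range (m + 1), (taylor z F).coeff (i + 2) * y ^ (i + 2)) +
      F.derivative.eval z * y + F.eval z := by
    rw [← taylor_eval, eval_eq_sum_range, natDegree_taylor, hm,
      show m + 2 + 1 = (m + 1 + 1) + 1 from rfl, Finset.sum_range_succ', Finset.sum_range_succ']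
    rw [pow_zero, mul_one, taylor_coeff_zero, zero_add, pow_one, taylor_coeff_one]
  have h2 : ∀ i, v ((taylor z F).coeff i) ≤ 1 := by
    intro i
    rw [taylor_coeff]
    apply h.eval_le hz
    intro j
    rw [hasseDeriv_coeff, map_mul]
    exact mul_le_one₀ (h.natCast_le _) (v.nonneg _) (h.coeff _)
  have h3 : v (∑ i ∈ Finset.range (m + 1), (taylor z F).coeff (i + 2) * y ^ (i + 2)) ≤ v y ^ 2 := by
    refine sum_le_nonarch v h.nonarch _ _ (by positivity) fun i _ => ?_
    rw [map_mul, map_pow]
    calc v ((taylor z F).coeff (i + 2)) * v y ^ (i + 2) ≤ 1 * v y ^ (i + 2) :=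
          mul_le_mul_of_nonneg_right (h2 _) (by positivity)
      _ = v y ^ (i + 2) := one_mul _
      _ ≤ v y ^ 2 := pow_le_pow_of_le_one hyp.le hy.le (by omega)
  have h4 : v (F.derivative.eval z * y) = v y := by
    rw [map_mul, h.sep z hz hF, one_mul]
  have h5 : v y ^ 2 < v y := by nlinarith
  have h6 := h.nonarch.add_eq_right_of_lt
    (x := ∑ i ∈ Finset.range (m + 1), (taylor z F).coeff (i + 2) * y ^ (i + 2))
    (y := F.derivative.eval z * y) (by rw [h4]; exact h3.trans_lt h5)
  have h7 : F.eval z - F.eval (y + z) = -((∑ i ∈ Finset.range (m + 1),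
      (taylor z F).coeff (i + 2) * y ^ (i + 2)) + F.derivative.eval z * y) := by
    rw [h1]
    ring
  rw [h7, v.map_neg, h6, h4, show z - (y + z) = -y by ring, v.map_neg]

lemma St_succ {l : ℕ} {z : M} : St v F b (l + 1) z ↔
    (v z ≤ 1 ∧ v (F.eval z) ≤ v b) ∧ St v F b l ((C b⁻¹ * F).eval z) := by
  constructor
  · intro h
    refine ⟨h 0 (Nat.succ_pos l), fun j hj => ?_⟩
    have h1 := h (j + 1) (by omega)
    rw [it_succ] at h1
    exact h1
  · rintro ⟨h1, h2⟩ j hj
    rcases Nat.eq_zero_or_pos j with rfl | hj0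
    · exact h1
    · obtain ⟨i, rfl⟩ := Nat.exists_eq_succ_of_ne_zero (show j ≠ 0 by omega)
      rw [Nat.succ_eq_add_one, it_succ]
      exact h2 i (by omega)

lemma Cg_succ {l : ℕ} {z z' : M} : Cg v F b (l + 1) z z' ↔
    v (z - z') < 1 ∧ Cg v F b l ((C b⁻¹ * F).eval z) ((C b⁻¹ * F).eval z') := by
  constructor
  · intro h
    refine ⟨h 0 (Nat.succ_pos l), fun j hj => ?_⟩
    have h1 := h (j + 1) (by omega)
    rw [it_succ, it_succ] at h1
    exact h1
  · rintro ⟨h1, h2⟩ j hj
    rcases Nat.eq_zero_or_pos j with rfl | hj0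
    · exact h1
    · obtain ⟨i, rfl⟩ := Nat.exists_eq_succ_of_ne_zero (show j ≠ 0 by omega)
      rw [Nat.succ_eq_add_one, it_succ, it_succ]
      exact h2 i (by omega)

lemma Cantor.step (h : Cantor v F b) {z z' : M} (hz : v z ≤ 1) (hF : v (F.eval z) ≤ v b)
    (hzz : v (z - z') < 1) :
    v (z - z') = v b * v ((C b⁻¹ * F).eval z - (C b⁻¹ * F).eval z') := by
  have h1 := h.isom hz (hF.trans_lt h.b1) hzz
  have h2 : (C b⁻¹ * F).eval z - (C b⁻¹ * F).eval z' = b⁻¹ * (F.eval z - F.eval z') := by
    simp only [eval_mul, eval_C]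
    ring
  have h3 : v b * (v b)⁻¹ = 1 := mul_inv_cancel₀ h.b_pos.ne'
  rw [h2, map_mul, map_inv₀, ← mul_assoc, h3, one_mul, h1]

/-- at most `d` residue classes -/
lemma Cantor.card_le (h : Cantor v F b) {ι : Type} (s : Finset ι) (g : ι → M)
    (hF : ∀ i ∈ s, v (F.eval (g i)) ≤ v b)
    (hs : ∀ i ∈ s, ∀ j ∈ s, i ≠ j → 1 ≤ v (g i - g j)) : s.card ≤ F.natDegree := by
  classical
  by_contra hcon
  push Not at hcon
  obtain ⟨t, hts, ht⟩ := Finset.exists_subset_card_eq (show F.natDegree + 1 ≤ s.card from hcon)
  have hinj : Set.InjOn g t := by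
    intro i hi j hj hij
    by_contra hne
    have := hs i (hts hi) j (hts hj) hne
    rw [hij, sub_self, map_zero] at this
    linarith
  have h1 := Lagrange.leadingCoeff_eq_sum (s := t) (v := g) hinj (P := F) (by
    rw [ht, degree_eq_natDegree h.F_ne]
    norm_cast)
  have h2 : v F.leadingCoeff ≤ v b := by
    rw [h1]
    refine sum_le_nonarch v h.nonarch _ _ (v.nonneg _) fun i hi => ?_
    rw [map_div₀, map_prod]
    have h3 : 1 ≤ ∏ j ∈ t.erase i, v (g i - g j) := by
      calc (1 : ℝ) = ∏ _j ∈ t.erase i, (1 : ℝ) := by rw [Finset.prod_const_one]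
        _ ≤ ∏ j ∈ t.erase i, v (g i - g j) := by
            refine Finset.prod_le_prod (fun _ _ => zero_le_one) fun j hj => ?_
            exact hs i (hts hi) j (hts (Finset.mem_of_mem_erase hj))
              (Finset.ne_of_mem_erase hj).symm
    exact (div_le_self (v.nonneg _) h3).trans (hF i (hts hi))
  rw [h.lead] at h2
  exact absurd h.b1 (not_lt.2 h2)

end

theorem st_A2 : St_A2 := by
  intro M _ v F b h
  classical
  constructor
  · intro l z z' hl
    induction l generalizing z z' with
    | zero => omega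
    | succ l ih =>
      intro h1 h2 h3
      rw [St_succ] at h1 h2
      rw [Cg_succ] at h3
      have h4 := h.step h1.1.1 h1.1.2 h3.1
      rw [h4, pow_succ']
      apply mul_le_mul_of_nonneg_left _ (v.nonneg _)
      rcases Nat.eq_zero_or_pos l with rfl | hl
      · rw [pow_zero]
        have h5 : ∀ y, v (F.eval y) ≤ v b → v ((C b⁻¹ * F).eval y) ≤ 1 := by
          intro y hy
          rw [h.phi_eval, div_le_one h.b_pos]
          exact hy
        have h6 : IsNonarchimedean v := h.nonarch
        have h7 := h6 ((C b⁻¹ * F).eval z) (-(C b⁻¹ * F).eval z')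
        rw [← sub_eq_add_neg, v.map_neg] at h7
        exact h7.trans (max_le (h5 _ h1.1.2) (h5 _ h2.1.2))
      · exact ih _ _ hl h1.2 h2.2 h3.2
  · intro l
    induction l with
    | zero =>
      intro S _ hS2
      rw [pow_zero, Finset.card_le_one]
      intro z hz z' hz'
      exact hS2 z hz z' hz' (fun j hj => absurd hj (Nat.not_lt_zero j))
    | succ l ih =>
      intro S hS hS2
      set cls : M → Set M := fun z => {y | v (y - z) < 1} with hcls
      have hself : ∀ z, z ∈ cls z := by
        intro z
        show v (z - z) < 1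
        rw [sub_self, map_zero]
        exact zero_lt_one
      have hcong : ∀ z z', cls z = cls z' → v (z - z') < 1 := by
        intro z z' hh
        have : z ∈ cls z' := hh ▸ hself z
        exact this
      have hcong' : ∀ z z', v (z - z') < 1 → cls z = cls z' := by
        intro z z' hh
        ext y
        have hh' : v (z' - z) < 1 := by rwa [v.map_sub]
        constructor
        · intro hy
          have h1 := h.nonarch (y - z) (z - z')
          rw [sub_add_sub_cancel] at h1
          exact h1.trans_lt (max_lt hy hh)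
        · intro hy
          have h1 := h.nonarch (y - z') (z' - z)
          rw [sub_add_sub_cancel] at h1
          exact h1.trans_lt (max_lt hy hh')
      have h1 : (S.image cls).card ≤ F.natDegree := by
        have hex : ∀ c : Set M, ∃ z : M, c ∈ S.image cls → z ∈ S ∧ cls z = c := by
          intro c
          by_cases hc : c ∈ S.image cls
          · obtain ⟨z, hz, rfl⟩ := Finset.mem_image.1 hc
            exact ⟨z, fun _ => ⟨hz, rfl⟩⟩
          · exact ⟨0, fun hc' => absurd hc' hc⟩
        choose g hg using hex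
        refine h.card_le (S.image cls) g ?_ ?_
        · intro c hc
          exact (St_succ.1 (hS _ (hg c hc).1)).1.2
        · intro c hc c' hc' hne
          by_contra hcon
          push Not at hcon
          apply hne
          rw [← (hg c hc).2, ← (hg c' hc').2]
          exact hcong' _ _ hcon
      have h2 : ∀ c ∈ S.image cls, (S.filter fun z => cls z = c).card ≤ F.natDegree ^ l := by
        intro c _
        set T := S.filter fun z => cls z = c with hT
        have hTS : ∀ z ∈ T, z ∈ S ∧ cls z = c := fun z hz => Finset.mem_filter.1 hz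
        have hinj : Set.InjOn (fun z => (C b⁻¹ * F).eval z) T := by
          intro z hz z' hz' hzz
          refine hS2 z (hTS z hz).1 z' (hTS z' hz').1 (Cg_succ.2 ⟨hcong _ _ ?_, ?_⟩)
          · rw [(hTS z hz).2, (hTS z' hz').2]
          · intro j _
            simp only at hzz
            rw [hzz, sub_self, map_zero]
            exact zero_lt_one
        rw [← Finset.card_image_of_injOn hinj]
        apply ih
        · intro y hy
          obtain ⟨z, hz, rfl⟩ := Finset.mem_image.1 hy
          exact (St_succ.1 (hS _ (hTS z hz).1)).2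
        · intro y hy y' hy' hyy
          obtain ⟨z, hz, rfl⟩ := Finset.mem_image.1 hy
          obtain ⟨z', hz', rfl⟩ := Finset.mem_image.1 hy'
          have h3 := hS2 z (hTS z hz).1 z' (hTS z' hz').1 (Cg_succ.2 ⟨hcong _ _ (by
            rw [(hTS z hz).2, (hTS z' hz').2]), hyy⟩)
          rw [h3]
      have h4 := Finset.card_le_mul_card_image (f := cls) S (F.natDegree ^ l) h2
      calc S.card ≤ F.natDegree ^ l * (S.image cls).card := h4
        _ ≤ F.natDegree ^ l * F.natDegree := Nat.mul_le_mul_left _ h1
        _ = F.natDegree ^ (l + 1) := (pow_succ _ _).symm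

end Pool.Agent.NH29.LE
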