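import Pool.Agent.NH29.LE.A2

set_option autoImplicit false

namespace Pool.Agent.NH29.LE

open Polynomial Real Finset

section vdm

lemma sum_Ioi {D : ℕ} (f : Fin D → Fin D → ℝ) (hf : ∀ i j, f i j = f j i) :
    2 * ∑ i, ∑ j ∈ Ioi i, f i j = ∑ i, ∑ j ∈ univ.erase i, f i j := by
  classical
  have h1 : ∀ i : Fin D, ∑ j ∈ univ.erase i, f i j = ∑ j ∈ Ioi i, f i j + ∑ j ∈ Iio i, f i j := by
    intro i
    rw [← Finset.sum_union]
    · apply Finset.sum_congr _ fun _ _ => rfl
      ext j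
      simp only [mem_erase, mem_univ, and_true, mem_union, mem_Ioi, mem_Iio]
      constructor
      · intro h
        rcases lt_or_gt_of_ne h with h | h
        · exact Or.inr h
        · exact Or.inl h
      · rintro (h | h)
        · exact h.ne'
        · exact h.ne
    · rw [Finset.disjoint_left]
      intro j hj hj'
      rw [mem_Ioi] at hj
      rw [mem_Iio] at hj'
      exact absurd hj (not_lt.2 hj'.le)
  have h2 : ∑ i, ∑ j ∈ Iio i, f i j = ∑ i : Fin D, ∑ j ∈ Ioi i, f i j := by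
    rw [Finset.sum_comm' (t' := univ) (s' := fun j : Fin D => Ioi j)]
    · apply Finset.sum_congr rfl fun i _ => ?_
      apply Finset.sum_congr rfl fun j _ => ?_
      exact hf _ _
    · intro i j
      simp
  rw [Finset.sum_congr rfl fun i _ => h1 i, Finset.sum_add_distrib, h2, two_mul]

lemma two_log_vdm {M : Type} [Field M] (v : AbsoluteValue M ℝ) {D : ℕ} (x : Fin D → M)
    (hx : Function.Injective x) : 2 * Real.log (v (Matrix.vandermonde x).det) =
      ∑ i, ∑ j ∈ univ.erase i, Real.log (v (x i - x j)) := by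
  rw [← sum_Ioi _ (fun i j => by rw [v.map_sub]), Matrix.det_vandermonde, map_prod, log_prod]
  · congr 1
    refine Finset.sum_congr rfl fun i _ => ?_
    rw [map_prod, log_prod]
    · refine Finset.sum_congr rfl fun j _ => ?_
      rw [v.map_sub]
    · intro j hj
      have : x j - x i ≠ 0 := sub_ne_zero.2 fun h => (mem_Ioi.1 hj).ne' (hx h)
      exact v.ne_zero this
  · intro i _
    rw [map_prod]
    refine Finset.prod_ne_zero_iff.2 fun j hj => ?_
    have : x j - x i ≠ 0 := sub_ne_zero.2 fun h => (mem_Ioi.1 hj).ne' (hx h)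
    exact v.ne_zero this

end vdm

section cnt

lemma ex_le {d : ℕ} (hd : 2 ≤ d) (j : ℕ) : (d - 1) * ex d j ≤ j := by
  induction j using Nat.strong_induction_on with
  | _ j ih =>
    rcases Nat.eq_zero_or_pos j with rfl | hj
    · rw [ex_zero]
      simp
    · have h1 := ih (j / d) (Nat.div_lt_self hj hd)
      rw [ex_pos hd j hj, mul_add]
      have h2 : (d - 1) * (j / d) + j / d = d * (j / d) := by
        obtain ⟨e, rfl⟩ := Nat.exists_eq_add_of_le hd
        rw [show 2 + e - 1 = e + 1 by omega]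
        ring
      have h3 := Nat.mul_div_le j d
      omega

lemma sum_ex_le {d : ℕ} (hd : 2 ≤ d) (D : ℕ) :
    ((d : ℝ) - 1) * (2 * (∑ j ∈ range D, ex d j : ℕ)) ≤ (D : ℝ) ^ 2 := by
  have h1 : (d - 1) * ∑ j ∈ range D, ex d j ≤ ∑ j ∈ range D, j := by
    rw [Finset.mul_sum]
    exact Finset.sum_le_sum fun j _ => ex_le hd j
  have h2 : (∑ j ∈ range D, j) * 2 = D * (D - 1) := Finset.sum_range_id_mul_two D
  have h3 : (d - 1) * (2 * ∑ j ∈ range D, ex d j) ≤ D ^ 2 := by
    have h4 : D * (D - 1) ≤ D ^ 2 := by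
      rw [sq]
      exact Nat.mul_le_mul_left _ (Nat.sub_le _ _)
    calc (d - 1) * (2 * ∑ j ∈ range D, ex d j) = ((d - 1) * ∑ j ∈ range D, ex d j) * 2 := by ring
      _ ≤ (∑ j ∈ range D, j) * 2 := Nat.mul_le_mul_right _ h1
      _ ≤ D ^ 2 := h2 ▸ h4
  have h5 : (((d - 1) * (2 * ∑ j ∈ range D, ex d j) : ℕ) : ℝ) ≤ ((D ^ 2 : ℕ) : ℝ) := by
    exact_mod_cast h3
  push_cast [Nat.cast_sub (show 1 ≤ d by omega)] at h5
  push_cast
  exact h5

/-- sums over the levels at which a point is not stable -/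
lemma level_sum {d : ℝ} (hd : 2 ≤ d) (P : ℕ → Prop) [DecidablePred P] (k : ℕ) {G : ℝ}
    (hG : 0 ≤ G) (hP : ∀ l ≤ k, P l → (d ^ l)⁻¹ ≤ G) (L : ℕ) (hL : L ≤ k) :
    (∑ l ∈ Icc 1 L, (if P l then (d ^ l)⁻¹ else 0)) ≤ 2 * G ∧
      (∑ l ∈ Ioc L k, (if P l then (1 : ℝ) else 0)) ≤ d ^ k * G := by
  have hd0 : 0 < d := by linarith
  by_cases hex : ∃ l, P l ∧ l ≤ k
  · -- the first level
    set l₀ := Nat.find hex with hl₀
    have h1 : P l₀ ∧ l₀ ≤ k := Nat.find_spec hex
    have h2 : ∀ l ≤ k, P l → l₀ ≤ l := fun l hl hPl => Nat.find_min' hex ⟨hPl, hl⟩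
    have h3 := hP l₀ h1.2 h1.1
    have hgeo : ∀ m : ℕ, ∑ l ∈ range m, (d ^ l)⁻¹ ≤ 2 := by
      intro m
      have h4 : ∀ m : ℕ, ∑ l ∈ range m, (d ^ l)⁻¹ ≤ 2 - 2 * ((2 : ℝ) ^ m)⁻¹ := by
        intro m
        induction m with
        | zero => simp
        | succ m ih =>
          rw [sum_range_succ]
          have h5 : (d ^ m)⁻¹ ≤ ((2 : ℝ) ^ m)⁻¹ :=
            inv_anti₀ (by positivity) (pow_le_pow_left₀ (by norm_num) hd m)
          have h6 : ((2 : ℝ) ^ (m + 1))⁻¹ = ((2 : ℝ) ^ m)⁻¹ / 2 := by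
            rw [pow_succ, mul_inv]
            ring
          rw [h6]
          linarith
      have h5 : 0 ≤ ((2 : ℝ) ^ m)⁻¹ := by positivity
      linarith [h4 m]
    constructor
    · calc (∑ l ∈ Icc 1 L, (if P l then (d ^ l)⁻¹ else 0))
          ≤ ∑ l ∈ (range (L + 1)).filter (fun l => l₀ ≤ l), (d ^ l)⁻¹ := by
            rw [← Finset.sum_filter]
            refine Finset.sum_le_sum_of_subset_of_nonneg ?_ fun _ _ _ => by positivity
            intro l hl
            rw [mem_filter, mem_Icc] at hl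
            rw [mem_filter, mem_range]
            exact ⟨by omega, h2 l (by omega) hl.2⟩
        _ ≤ ∑ m ∈ range (L + 1), (d ^ l₀)⁻¹ * (d ^ m)⁻¹ := by
            have h4 : ∀ l ∈ (range (L + 1)).filter (fun l => l₀ ≤ l),
                (d ^ l)⁻¹ = (d ^ l₀)⁻¹ * (d ^ (l - l₀))⁻¹ := by
              intro l hl
              rw [mem_filter] at hl
              rw [← mul_inv, ← pow_add]
              congr 2
              omega
            rw [Finset.sum_congr rfl h4]
            have h5 : Set.InjOn (fun l => l - l₀)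
                ((range (L + 1)).filter (fun l => l₀ ≤ l) : Set ℕ) := by
              intro a ha b hb hab
              have ha' := (mem_filter.1 (Finset.mem_coe.1 ha)).2
              have hb' := (mem_filter.1 (Finset.mem_coe.1 hb)).2
              simp only at hab
              omega
            rw [← Finset.sum_image (f := fun m => (d ^ l₀)⁻¹ * (d ^ m)⁻¹)
              (g := fun l => l - l₀) h5]
            refine Finset.sum_le_sum_of_subset_of_nonneg ?_ fun _ _ _ => by positivity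
            intro m hm
            obtain ⟨l, hl, rfl⟩ := mem_image.1 hm
            rw [mem_filter, mem_range] at hl
            rw [mem_range]
            omega
        _ = (d ^ l₀)⁻¹ * ∑ m ∈ range (L + 1), (d ^ m)⁻¹ := by rw [Finset.mul_sum]
        _ ≤ (d ^ l₀)⁻¹ * 2 := mul_le_mul_of_nonneg_left (hgeo _) (by positivity)
        _ ≤ 2 * G := by linarith
    · calc (∑ l ∈ Ioc L k, (if P l then (1 : ℝ) else 0))
          ≤ ∑ l ∈ Icc l₀ k, (1 : ℝ) := by
            rw [← Finset.sum_filter]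
            refine Finset.sum_le_sum_of_subset_of_nonneg ?_ fun _ _ _ => zero_le_one
            intro l hl
            rw [mem_filter, mem_Ioc] at hl
            rw [mem_Icc]
            exact ⟨h2 l hl.1.2 hl.2, hl.1.2⟩
        _ = ((k - l₀ + 1 : ℕ) : ℝ) := by
            rw [sum_const, Nat.card_Icc, nsmul_eq_mul, mul_one]
            congr 1
            have := h1.2
            omega
        _ ≤ (2 : ℝ) ^ (k - l₀) := by
            have h4 : k - l₀ + 1 ≤ 2 ^ (k - l₀) := Nat.lt_two_pow_self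
            exact_mod_cast h4
        _ ≤ d ^ (k - l₀) := pow_le_pow_left₀ (by norm_num) hd _
        _ = d ^ k * (d ^ l₀)⁻¹ := by
            rw [← div_eq_mul_inv, eq_div_iff (by positivity), ← pow_add]
            congr 1
            have := h1.2
            omega
        _ ≤ d ^ k * G := mul_le_mul_of_nonneg_left h3 (by positivity)
  · push Not at hex
    have h1 : ∀ l ≤ k, ¬ P l := fun l hl hPl => absurd (hex l hPl) (by omega)
    constructor
    · rw [Finset.sum_eq_zero]
      · linarith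
      · intro l hl
        rw [mem_Icc] at hl
        rw [if_neg (h1 l (by omega))]
    · rw [Finset.sum_eq_zero]
      · positivity
      · intro l hl
        rw [mem_Ioc] at hl
        rw [if_neg (h1 l hl.2)]

end cnt

section main
variable {M : Type} [Field M] {v : AbsoluteValue M ℝ} {F : M[X]} {b : M}

/-- same class at level `l` -/
def Rl (v : AbsoluteValue M ℝ) (F : M[X]) (b : M) (l : ℕ) (z z' : M) : Prop :=
  St v F b l z ∧ St v F b l z' ∧ Cg v F b l z z'

lemma Rl.symm {l : ℕ} {z z' : M} (h : Rl v F b l z z') : Rl v F b l z' z := by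
  refine ⟨h.2.1, h.1, fun j hj => ?_⟩
  rw [v.map_sub]
  exact h.2.2 j hj

lemma Rl.trans (hv : IsNonarchimedean v) {l : ℕ} {z z' z'' : M} (h : Rl v F b l z z')
    (h' : Rl v F b l z' z'') : Rl v F b l z z'' := by
  refine ⟨h.1, h'.2.1, fun j hj => ?_⟩
  have h1 := hv (it (C b⁻¹ * F) j z - it (C b⁻¹ * F) j z')
    (it (C b⁻¹ * F) j z' - it (C b⁻¹ * F) j z'')
  rw [sub_add_sub_cancel] at h1
  exact h1.trans_lt (max_lt (h.2.2 j hj) (h'.2.2 j hj))

lemma Rl_self {l : ℕ} {z : M} : Rl v F b l z z ↔ St v F b l z := by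
  refine ⟨fun h => h.1, fun h => ⟨h, h, fun j _ => ?_⟩⟩
  rw [sub_self, map_zero]
  exact zero_lt_one

open Classical in
/-- the bound for a pair -/
lemma Cantor.pair (h : Cantor v F b) (k : ℕ) {z z' : M} (hzz : z ≠ z') :
    Real.log (v (z - z')) ≤ posLog (v z) + posLog (v z') -
      (-Real.log (v b)) * ∑ l ∈ Icc 1 k, (if Rl v F b l z z' then (1 : ℝ) else 0) := by
  have hp1 : 0 ≤ posLog (v z) := posLog_nonneg
  have hp2 : 0 ≤ posLog (v z') := posLog_nonneg
  have hpos : 0 < v (z - z') := v.pos (sub_ne_zero.2 hzz)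
  rw [← Finset.sum_filter, sum_const, nsmul_eq_mul, mul_one]
  set T := (Icc 1 k).filter fun l => Rl v F b l z z' with hT
  rcases T.eq_empty_or_nonempty with he | hne
  · rw [he, card_empty, Nat.cast_zero, mul_zero, sub_zero, log_le_iff_le_exp hpos]
    have h1 := h.nonarch z (-z')
    rw [← sub_eq_add_neg, v.map_neg] at h1
    refine h1.trans (max_le ?_ ?_)
    · exact (le_exp_posLog z).trans (exp_le_exp.2 (by linarith))
    · exact (le_exp_posLog z').trans (exp_le_exp.2 (by linarith))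
  · have h1 := T.max'_mem hne
    set l₁ := T.max' hne with hl₁
    have h2 := (mem_filter.1 h1)
    have h3 : T ⊆ Icc 1 l₁ := by
      intro l hl
      rw [mem_Icc]
      exact ⟨(mem_Icc.1 (mem_filter.1 hl).1).1, T.le_max' l hl⟩
    have h4 : (T.card : ℝ) ≤ l₁ := by
      have := card_le_card h3
      rw [Nat.card_Icc] at this
      exact_mod_cast this.trans (by omega)
    have h5 := ((st_A2 M v F b h).1 l₁ z z' (mem_Icc.1 h2.1).1 h2.2.1 h2.2.2.1 h2.2.2.2)
    have h6 : Real.log (v (z - z')) ≤ l₁ * Real.log (v b) := by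
      rw [← log_pow]
      exact log_le_log hpos h5
    have h7 := h.lam_pos
    nlinarith

open Classical in
/-- the number of pairs in the same class -/
lemma Cantor.classes (h : Cantor v F b) (l : ℕ) {D : ℕ} (x : Fin D → M)
    (hx : Function.Injective x) :
    (∑ i, if St v F b l (x i) then (1 : ℝ) else 0) ^ 2 ≤ (F.natDegree : ℝ) ^ l *
      ∑ i, ∑ j, if Rl v F b l (x i) (x j) then (1 : ℝ) else 0 := by
  set S := univ.filter fun i => St v F b l (x i) with hS
  set cl : Fin D → Finset (Fin D) := fun i => univ.filter fun j => Rl v F b l (x i) (x j) with hcl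
  have hcl_eq : ∀ i j, Rl v F b l (x i) (x j) → cl i = cl j := by
    intro i j hij
    ext m
    simp only [hcl, mem_filter, mem_univ, true_and]
    exact ⟨fun hm => hij.symm.trans h.nonarch hm, fun hm => hij.trans h.nonarch hm⟩
  have hself : ∀ i ∈ S, i ∈ cl i := by
    intro i hi
    simp only [hcl, mem_filter, mem_univ, true_and]
    exact Rl_self.2 (mem_filter.1 hi).2
  have hfib : ∀ C ∈ S.image cl, S.filter (fun i => cl i = C) = C := by
    intro C hC
    obtain ⟨i₀, hi₀, rfl⟩ := mem_image.1 hC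
    ext i
    rw [mem_filter]
    constructor
    · rintro ⟨h1, h2⟩
      rw [← h2]
      exact hself i h1
    · intro h1
      have h2 : Rl v F b l (x i₀) (x i) := (mem_filter.1 h1).2
      exact ⟨mem_filter.2 ⟨mem_univ _, h2.2.1⟩, (hcl_eq _ _ h2).symm⟩
  have h1 : (∑ i, if St v F b l (x i) then (1 : ℝ) else 0) = ∑ C ∈ S.image cl, (C.card : ℝ) := by
    rw [← Finset.sum_filter, ← hS, sum_const, nsmul_eq_mul, mul_one,
      card_eq_sum_card_image cl S]
    push_cast
    exact Finset.sum_congr rfl fun C hC => by rw [hfib C hC]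
  have h2 : (∑ i, ∑ j, if Rl v F b l (x i) (x j) then (1 : ℝ) else 0) =
      ∑ C ∈ S.image cl, (C.card : ℝ) ^ 2 := by
    have h3 : ∀ i, (∑ j, if Rl v F b l (x i) (x j) then (1 : ℝ) else 0) = (cl i).card := by
      intro i
      rw [← Finset.sum_filter, sum_const, nsmul_eq_mul, mul_one]
    rw [Finset.sum_congr rfl fun i _ => h3 i]
    have h4 : ∑ i, ((cl i).card : ℝ) = ∑ i ∈ S, ((cl i).card : ℝ) := by
      symm
      apply Finset.sum_subset (subset_univ _)
      intro i _ hi
      have h5 : cl i = ∅ := by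
        rw [Finset.eq_empty_iff_forall_notMem]
        intro j hj
        exact hi (mem_filter.2 ⟨mem_univ _, (mem_filter.1 hj).2.1⟩)
      rw [h5]
      simp
    rw [h4, Finset.sum_comp (fun C : Finset (Fin D) => (C.card : ℝ)) cl]
    refine Finset.sum_congr rfl fun C hC => ?_
    rw [hfib C hC, nsmul_eq_mul, sq]
  rw [h1, h2]
  refine sq_sum_le_card_mul_sum_sq.trans ?_
  apply mul_le_mul_of_nonneg_right _ (Finset.sum_nonneg fun _ _ => sq_nonneg _)
  have hex : ∀ C : Finset (Fin D), ∃ i : Fin D → Fin D, C ∈ S.image cl →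
      ∃ i₀ ∈ S, cl i₀ = C ∧ i i₀ = i₀ := fun C => ⟨id, fun hC => by
        obtain ⟨i₀, hi₀, h6⟩ := mem_image.1 hC
        exact ⟨i₀, hi₀, h6, rfl⟩⟩
  have hg : ∃ g : Finset (Fin D) → M, ∀ C ∈ S.image cl, ∃ i₀ ∈ S, cl i₀ = C ∧ g C = x i₀ := by
    refine ⟨fun C => if hC : C ∈ S.image cl then x (mem_image.1 hC).choose else 0, ?_⟩
    intro C hC
    refine ⟨(mem_image.1 hC).choose, (mem_image.1 hC).choose_spec.1,
      (mem_image.1 hC).choose_spec.2, ?_⟩
    simp only [dif_pos hC]
  obtain ⟨g, hg⟩ := hg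
  have hinj : Set.InjOn g (S.image cl) := by
    intro C hC C' hC' hCC
    obtain ⟨i, _, h2, h3⟩ := hg C hC
    obtain ⟨i', _, h5, h6⟩ := hg C' hC'
    rw [h3, h6] at hCC
    rw [← h2, ← h5, hx hCC]
  rw [← Finset.card_image_of_injOn hinj]
  have h7 : ((S.image cl).image g).card ≤ F.natDegree ^ l := by
    apply (st_A2 M v F b h).2 l
    · intro z hz
      obtain ⟨C, hC, rfl⟩ := mem_image.1 hz
      obtain ⟨i, h1, h2, h3⟩ := hg C hC
      rw [h3]
      exact (mem_filter.1 h1).2
    · intro z hz z' hz' hzz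
      obtain ⟨C, hC, rfl⟩ := mem_image.1 hz
      obtain ⟨C', hC', rfl⟩ := mem_image.1 hz'
      obtain ⟨i, h1, h2, h3⟩ := hg C hC
      obtain ⟨i', h4, h5, h6⟩ := hg C' hC'
      have h8 : Rl v F b l (x i) (x i') := by
        refine ⟨(mem_filter.1 h1).2, (mem_filter.1 h4).2, ?_⟩
        rw [← h3, ← h6]
        exact hzz
      have h9 : C = C' := by rw [← h2, ← h5, hcl_eq _ _ h8]
      rw [h9]
  exact_mod_cast h7

end main

theorem st_A3 : St_A3 := by
  classical
  intro M _ v F b h D n k L hD hk hL x hx c hc A Cl hA hCl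
  set d : ℝ := (F.natDegree : ℝ) with hd_def
  have hd : 2 ≤ d := by
    rw [hd_def]
    exact_mod_cast h.deg
  have hd0 : 0 < d := by linarith
  set lam := -Real.log (v b) with hlam
  have hlam0 : 0 < lam := h.lam_pos
  set p : Fin D → ℝ := fun i => posLog (v (x i)) with hp
  set g : Fin D → ℝ := fun i => gr v (C b⁻¹ * F) n (x i) with hg
  have hp0 : ∀ i, 0 ≤ p i := fun i => posLog_nonneg
  have hpg : ∀ i, p i ≤ g i := fun i => (st_A1 M v F b h n 0 (Nat.zero_le _) (x i)).1
  set P := ∑ i, p i with hP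
  set G := ∑ i, g i with hG
  have hP0 : 0 ≤ P := Finset.sum_nonneg fun i _ => hp0 i
  have hPG : P ≤ G := Finset.sum_le_sum fun i _ => hpg i
  have hD' : (1 : ℝ) ≤ D := by exact_mod_cast hD
  -- the pairs
  set N : ℕ → ℝ := fun l => ∑ i, ∑ j ∈ univ.erase i,
    (if Rl v F b l (x i) (x j) then (1 : ℝ) else 0) with hN
  set s : ℕ → ℝ := fun l => ∑ i, (if St v F b l (x i) then (1 : ℝ) else 0) with hs
  set u : ℕ → ℝ := fun l => ∑ i, (if ¬ St v F b l (x i) then (1 : ℝ) else 0) with hu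
  have hsu : ∀ l, s l + u l = D := by
    intro l
    rw [hs, hu]
    simp only
    rw [← Finset.sum_add_distrib]
    have : ∀ i ∈ (univ : Finset (Fin D)), (if St v F b l (x i) then (1 : ℝ) else 0) +
        (if ¬ St v F b l (x i) then (1 : ℝ) else 0) = 1 := by
      intro i _
      by_cases h1 : St v F b l (x i)
      · rw [if_pos h1, if_neg (not_not.2 h1), add_zero]
      · rw [if_neg h1, if_pos h1, zero_add]
    rw [Finset.sum_congr rfl this]
    simp
  have hu0 : ∀ l, 0 ≤ u l := fun l => Finset.sum_nonneg fun i _ => by split_ifs <;> norm_num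
  have hNs : ∀ l, (∑ i, ∑ j, (if Rl v F b l (x i) (x j) then (1 : ℝ) else 0)) = N l + s l := by
    intro l
    rw [hN, hs]
    simp only
    rw [← Finset.sum_add_distrib]
    refine Finset.sum_congr rfl fun i _ => ?_
    rw [← Finset.sum_erase_add univ _ (mem_univ i)]
    congr 1
    by_cases h1 : St v F b l (x i)
    · rw [if_pos h1, if_pos (Rl_self.2 h1)]
    · rw [if_neg h1, if_neg (fun h2 => h1 (Rl_self.1 h2))]
  have hN1 : ∀ l, ((D : ℝ) ^ 2 - 2 * D * u l) * (d ^ l)⁻¹ - D ≤ N l := by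
    intro l
    have h1 := h.classes l x hx
    rw [hNs l] at h1
    have h2 : s l ^ 2 ≤ d ^ l * (N l + s l) := h1
    have h3 : s l = D - u l := by linarith [hsu l]
    have h4 : (D : ℝ) ^ 2 - 2 * D * u l ≤ s l ^ 2 := by
      rw [h3]
      nlinarith [sq_nonneg (u l)]
    have h5 : ((D : ℝ) ^ 2 - 2 * D * u l) * (d ^ l)⁻¹ ≤ N l + s l := by
      rw [mul_inv_le_iff₀ (by positivity)]
      linarith
    linarith [hu0 l]
  have hN2 : ∀ l, (c - 1) * (A.card - u l) ≤ N l := by
    intro l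
    have h1 : N l = ∑ i, ((∑ j, (if Rl v F b l (x i) (x j) then (1 : ℝ) else 0)) -
        (if St v F b l (x i) then (1 : ℝ) else 0)) := by
      rw [Finset.sum_sub_distrib, hNs l]
      simp only [hs]
      ring
    have h2 : ∀ i, 0 ≤ (∑ j, (if Rl v F b l (x i) (x j) then (1 : ℝ) else 0)) -
        (if St v F b l (x i) then (1 : ℝ) else 0) := by
      intro i
      have h3 := Finset.single_le_sum (f := fun j => if Rl v F b l (x i) (x j) then (1 : ℝ) else 0)
        (s := univ) (fun j _ => by split_ifs <;> norm_num) (mem_univ i)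
      have h4 : (if Rl v F b l (x i) (x i) then (1 : ℝ) else 0) =
          (if St v F b l (x i) then (1 : ℝ) else 0) := by
        by_cases h1 : St v F b l (x i)
        · rw [if_pos h1, if_pos (Rl_self.2 h1)]
        · rw [if_neg h1, if_neg (fun h2 => h1 (Rl_self.1 h2))]
      rw [h4] at h3
      linarith
    have h3 : ∀ i ∈ A, (c - 1) * (if St v F b l (x i) then (1 : ℝ) else 0) ≤
        (∑ j, (if Rl v F b l (x i) (x j) then (1 : ℝ) else 0)) -
        (if St v F b l (x i) then (1 : ℝ) else 0) := by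
      intro i hi
      by_cases h4 : St v F b l (x i)
      · rw [if_pos h4, mul_one]
        have h5 : c ≤ ∑ j, (if Rl v F b l (x i) (x j) then (1 : ℝ) else 0) := by
          rw [← Finset.sum_filter, sum_const, nsmul_eq_mul, mul_one]
          refine (hA i hi).trans ?_
          have h6 : Cl i ⊆ univ.filter fun j => Rl v F b l (x i) (x j) := by
            intro j hj
            have h7 := hCl i j hj l h4
            exact mem_filter.2 ⟨mem_univ _, h4, h7.1, h7.2⟩
          exact_mod_cast card_le_card h6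
        linarith
      · rw [if_neg h4, mul_zero]
        have h5 := h2 i
        rw [if_neg h4] at h5
        exact h5
    have h4 : (A.card : ℝ) - u l ≤ ∑ i ∈ A, (if St v F b l (x i) then (1 : ℝ) else 0) := by
      have h5 : (A.card : ℝ) = ∑ i ∈ A, ((if St v F b l (x i) then (1 : ℝ) else 0) +
          (if ¬ St v F b l (x i) then (1 : ℝ) else 0)) := by
        have : ∀ i ∈ A, (if St v F b l (x i) then (1 : ℝ) else 0) +
            (if ¬ St v F b l (x i) then (1 : ℝ) else 0) = 1 := by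
          intro i _
          by_cases h1 : St v F b l (x i)
          · rw [if_pos h1, if_neg (not_not.2 h1), add_zero]
          · rw [if_neg h1, if_pos h1, zero_add]
        rw [Finset.sum_congr rfl this]
        simp
      rw [h5, Finset.sum_add_distrib]
      have h6 : ∑ i ∈ A, (if ¬ St v F b l (x i) then (1 : ℝ) else 0) ≤ u l :=
        Finset.sum_le_sum_of_subset_of_nonneg (subset_univ _) fun _ _ _ => by
          split_ifs <;> norm_num
      linarith
    calc (c - 1) * (A.card - u l) ≤ (c - 1) *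
          ∑ i ∈ A, (if St v F b l (x i) then (1 : ℝ) else 0) :=
          mul_le_mul_of_nonneg_left h4 (by linarith)
      _ = ∑ i ∈ A, (c - 1) * (if St v F b l (x i) then (1 : ℝ) else 0) := by rw [Finset.mul_sum]
      _ ≤ ∑ i ∈ A, ((∑ j, (if Rl v F b l (x i) (x j) then (1 : ℝ) else 0)) -
        (if St v F b l (x i) then (1 : ℝ) else 0)) := Finset.sum_le_sum h3
      _ ≤ N l := by
          rw [h1]
          exact Finset.sum_le_sum_of_subset_of_nonneg (subset_univ _) fun i _ _ => h2 i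
  -- the sum over all pairs
  have hpairs : 2 * Real.log (v (Matrix.vandermonde x).det) ≤
      2 * ((D : ℝ) - 1) * P - lam * ∑ l ∈ Icc 1 k, N l := by
    rw [two_log_vdm v x hx]
    have h1 : ∀ i ∈ (univ : Finset (Fin D)), ∀ j ∈ univ.erase i, Real.log (v (x i - x j)) ≤
        (p i + p j) - lam * ∑ l ∈ Icc 1 k, (if Rl v F b l (x i) (x j) then (1 : ℝ) else 0) := by
      intro i _ j hj
      exact h.pair k fun hij => (ne_of_mem_erase hj) (hx hij).symm
    refine (Finset.sum_le_sum fun i hi => Finset.sum_le_sum (h1 i hi)).trans (le_of_eq ?_)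
    simp only [Finset.sum_sub_distrib, Finset.sum_add_distrib]
    have h2 : ∑ i : Fin D, ∑ j ∈ univ.erase i, p i = ((D : ℝ) - 1) * P := by
      rw [hP, Finset.mul_sum]
      refine Finset.sum_congr rfl fun i _ => ?_
      rw [sum_const, card_erase_of_mem (mem_univ i), card_univ, Fintype.card_fin, nsmul_eq_mul,
        Nat.cast_sub hD, Nat.cast_one]
    have h3 : ∑ i : Fin D, ∑ j ∈ univ.erase i, p j = ((D : ℝ) - 1) * P := by
      have h4 : ∀ i : Fin D, ∑ j ∈ univ.erase i, p j = P - p i := by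
        intro i
        rw [hP, ← Finset.sum_erase_add univ _ (mem_univ i)]
        ring
      rw [Finset.sum_congr rfl fun i _ => h4 i, Finset.sum_sub_distrib, sum_const, card_univ,
        Fintype.card_fin, nsmul_eq_mul]
      ring
    have h4 : ∑ i : Fin D, ∑ j ∈ univ.erase i, lam * ∑ l ∈ Icc 1 k,
        (if Rl v F b l (x i) (x j) then (1 : ℝ) else 0) = lam * ∑ l ∈ Icc 1 k, N l := by
      rw [hN]
      simp only
      rw [Finset.mul_sum]
      have h5 : ∀ i : Fin D, ∑ j ∈ univ.erase i, lam * ∑ l ∈ Icc 1 k,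
          (if Rl v F b l (x i) (x j) then (1 : ℝ) else 0) = ∑ l ∈ Icc 1 k, lam *
            ∑ j ∈ univ.erase i, (if Rl v F b l (x i) (x j) then (1 : ℝ) else 0) := by
        intro i
        simp only [Finset.mul_sum]
        rw [Finset.sum_comm]
      rw [Finset.sum_congr rfl fun i _ => h5 i, Finset.sum_comm]
      refine Finset.sum_congr rfl fun l _ => ?_
      rw [Finset.mul_sum]
    rw [h2, h3, h4]
    ring
  -- the levels
  have hlev : ∀ i, (∑ l ∈ Icc 1 L, (if ¬ St v F b l (x i) then (d ^ l)⁻¹ else 0)) ≤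
        2 * (((d - 1) * (g i - p i) / lam) + (d ^ n)⁻¹) ∧
      (∑ l ∈ Ioc L k, (if ¬ St v F b l (x i) then (1 : ℝ) else 0)) ≤
        d ^ k * (((d - 1) * (g i - p i) / lam) + (d ^ n)⁻¹) := by
    intro i
    have hGi : 0 ≤ ((d - 1) * (g i - p i) / lam) + (d ^ n)⁻¹ := by
      have h1 : 0 ≤ (d - 1) * (g i - p i) / lam :=
        div_nonneg (mul_nonneg (by linarith) (by linarith [hpg i])) hlam0.le
      positivity
    refine level_sum hd (fun l => ¬ St v F b l (x i)) k hGi (fun l hl h1 => ?_) L hL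
    have h2 := (st_A1 M v F b h n l (hl.trans hk) (x i)).2 h1
    have h3 : p i + lam / (d - 1) * ((d ^ l)⁻¹ - (d ^ n)⁻¹) ≤ g i := h2
    have h4 : (d ^ l)⁻¹ - (d ^ n)⁻¹ ≤ (d - 1) * (g i - p i) / lam := by
      rw [le_div_iff₀ hlam0]
      have h5 : lam / (d - 1) * ((d ^ l)⁻¹ - (d ^ n)⁻¹) ≤ g i - p i := by linarith
      have h6 : 0 < d - 1 := by linarith
      have h7 := mul_le_mul_of_nonneg_left h5 h6.le
      have h8 : (d - 1) * (lam / (d - 1) * ((d ^ l)⁻¹ - (d ^ n)⁻¹)) =
          ((d ^ l)⁻¹ - (d ^ n)⁻¹) * lam := by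
        field_simp
      rw [h8] at h7
      exact h7
    linarith
  have hsumG : ∑ i : Fin D, (((d - 1) * (g i - p i) / lam) + (d ^ n)⁻¹) =
      (d - 1) * (G - P) / lam + D * (d ^ n)⁻¹ := by
    rw [Finset.sum_add_distrib, ← Finset.sum_div, ← Finset.mul_sum, Finset.sum_sub_distrib,
      sum_const, card_univ, Fintype.card_fin, nsmul_eq_mul]
  have hU1 : lam * ∑ l ∈ Icc 1 L, u l * (d ^ l)⁻¹ ≤
      2 * ((d - 1) * (G - P) + lam * D * (d ^ n)⁻¹) := by
    have h1 : ∑ l ∈ Icc 1 L, u l * (d ^ l)⁻¹ =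
        ∑ i, ∑ l ∈ Icc 1 L, (if ¬ St v F b l (x i) then (d ^ l)⁻¹ else 0) := by
      rw [Finset.sum_comm]
      refine Finset.sum_congr rfl fun l _ => ?_
      simp only [hu]
      rw [Finset.sum_mul]
      refine Finset.sum_congr rfl fun i _ => ?_
      split_ifs <;> simp
    have h2 : ∑ l ∈ Icc 1 L, u l * (d ^ l)⁻¹ ≤
        2 * ((d - 1) * (G - P) / lam + D * (d ^ n)⁻¹) := by
      rw [h1, ← hsumG, Finset.mul_sum]
      exact Finset.sum_le_sum fun i _ => (hlev i).1
    have h3 := mul_le_mul_of_nonneg_left h2 hlam0.le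
    refine h3.trans (le_of_eq ?_)
    field_simp
  have hU2 : lam * ∑ l ∈ Ioc L k, u l ≤ d ^ k * ((d - 1) * (G - P) + lam * D * (d ^ n)⁻¹) := by
    have h1 : ∑ l ∈ Ioc L k, u l =
        ∑ i, ∑ l ∈ Ioc L k, (if ¬ St v F b l (x i) then (1 : ℝ) else 0) := by
      rw [Finset.sum_comm]
    have h2 : ∑ l ∈ Ioc L k, u l ≤
        d ^ k * ((d - 1) * (G - P) / lam + D * (d ^ n)⁻¹) := by
      rw [h1, ← hsumG, Finset.mul_sum]
      exact Finset.sum_le_sum fun i _ => (hlev i).2
    have h3 := mul_le_mul_of_nonneg_left h2 hlam0.le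
    refine h3.trans (le_of_eq ?_)
    field_simp
  -- the sum of the N l
  have hsumN : ((D : ℝ) ^ 2 * ∑ l ∈ Icc 1 L, (d ^ l)⁻¹ - 2 * D * ∑ l ∈ Icc 1 L, u l * (d ^ l)⁻¹ -
      L * D) + ((c - 1) * A.card * ((k : ℝ) - L) - (c - 1) * ∑ l ∈ Ioc L k, u l) ≤
      ∑ l ∈ Icc 1 k, N l := by
    have h1 : Icc 1 k = Icc 1 L ∪ Ioc L k := by
      ext l
      simp only [mem_Icc, mem_union, mem_Ioc]
      omega
    have h2 : Disjoint (Icc 1 L) (Ioc L k) := by
      rw [Finset.disjoint_left]
      intro l hl hl'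
      rw [mem_Icc] at hl
      rw [mem_Ioc] at hl'
      omega
    rw [h1, Finset.sum_union h2]
    apply add_le_add
    · have h3 : ∑ l ∈ Icc 1 L, (((D : ℝ) ^ 2 - 2 * D * u l) * (d ^ l)⁻¹ - D) ≤
          ∑ l ∈ Icc 1 L, N l := Finset.sum_le_sum fun l _ => hN1 l
      refine le_trans (le_of_eq ?_) h3
      rw [Finset.sum_sub_distrib, sum_const, Nat.card_Icc, nsmul_eq_mul, Nat.add_sub_cancel]
      congr 1
      rw [Finset.mul_sum, Finset.mul_sum, ← Finset.sum_sub_distrib]
      exact Finset.sum_congr rfl fun l _ => by ring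
    · have h3 : ∑ l ∈ Ioc L k, ((c - 1) * (A.card - u l)) ≤ ∑ l ∈ Ioc L k, N l :=
        Finset.sum_le_sum fun l _ => hN2 l
      refine le_trans (le_of_eq ?_) h3
      rw [← Finset.mul_sum, Finset.sum_sub_distrib, sum_const, Nat.card_Ioc, nsmul_eq_mul,
        Nat.cast_sub hL]
      ring
  have hgeo : ∑ l ∈ Icc 1 L, (d ^ l)⁻¹ = (1 - (d ^ L)⁻¹) / (d - 1) := by
    have h1 : ∀ m : ℕ, ∑ l ∈ Icc 1 m, (d ^ l)⁻¹ = (1 - (d ^ m)⁻¹) / (d - 1) := by
      intro m
      have hd1 : d - 1 ≠ 0 := by linarith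
      induction m with
      | zero => simp
      | succ m ih =>
        rw [Finset.sum_Icc_succ_top (by omega), ih]
        field_simp
        ring
    exact h1 L
  have hE := sum_ex_le h.deg D
  rw [← hd_def] at hE
  set E : ℝ := ((∑ j ∈ range D, ex F.natDegree j : ℕ) : ℝ) with hEdef
  rw [h.lead_phi, log_inv]
  change _ + 2 * E * lam ≤ (2 * ((D : ℝ) - 1) + (d - 1) * (4 * D + 2 * (c - 1) * d ^ k)) * G +
    lam * ((D : ℝ) ^ 2 / d ^ L + L * D + (4 * D + 2 * (c - 1) * d ^ k) * D / d ^ n -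
          (c - 1) * A.card * ((k : ℝ) - L))
  have hd1 : 0 < d - 1 := by linarith
  have hE2 : 2 * E * lam ≤ lam * (D : ℝ) ^ 2 / (d - 1) := by
    rw [le_div_iff₀ hd1]
    nlinarith
  have hNl := mul_le_mul_of_nonneg_left hsumN hlam0.le
  rw [hgeo] at hNl
  have hq1 : lam * (D : ℝ) ^ 2 / (d - 1) - lam * ((D : ℝ) ^ 2 * ((1 - (d ^ L)⁻¹) / (d - 1))) ≤
      lam * ((D : ℝ) ^ 2 / d ^ L) := by
    have e1 : lam * (D : ℝ) ^ 2 / (d - 1) - lam * ((D : ℝ) ^ 2 * ((1 - (d ^ L)⁻¹) / (d - 1))) =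
        (lam * ((D : ℝ) ^ 2 / d ^ L)) / (d - 1) := by
      field_simp
      ring
    rw [e1]
    apply div_le_self (by positivity)
    linarith
  have hW : 0 ≤ (d - 1) * (G - P) + lam * D * (d ^ n)⁻¹ := by
    have h1 : 0 ≤ (d - 1) * (G - P) := mul_nonneg hd1.le (by linarith)
    positivity
  have hdk : 0 ≤ d ^ k := by positivity
  have hq2 : lam * (2 * D * ∑ l ∈ Icc 1 L, u l * (d ^ l)⁻¹) ≤
      4 * D * ((d - 1) * (G - P) + lam * D * (d ^ n)⁻¹) := by
    have h1 := mul_le_mul_of_nonneg_left hU1 (show (0 : ℝ) ≤ 2 * D by positivity)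
    linarith
  have hq3 : lam * ((c - 1) * ∑ l ∈ Ioc L k, u l) ≤
      2 * (c - 1) * d ^ k * ((d - 1) * (G - P) + lam * D * (d ^ n)⁻¹) := by
    have hc0 : 0 ≤ c - 1 := by linarith
    have h1 := mul_le_mul_of_nonneg_left hU2 hc0
    have h2 : 0 ≤ (c - 1) * (d ^ k * ((d - 1) * (G - P) + lam * D * (d ^ n)⁻¹)) :=
      mul_nonneg hc0 (mul_nonneg hdk hW)
    linarith
  have hq4 : 2 * ((D : ℝ) - 1) * P ≤ 2 * ((D : ℝ) - 1) * G :=
    mul_le_mul_of_nonneg_left hPG (by linarith)
  have hq5 : (4 * (D : ℝ) + 2 * (c - 1) * d ^ k) * ((d - 1) * (G - P)) ≤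
      (4 * (D : ℝ) + 2 * (c - 1) * d ^ k) * ((d - 1) * G) := by
    have hc0 : 0 ≤ c - 1 := by linarith
    apply mul_le_mul_of_nonneg_left _ (by positivity)
    exact mul_le_mul_of_nonneg_left (by linarith) hd1.le
  have e2 : lam * ((4 * (D : ℝ) + 2 * (c - 1) * d ^ k) * D / d ^ n) =
      (4 * (D : ℝ) + 2 * (c - 1) * d ^ k) * (lam * D * (d ^ n)⁻¹) := by
    field_simp
  have e3 : lam * ((D : ℝ) ^ 2 / d ^ L + L * D + (4 * D + 2 * (c - 1) * d ^ k) * D / d ^ n -
          (c - 1) * A.card * ((k : ℝ) - L)) = lam * ((D : ℝ) ^ 2 / d ^ L) + lam * (L * D) +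
          lam * ((4 * D + 2 * (c - 1) * d ^ k) * D / d ^ n) -
          lam * ((c - 1) * A.card * ((k : ℝ) - L)) := by ring
  rw [e3, e2]
  linarith

end Pool.Agent.NH29.LE
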