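import Pool.Agent.NH29.LE.Stm

set_option autoImplicit false

namespace Pool.Agent.NH29.LE

open Polynomial Real

section digit
variable {M : Type} [Field M]

/-- the digit polynomials `Q_j` -/
noncomputable def dq (φ : M[X]) : ℕ → M[X]
  | 0 => 1
  | (j + 1) => if _h : 2 ≤ φ.natDegree then
      X ^ ((j + 1) % φ.natDegree) * (dq φ ((j + 1) / φ.natDegree)).comp φ else 0
decreasing_by
  exact Nat.div_lt_self (Nat.succ_pos j) _h

lemma dq_zero (φ : M[X]) : dq φ 0 = 1 := by rw [dq]

lemma dq_pos (φ : M[X]) (h : 2 ≤ φ.natDegree) (j : ℕ) (hj : 1 ≤ j) :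
    dq φ j = X ^ (j % φ.natDegree) * (dq φ (j / φ.natDegree)).comp φ := by
  obtain ⟨i, rfl⟩ := Nat.exists_eq_succ_of_ne_zero (Nat.one_le_iff_ne_zero.1 hj)
  rw [Nat.succ_eq_add_one, dq, dif_pos h]

lemma ex_zero (d : ℕ) : ex d 0 = 0 := by rw [ex]

lemma ex_pos {d : ℕ} (h : 2 ≤ d) (j : ℕ) (hj : 1 ≤ j) : ex d j = j / d + ex d (j / d) := by
  obtain ⟨i, rfl⟩ := Nat.exists_eq_succ_of_ne_zero (Nat.one_le_iff_ne_zero.1 hj)
  rw [Nat.succ_eq_add_one, ex, if_pos h]

lemma ds_zero (d : ℕ) : ds d 0 = 0 := by rw [ds]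

lemma ds_pos {d : ℕ} (h : 2 ≤ d) (j : ℕ) (hj : 1 ≤ j) : ds d j = j % d + ds d (j / d) := by
  obtain ⟨i, rfl⟩ := Nat.exists_eq_succ_of_ne_zero (Nat.one_le_iff_ne_zero.1 hj)
  rw [Nat.succ_eq_add_one, ds, if_pos h]

/-- degree and leading coefficient of the digit polynomials -/
lemma dq_lead (φ : M[X]) (h : 2 ≤ φ.natDegree) (j : ℕ) :
    (dq φ j).natDegree = j ∧ (dq φ j).leadingCoeff = φ.leadingCoeff ^ ex φ.natDegree j := by
  have h0 : φ ≠ 0 := by
    rintro rfl
    simp at h
  have hl : φ.leadingCoeff ≠ 0 := leadingCoeff_ne_zero.2 h0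
  induction j using Nat.strong_induction_on with
  | _ j ih =>
    rcases Nat.eq_zero_or_pos j with rfl | hj
    · rw [dq_zero, ex_zero]
      simp
    · have hlt : j / φ.natDegree < j := Nat.div_lt_self hj h
      obtain ⟨h1, h2⟩ := ih _ hlt
      rw [dq_pos φ h j hj, ex_pos h j hj]
      have h3 : ((dq φ (j / φ.natDegree)).comp φ).leadingCoeff =
          φ.leadingCoeff ^ (j / φ.natDegree + ex φ.natDegree (j / φ.natDegree)) := by
        rw [leadingCoeff_comp (by omega), h2, h1, ← pow_add, add_comm]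
      have h4 : (dq φ (j / φ.natDegree)).comp φ ≠ 0 := by
        rw [← leadingCoeff_ne_zero, h3]
        exact pow_ne_zero _ hl
      constructor
      · rw [natDegree_mul (pow_ne_zero _ X_ne_zero) h4, natDegree_X_pow, natDegree_comp, h1]
        exact Nat.mod_add_div' j φ.natDegree
      · rw [leadingCoeff_mul, leadingCoeff_X_pow, one_mul, h3]

lemma det_dq (φ : M[X]) (h : 2 ≤ φ.natDegree) {D : ℕ} (x : Fin D → M) :
    (Matrix.of fun i j : Fin D => (dq φ j).eval (x i)).det =
      φ.leadingCoeff ^ (∑ j ∈ Finset.range D, ex φ.natDegree j) *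
        (Matrix.vandermonde x).det := by
  have h0 : φ ≠ 0 := by
    rintro rfl
    simp at h
  have hl : φ.leadingCoeff ≠ 0 := leadingCoeff_ne_zero.2 h0
  set p : Fin D → M[X] := fun j => C ((φ.leadingCoeff ^ ex φ.natDegree j)⁻¹) * dq φ j with hp
  have h1 : ∀ j, (p j).natDegree = j := by
    intro j
    rw [hp]
    simp only
    rw [natDegree_C_mul (inv_ne_zero (pow_ne_zero _ hl)), (dq_lead φ h j).1]
  have h2 : ∀ j, (p j).Monic := by
    intro j
    rw [Monic, hp]
    simp only
    rw [leadingCoeff_mul, leadingCoeff_C, (dq_lead φ h j).2]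
    exact inv_mul_cancel₀ (pow_ne_zero _ hl)
  rw [Matrix.det_eval_matrixOfPolynomials_eq_det_vandermonde x p h1 h2]
  have h3 : (Matrix.of fun i j : Fin D => (dq φ j).eval (x i)) =
      Matrix.of fun i j : Fin D => (φ.leadingCoeff ^ ex φ.natDegree j) *
        (Matrix.of (fun i j : Fin D => (p j).eval (x i))) i j := by
    ext i j
    simp only [Matrix.of_apply, hp, eval_mul, eval_C]
    rw [← mul_assoc, mul_inv_cancel₀ (pow_ne_zero _ hl), one_mul]
  rw [h3, Matrix.det_mul_row]
  congr 1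
  rw [Finset.prod_pow_eq_pow_sum, Finset.sum_range]

end digit

section bound
variable {M : Type} [Field M] (v : AbsoluteValue M ℝ) (φ : M[X])

lemma it_succ (n : ℕ) (z : M) : it φ (n + 1) z = it φ n (φ.eval z) := by
  rw [it, Function.iterate_succ_apply]
  rfl

lemma gr_nonneg (n : ℕ) (z : M) : 0 ≤ gr v φ n z := by
  rw [gr]
  exact div_nonneg (posLog_nonneg) (by positivity)

lemma gr_zero (z : M) : gr v φ 0 z = posLog (v z) := by
  rw [gr, pow_zero, div_one]
  rfl

lemma gr_succ (n : ℕ) (z : M) :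
    gr v φ (n + 1) z = gr v φ n (φ.eval z) / φ.natDegree := by
  rw [gr, gr, it_succ, pow_succ, div_div]

variable {v φ}

lemma posLog_le_gr (hd : 2 ≤ φ.natDegree) {c : ℝ} (hc : 0 ≤ c)
    (h : ∀ z, posLog (v z) ≤ posLog (v (φ.eval z)) / φ.natDegree + c) (n : ℕ) (z : M) :
    posLog (v z) ≤ gr v φ n z + 2 * c := by
  have hd' : (2 : ℝ) ≤ φ.natDegree := by exact_mod_cast hd
  induction n generalizing z with
  | zero =>
    rw [gr_zero]
    linarith
  | succ n ih =>
    have h1 := h z
    have h2 := ih (φ.eval z)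
    rw [gr_succ]
    have h3 : posLog (v (φ.eval z)) / φ.natDegree ≤ gr v φ n (φ.eval z) / φ.natDegree + c := by
      rw [div_add' _ _ _ (by positivity)]
      apply div_le_div_of_nonneg_right _ (by positivity)
      nlinarith
    linarith

lemma le_exp_posLog (z : M) : v z ≤ exp (posLog (v z)) := by
  rcases (v.nonneg z).eq_or_lt with h | h
  · rw [← h]
    exact (exp_pos _).le
  · rw [← log_le_iff_le_exp h]
    exact le_max_right _ _

lemma dq_bound (hd : 2 ≤ φ.natDegree) {c : ℝ} (hc : 0 ≤ c)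
    (h : ∀ z, posLog (v z) ≤ posLog (v (φ.eval z)) / φ.natDegree + c) (j : ℕ) :
    ∀ (n : ℕ) (z : M), j ≤ n →
      v ((dq φ j).eval z) ≤ exp (j * gr v φ n z + 2 * c * ds φ.natDegree j) := by
  have hd' : (2 : ℝ) ≤ φ.natDegree := by exact_mod_cast hd
  induction j using Nat.strong_induction_on with
  | _ j ih =>
    intro n z hn
    rcases Nat.eq_zero_or_pos j with rfl | hj
    · rw [dq_zero, ds_zero]
      simp
    · have hlt : j / φ.natDegree < j := Nat.div_lt_self hj hd
      obtain ⟨m, rfl⟩ := Nat.exists_eq_succ_of_ne_zero (show n ≠ 0 by omega)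
      rw [dq_pos φ hd j hj, ds_pos hd j hj, eval_mul, eval_pow, eval_X, eval_comp, map_mul,
        map_pow]
      have h1 := ih _ hlt m (φ.eval z) (by omega)
      have h2 : v z ^ (j % φ.natDegree) ≤
          exp ((j % φ.natDegree : ℕ) * (gr v φ (m + 1) z + 2 * c)) := by
        rw [exp_nat_mul]
        apply pow_le_pow_left₀ (v.nonneg z)
        exact (le_exp_posLog z).trans (exp_le_exp.2 (posLog_le_gr hd hc h (m + 1) z))
      refine (mul_le_mul h2 h1 (v.nonneg _) (exp_pos _).le).trans ?_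
      rw [← exp_add, exp_le_exp]
      apply le_of_eq
      have h3 : gr v φ m (φ.eval z) = φ.natDegree * gr v φ (m + 1) z := by
        rw [gr_succ]
        field_simp
      have h4 : ((j % φ.natDegree : ℕ) : ℝ) + ((j / φ.natDegree : ℕ) : ℝ) * φ.natDegree = j := by
        exact_mod_cast Nat.mod_add_div' j φ.natDegree
      rw [h3, Nat.succ_eq_add_one]
      push_cast
      linear_combination (gr v φ (m + 1) z) * h4

end bound

section det
variable {M : Type} [Field M] (v : AbsoluteValue M ℝ)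

lemma det_le {D : ℕ} (N : Matrix (Fin D) (Fin D) M) (B : ℝ)
    (hB : ∀ σ : Equiv.Perm (Fin D), v (∏ i, N (σ i) i) ≤ B) :
    v N.det ≤ D.factorial * B := by
  rw [Matrix.det_apply]
  refine (v.sum_le _ _).trans ?_
  have h : ∀ σ ∈ (Finset.univ : Finset (Equiv.Perm (Fin D))),
      v (Equiv.Perm.sign σ • ∏ i, N (σ i) i) ≤ B := by
    intro σ _
    rcases Int.units_eq_one_or (Equiv.Perm.sign σ) with h1 | h1
    · rw [h1, one_smul]
      exact hB σ
    · rw [h1, Units.neg_smul, one_smul, v.map_neg]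
      exact hB σ
  refine (Finset.sum_le_sum h).trans ?_
  rw [Finset.sum_const, Finset.card_univ, Fintype.card_perm, Fintype.card_fin, nsmul_eq_mul]

lemma sum_le_nonarch (hv : IsNonarchimedean v) {ι : Type*} (s : Finset ι) (f : ι → M) {B : ℝ}
    (hB0 : 0 ≤ B) (hB : ∀ i ∈ s, v (f i) ≤ B) : v (∑ i ∈ s, f i) ≤ B := by
  classical
  induction s using Finset.induction_on with
  | empty => simpa using hB0
  | insert a s ha ih =>
    rw [Finset.sum_insert ha]
    refine (hv _ _).trans (max_le (hB a (Finset.mem_insert_self a s)) ?_)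
    exact ih fun i hi => hB i (Finset.mem_insert_of_mem hi)

lemma det_le_nonarch (hv : IsNonarchimedean v) {D : ℕ} (N : Matrix (Fin D) (Fin D) M) {B : ℝ}
    (hB0 : 0 ≤ B) (hB : ∀ σ : Equiv.Perm (Fin D), v (∏ i, N (σ i) i) ≤ B) :
    v N.det ≤ B := by
  rw [Matrix.det_apply]
  refine sum_le_nonarch v hv _ _ hB0 fun σ _ => ?_
  rcases Int.units_eq_one_or (Equiv.Perm.sign σ) with h1 | h1
  · rw [h1, one_smul]
    exact hB σ
  · rw [h1, Units.neg_smul, one_smul, v.map_neg]
    exact hB σ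

end det

theorem st_B : St_B := by
  intro M _ v φ hd C hC h D n hn x hx
  classical
  have h0 : φ ≠ 0 := by
    rintro rfl
    simp at hd
  have hl : φ.leadingCoeff ≠ 0 := leadingCoeff_ne_zero.2 h0
  have hV : (Matrix.vandermonde x).det ≠ 0 := Matrix.det_vandermonde_ne_zero_iff.2 hx
  set N : Matrix (Fin D) (Fin D) M := Matrix.of fun i j : Fin D => (dq φ j).eval (x i) with hN
  have hdet := det_dq φ hd x
  rw [← hN] at hdet
  set B := ((D : ℝ) - 1) * ∑ i, gr v φ n (x i) +
        2 * C * (∑ j ∈ Finset.range D, ds φ.natDegree j : ℕ) with hBd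
  have hB : ∀ σ : Equiv.Perm (Fin D), v (∏ i, N (σ i) i) ≤ exp B := by
    intro σ
    rw [map_prod]
    have h1 : ∀ i ∈ (Finset.univ : Finset (Fin D)), v (N (σ i) i) ≤
        exp (((D : ℝ) - 1) * gr v φ n (x (σ i)) + 2 * C * ds φ.natDegree i) := by
      intro i _
      have h2 := dq_bound (v := v) hd hC h i n (x (σ i)) (by have := i.2; omega)
      refine h2.trans (exp_le_exp.2 ?_)
      have h3 : ((i : ℕ) : ℝ) ≤ (D : ℝ) - 1 := by
        have h4 : (i : ℕ) + 1 ≤ D := i.2
        have h5 : (((i : ℕ) + 1 : ℕ) : ℝ) ≤ D := by exact_mod_cast h4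
        push_cast at h5
        linarith
      have h6 := gr_nonneg v φ n (x (σ i))
      nlinarith
    refine (Finset.prod_le_prod (fun i _ => v.nonneg _) h1).trans ?_
    rw [← exp_sum, exp_le_exp, Finset.sum_add_distrib, ← Finset.mul_sum, ← Finset.mul_sum,
      Equiv.sum_comp σ (fun i => gr v φ n (x i)), hBd, Finset.sum_range]
    push_cast
    exact le_rfl
  have h7 : Real.log (v (Matrix.vandermonde x).det) +
        (∑ j ∈ Finset.range D, ex φ.natDegree j : ℕ) * Real.log (v φ.leadingCoeff) =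
      Real.log (v N.det) := by
    rw [hdet, map_mul, map_pow, log_mul (pow_ne_zero _ (v.ne_zero hl)) (v.ne_zero hV), log_pow,
      add_comm]
  have h8 : v N.det ≠ 0 := by
    rw [hdet]
    exact v.ne_zero (mul_ne_zero (pow_ne_zero _ hl) hV)
  have h9 : 0 < v N.det := lt_of_le_of_ne (v.nonneg _) (Ne.symm h8)
  rw [h7]
  split_ifs with hv
  · rw [add_zero, log_le_iff_le_exp h9]
    exact det_le_nonarch v hv N (exp_pos _).le hB
  · have h10 := det_le v N (exp B) hB
    have h11 : (0 : ℝ) < D.factorial := by exact_mod_cast D.factorial_pos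
    rw [log_le_iff_le_exp h9, exp_add, exp_log h11]
    linarith

end Pool.Agent.NH29.LE
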