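import Mathlib

set_option autoImplicit false
set_option linter.unusedSectionVars false
set_option linter.style.haveILetI false

/-!
Decomposition groups and embeddings
-/

namespace Pool.Agent.NH29.LE

open NumberField Module

open scoped Pointwise

section
variable {K L M : Type} [Field K] [Field L] [Field M] [Algebra K L] [Algebra K M]

/-- the action of the Galois group on the embeddings -/
instance actE : MulAction (M ≃ₐ[K] M) (L →ₐ[K] M) where
  smul g ρ := (g : M →ₐ[K] M).comp ρ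
  one_smul ρ := by
    ext x
    rfl
  mul_smul g g' ρ := by
    ext x
    rfl

lemma smul_emb (g : M ≃ₐ[K] M) (ρ : L →ₐ[K] M) (x : L) : (g • ρ) x = g (ρ x) := rfl

/-- the ideal below with respect to an embedding -/
noncomputable def bel (ρ : L →ₐ[K] M) (V : Ideal (𝓞 M)) : Ideal (𝓞 L) :=
  V.comap (RingOfIntegers.mapRingHom (ρ : L →+* M))

lemma bel_smul (ρ : L →ₐ[K] M) (V : Ideal (𝓞 M)) (g : M ≃ₐ[K] M) :
    bel (g • ρ) (g • V) = bel ρ V := by
  ext x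
  rw [bel, bel, Ideal.mem_comap, Ideal.mem_comap]
  have h1 : RingOfIntegers.mapRingHom ((g • ρ : L →ₐ[K] M) : L →+* M) x =
      g • RingOfIntegers.mapRingHom (ρ : L →+* M) x := rfl
  rw [h1, Ideal.smul_mem_pointwise_smul_iff]

end

section
variable {K L M : Type} [Field K] [NumberField K] [Field L] [NumberField L] [Field M]
  [NumberField M] [Algebra K L] [Algebra K M] [IsGalois K M]

lemma fixed_range (ρ : L →ₐ[K] M) (x : M) (hx : ∀ g : M ≃ₐ[K] M, g • ρ = ρ → g x = x) :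
    ∃ y, ρ y = x := by
  have h1 : x ∈ IntermediateField.fixedField (IntermediateField.fixingSubgroup ρ.fieldRange) := by
    rw [IntermediateField.mem_fixedField_iff]
    intro g hg
    apply hx
    ext y
    rw [smul_emb]
    rw [IntermediateField.mem_fixingSubgroup_iff] at hg
    exact hg (ρ y) ⟨y, rfl⟩
  rw [IsGalois.fixedField_fixingSubgroup] at h1
  obtain ⟨y, hy⟩ := h1
  exact ⟨y, hy⟩

theorem gal_stab (ρ : L →ₐ[K] M) :
    letI := (ρ : L →+* M).toAlgebra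
    IsGaloisGroup (MulAction.stabilizer (M ≃ₐ[K] M) ρ) L M := by
  letI := (ρ : L →+* M).toAlgebra
  refine ⟨⟨fun {g h} hgh => ?_⟩, ⟨fun g a x => ?_⟩, ⟨fun x hx => ?_⟩⟩
  · apply Subtype.ext
    ext x
    exact hgh x
  · have h1 : (g : M ≃ₐ[K] M) (ρ a) = ρ a :=
      AlgHom.congr_fun (MulAction.mem_stabilizer_iff.1 g.2) a
    change (g : M ≃ₐ[K] M) (ρ a * x) = ρ a * (g : M ≃ₐ[K] M) x
    rw [map_mul, h1]
  · exact fixed_range ρ x (fun g hg => hx ⟨g, MulAction.mem_stabilizer_iff.2 hg⟩)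

theorem gal_stab_ring (ρ : L →ₐ[K] M) :
    letI := (ρ : L →+* M).toAlgebra
    IsGaloisGroup (MulAction.stabilizer (M ≃ₐ[K] M) ρ) (𝓞 L) (𝓞 M) := by
  letI := (ρ : L →+* M).toAlgebra
  haveI : IsGaloisGroup (MulAction.stabilizer (M ≃ₐ[K] M) ρ) L M := gal_stab ρ
  exact IsGaloisGroup.of_isFractionRing _ (𝓞 L) (𝓞 M) L M

theorem card_stab_aux (H : Subgroup (M ≃ₐ[K] M)) (q : Ideal (𝓞 M))
    (S : Subgroup H) (hS : ∀ g : H, g ∈ S ↔ (g : M ≃ₐ[K] M) • q = q) :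
    Nat.card S = Nat.card (MulAction.stabilizer (M ≃ₐ[K] M) q ⊓ H : Subgroup _) := by
  refine Nat.card_congr
    { toFun := fun x => ⟨x.1.1, Subgroup.mem_inf.2 ⟨(hS x.1).1 x.2, x.1.2⟩⟩
      invFun := fun x => ⟨⟨x.1, (Subgroup.mem_inf.1 x.2).2⟩, (hS _).2 (Subgroup.mem_inf.1 x.2).1⟩
      left_inv := fun x => rfl
      right_inv := fun x => rfl }

lemma bel_under (ρ : L →ₐ[K] M) (q : Ideal (𝓞 M)) : (bel ρ q).under (𝓞 K) = q.under (𝓞 K) := by
  ext x
  rw [Ideal.under_def, Ideal.under_def, Ideal.mem_comap, Ideal.mem_comap, bel, Ideal.mem_comap]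
  have h3 : (RingOfIntegers.mapRingHom (ρ : L →+* M)) ((algebraMap (𝓞 K) (𝓞 L)) x) =
      algebraMap (𝓞 K) (𝓞 M) x := by
    apply RingOfIntegers.ext
    exact ρ.commutes x
  rw [h3]

/-- the order of the decomposition group -/
theorem card_dec (ρ : L →ₐ[K] M) (q : Ideal (𝓞 M)) [q.IsPrime] :
    Nat.card (MulAction.stabilizer (M ≃ₐ[K] M) q) =
      ((bel ρ q).ramificationIdx (𝓞 K) * (bel ρ q).inertiaDeg (𝓞 K)) *
        Nat.card (MulAction.stabilizer (M ≃ₐ[K] M) q ⊓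
          MulAction.stabilizer (M ≃ₐ[K] M) ρ : Subgroup _) := by
  letI := (ρ : L →+* M).toAlgebra
  haveI htow : IsScalarTower K L M := IsScalarTower.of_algebraMap_eq fun x => (ρ.commutes x).symm
  haveI htow2 : IsScalarTower (𝓞 K) (𝓞 L) (𝓞 M) := inferInstance
  haveI : IsGaloisGroup (MulAction.stabilizer (M ≃ₐ[K] M) ρ) (𝓞 L) (𝓞 M) := gal_stab_ring ρ
  haveI h1 : q.LiesOver (bel ρ q) := ⟨rfl⟩
  haveI : (bel ρ q).IsPrime := Ideal.comap_isPrime _ _
  haveI h2 : q.LiesOver (q.under (𝓞 K)) := ⟨rfl⟩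
  have h3 := Ideal.card_stabilizer_eq
    (G := (MulAction.stabilizer (M ≃ₐ[K] M) ρ)) (bel ρ q) q
  rw [card_stab_aux (MulAction.stabilizer (M ≃ₐ[K] M) ρ) q _ (fun g => Iff.rfl)] at h3
  rw [h3, Ideal.card_stabilizer_eq (G := (M ≃ₐ[K] M)) (q.under (𝓞 K)) q,
    Ideal.ramificationIdxIn_eq_ramificationIdx (q.under (𝓞 K)) q (M ≃ₐ[K] M),
    Ideal.ramificationIdxIn_eq_ramificationIdx (bel ρ q) q
    (MulAction.stabilizer (M ≃ₐ[K] M) ρ),
    Ideal.inertiaDegIn_eq_inertiaDeg (q.under (𝓞 K)) q (M ≃ₐ[K] M),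
    Ideal.inertiaDegIn_eq_inertiaDeg (bel ρ q) q
    (MulAction.stabilizer (M ≃ₐ[K] M) ρ),
    Ideal.ramificationIdx_tower (R := 𝓞 K) (bel ρ q) q,
    Ideal.inertiaDeg_tower (R := 𝓞 K) (bel ρ q) q]
  ring

/-- the number of conjugates under the decomposition group -/
theorem card_orb (ρ : L →ₐ[K] M) (q : Ideal (𝓞 M)) [q.IsPrime] :
    Nat.card (MulAction.orbit (MulAction.stabilizer (M ≃ₐ[K] M) q) ρ) =
      (bel ρ q).ramificationIdx (𝓞 K) * (bel ρ q).inertiaDeg (𝓞 K) := by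
  classical
  have h1 := card_dec ρ q
  set D := MulAction.stabilizer (M ≃ₐ[K] M) q with hD
  have h2 : Nat.card (D ⊓ MulAction.stabilizer (M ≃ₐ[K] M) ρ : Subgroup _) =
      Nat.card (MulAction.stabilizer D ρ) := Nat.card_congr
    { toFun := fun x => ⟨⟨x.1, (Subgroup.mem_inf.1 x.2).1⟩, (Subgroup.mem_inf.1 x.2).2⟩
      invFun := fun x => ⟨x.1.1, Subgroup.mem_inf.2 ⟨x.1.2, x.2⟩⟩
      left_inv := fun x => rfl
      right_inv := fun x => rfl }
  haveI : Finite (MulAction.orbit D ρ) := Finite.of_surjective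
    (fun g : D => (⟨g • ρ, g, rfl⟩ : MulAction.orbit D ρ)) (by
      rintro ⟨ψ, g, rfl⟩
      exact ⟨g, rfl⟩)
  haveI := Fintype.ofFinite (MulAction.orbit D ρ)
  haveI := Fintype.ofFinite (MulAction.stabilizer D ρ)
  haveI := Fintype.ofFinite D
  have h3 := MulAction.card_orbit_mul_card_stabilizer_eq_card_group D ρ
  rw [← Nat.card_eq_fintype_card, ← Nat.card_eq_fintype_card, ← Nat.card_eq_fintype_card,
    ← h2] at h3
  have h4 : 0 < Nat.card (D ⊓ MulAction.stabilizer (M ≃ₐ[K] M) ρ : Subgroup _) := Nat.card_pos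
  exact Nat.eq_of_mul_eq_mul_right h4 (h3.trans h1)

/-- every prime over the prime below `q` occurs -/
theorem exists_bel (ρ₀ : L →ₐ[K] M) (q : Ideal (𝓞 M)) [q.IsPrime] (P : Ideal (𝓞 L)) [P.IsPrime]
    (h : P.under (𝓞 K) = q.under (𝓞 K)) : ∃ ρ : L →ₐ[K] M, bel ρ q = P := by
  letI := (ρ₀ : L →+* M).toAlgebra
  haveI htow : IsScalarTower K L M := IsScalarTower.of_algebraMap_eq fun x => (ρ₀.commutes x).symm
  haveI htow2 : IsScalarTower (𝓞 K) (𝓞 L) (𝓞 M) := inferInstance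
  obtain ⟨Q, hQ1, hQ2⟩ : ∃ Q : Ideal (𝓞 M), Q.IsPrime ∧ Q.LiesOver P := by
    obtain ⟨Q⟩ := (inferInstance : Nonempty (P.primesOver (𝓞 M)))
    exact ⟨Q.1, Q.2.1, Q.2.2⟩
  haveI := hQ1
  haveI h1 : q.LiesOver (q.under (𝓞 K)) := ⟨rfl⟩
  haveI h2 : Q.LiesOver (q.under (𝓞 K)) := by
    refine ⟨?_⟩
    rw [← h, hQ2.over, Ideal.under_under]
  haveI : (q.under (𝓞 K)).IsPrime := inferInstance
  obtain ⟨g, hg⟩ := Ideal.exists_smul_eq_of_isGaloisGroup (q.under (𝓞 K)) Q q (M ≃ₐ[K] M)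
  refine ⟨g • ρ₀, ?_⟩
  rw [← hg, bel_smul]
  exact hQ2.over.symm

end

end Pool.Agent.NH29.LE
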