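import Pool.Agent.NH29.LE.Red
import Pool.Agent.NH29.LE.Dec

set_option autoImplicit false
set_option linter.unusedSectionVars false
set_option linter.style.haveILetI false

/-!
Clusters of conjugates
-/

namespace Pool.Agent.NH29.LE

open NumberField Module Polynomial IsDedekindDomain Finset
open Pool.Agent.H420R3 (mi nv TP mem_TP liesOver_of_mem ew)
open scoped Pointwise

section count
variable {K L M : Type} [Field K] [NumberField K] [Field L] [NumberField L] [Field M]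
  [NumberField M] [Algebra K L] [Algebra K M] [IsGalois K M]

/-- the size of the orbit of an embedding under the decomposition group -/
noncomputable def osz (q : Ideal (𝓞 M)) (ρ : L →ₐ[K] M) : ℕ :=
  Nat.card (MulAction.orbit (MulAction.stabilizer (M ≃ₐ[K] M) q) ρ)

lemma bel_orbit (q : Ideal (𝓞 M)) (ρ ψ : L →ₐ[K] M)
    (h : ψ ∈ MulAction.orbit (MulAction.stabilizer (M ≃ₐ[K] M) q) ρ) : bel ψ q = bel ρ q := by
  obtain ⟨g, rfl⟩ := h
  have h1 := bel_smul ρ q (g : M ≃ₐ[K] M)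
  rw [MulAction.mem_stabilizer_iff.1 g.2] at h1
  exact h1

open Classical in
/-- the embeddings with large orbits -/
theorem card_big (ρ₀ : L →ₐ[K] M) (P : Ideal (𝓞 K)) [P.IsMaximal] (q : Ideal (𝓞 M)) [q.IsPrime]
    [hq : q.LiesOver P] (n : ℕ) :
    ∑ Q : P.primesOver (𝓞 L) with n ≤ Q.1.ramificationIdx (𝓞 K) * Q.1.inertiaDeg (𝓞 K),
      Q.1.ramificationIdx (𝓞 K) * Q.1.inertiaDeg (𝓞 K) ≤
    (univ.filter fun ρ : L →ₐ[K] M => n ≤ osz q ρ).card := by
  have hex : ∀ Q : P.primesOver (𝓞 L), ∃ ρ : L →ₐ[K] M, bel ρ q = Q.1 := by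
    intro Q
    haveI := Q.2.1
    refine exists_bel ρ₀ q Q.1 ?_
    rw [← Q.2.2.over, ← hq.over]
  choose r hr using hex
  have hfin : ∀ ρ : L →ₐ[K] M,
      (MulAction.orbit (MulAction.stabilizer (M ≃ₐ[K] M) q) ρ).Finite := fun ρ => Set.toFinite _
  set B : P.primesOver (𝓞 L) → Finset (L →ₐ[K] M) := fun Q => (hfin (r Q)).toFinset with hB
  have hcard : ∀ ρ : L →ₐ[K] M, (hfin ρ).toFinset.card = osz q ρ := by
    intro ρ
    rw [osz, Nat.card_coe_set_eq, Set.ncard_eq_toFinset_card _ (hfin ρ)]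
  have h1 : ∀ Q, (B Q).card = Q.1.ramificationIdx (𝓞 K) * Q.1.inertiaDeg (𝓞 K) := by
    intro Q
    rw [hB]
    simp only
    rw [hcard, osz, card_orb, hr]
  have hmem : ∀ Q, ∀ ψ ∈ B Q, bel ψ q = Q.1 ∧ osz q ψ = (B Q).card := by
    intro Q ψ hψ
    have h2 : ψ ∈ MulAction.orbit (MulAction.stabilizer (M ≃ₐ[K] M) q) (r Q) :=
      (Set.Finite.mem_toFinset _).1 hψ
    refine ⟨(bel_orbit q _ _ h2).trans (hr Q), ?_⟩
    have h3 : MulAction.orbit (MulAction.stabilizer (M ≃ₐ[K] M) q) ψ =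
        MulAction.orbit (MulAction.stabilizer (M ≃ₐ[K] M) q) (r Q) :=
      MulAction.orbit_eq_iff.2 h2
    rw [hB]
    simp only
    rw [hcard, osz, osz, h3]
  have h2 : ∑ Q : P.primesOver (𝓞 L) with n ≤ Q.1.ramificationIdx (𝓞 K) * Q.1.inertiaDeg (𝓞 K),
      Q.1.ramificationIdx (𝓞 K) * Q.1.inertiaDeg (𝓞 K) =
      ((univ.filter fun Q : P.primesOver (𝓞 L) =>
        n ≤ Q.1.ramificationIdx (𝓞 K) * Q.1.inertiaDeg (𝓞 K)).biUnion B).card := by
    rw [Finset.card_biUnion]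
    · exact Finset.sum_congr rfl fun Q _ => (h1 Q).symm
    · intro Q _ Q' _ hne
      change Disjoint (B Q) (B Q')
      rw [Finset.disjoint_left]
      intro ψ hψ hψ'
      apply hne
      apply Subtype.ext
      rw [← (hmem Q ψ hψ).1, ← (hmem Q' ψ hψ').1]
  rw [h2]
  apply card_le_card
  intro ψ hψ
  obtain ⟨Q, hQ, hψQ⟩ := mem_biUnion.1 hψ
  rw [mem_filter]
  refine ⟨mem_univ _, ?_⟩
  rw [(hmem Q ψ hψQ).2, h1 Q]
  exact (mem_filter.1 hQ).2

end count

section classes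
variable {M : Type} [Field M] {v : AbsoluteValue M ℝ} {F : M[X]} {b : M}

lemma Cantor.card_le' (h : Cantor v F b) (s : Finset M)
    (hF : ∀ z ∈ s, v (F.eval z) < 1)
    (hs : ∀ z ∈ s, ∀ z' ∈ s, z ≠ z' → 1 ≤ v (z - z')) : s.card ≤ F.natDegree := by
  classical
  rcases s.eq_empty_or_nonempty with rfl | hne
  · simp
  obtain ⟨z₀, hz₀, hmax⟩ := s.exists_max_image (fun z => v (F.eval z)) hne
  set β := v (F.eval z₀) with hβ
  by_contra hcon
  push Not at hcon
  obtain ⟨t, hts, ht⟩ := Finset.exists_subset_card_eq (show F.natDegree + 1 ≤ s.card from hcon)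
  have h1 := Lagrange.leadingCoeff_eq_sum (s := t) (v := fun z : M => z)
    (fun _ _ _ _ hh => hh) (P := F) (by
    rw [ht, degree_eq_natDegree h.F_ne]
    norm_cast)
  have h2 : v F.leadingCoeff ≤ β := by
    rw [h1]
    refine sum_le_nonarch v h.nonarch _ _ (v.nonneg _) fun i hi => ?_
    rw [map_div₀, map_prod]
    have h3 : 1 ≤ ∏ j ∈ t.erase i, v (i - j) := by
      calc (1 : ℝ) = ∏ _j ∈ t.erase i, (1 : ℝ) := by rw [Finset.prod_const_one]
        _ ≤ ∏ j ∈ t.erase i, v (i - j) := by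
            refine Finset.prod_le_prod (fun _ _ => zero_le_one) fun j hj => ?_
            exact hs i (hts hi) j (hts (Finset.mem_of_mem_erase hj))
              (Finset.ne_of_mem_erase hj).symm
    exact (div_le_self (v.nonneg _) h3).trans (hmax i (hts hi))
  rw [h.lead] at h2
  exact absurd (hF z₀ hz₀) (not_lt.2 h2)

/-- representatives of the roots modulo `v` -/
lemma Cantor.exists_reps (h : Cantor v F b) : ∃ T : Finset M, T.card ≤ F.natDegree ∧
    (∀ t ∈ T, v t ≤ 1 ∧ v (F.eval t) < 1) ∧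
    ∀ y, v y ≤ 1 → v (F.eval y) < 1 → ∃ t ∈ T, v (y - t) < 1 := by
  classical
  let Q : ℕ → Prop := fun m => ∃ T : Finset M, T.card = m ∧
    (∀ t ∈ T, v t ≤ 1 ∧ v (F.eval t) < 1) ∧ ∀ z ∈ T, ∀ z' ∈ T, z ≠ z' → 1 ≤ v (z - z')
  have hQ0 : Q 0 := ⟨∅, rfl, by simp, by simp⟩
  have hQle : ∀ m, Q m → m ≤ F.natDegree := by
    rintro m ⟨T, rfl, h1, h2⟩
    exact h.card_le' T (fun z hz => (h1 z hz).2) h2
  obtain ⟨T, hT, h1, h2⟩ := Nat.findGreatest_spec (P := Q) (Nat.zero_le F.natDegree) hQ0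
  refine ⟨T, h.card_le' T (fun z hz => (h1 z hz).2) h2, h1, ?_⟩
  intro y hy hFy
  by_contra hcon
  push Not at hcon
  have hyT : y ∉ T := by
    intro hmem
    have := hcon y hmem
    rw [sub_self, map_zero] at this
    linarith
  have h3 : Q (T.card + 1) := by
    refine ⟨insert y T, card_insert_of_notMem hyT, ?_, ?_⟩
    · intro t ht
      rcases mem_insert.1 ht with rfl | ht
      · exact ⟨hy, hFy⟩
      · exact h1 t ht
    · intro z hz z' hz' hne
      rcases mem_insert.1 hz with h5 | h5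
      · rcases mem_insert.1 hz' with h6 | h6
        · exact absurd (h5.trans h6.symm) hne
        · rw [h5]
          exact hcon z' h6
      · rcases mem_insert.1 hz' with h6 | h6
        · rw [h6, v.map_sub]
          exact hcon z h5
        · exact h2 z h5 z' h6 hne
  have h4 := Nat.le_findGreatest (hQle _ h3) h3
  omega

end classes

section cluster
variable {K L M : Type} [Field K] [NumberField K] [Field L] [NumberField L] [Field M]
  [NumberField M] [Algebra K L] [Algebra K M] [IsGalois K M]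
variable {P : Ideal (𝓞 K)} [hP : P.IsMaximal]

lemma eval_gal (F : K[X]) (g : M ≃ₐ[K] M) (z : M) :
    (F.map (algebraMap K M)).eval (g z) = g ((F.map (algebraMap K M)).eval z) := by
  rw [eval_map_algebraMap, eval_map_algebraMap]
  exact (aeval_algHom_apply (g : M →ₐ[K] M) z F)

lemma it_gal (F : K[X]) (g : M ≃ₐ[K] M) (n : ℕ) (z : M) :
    it (F.map (algebraMap K M)) n (g z) = g (it (F.map (algebraMap K M)) n z) := by
  induction n generalizing z with
  | zero => rfl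
  | succ n ih => rw [it_succ, it_succ, eval_gal, ih]

open Classical in
/-- **Clusters.** -/
theorem exists_cluster (hP0 : P ≠ ⊥) {F : (𝓞 K)[X]} {b : 𝓞 K} (h : CR P F b)
    {V : FinitePlace M} (hV : V ∈ TP M P) (ρ : L →ₐ[K] M) (n : ℕ) (hn : 1 ≤ n)
    (hρ : n ≤ osz (mi V) ρ) :
    ∃ Cl : Finset (L →ₐ[K] M), (n : ℝ) / (F.natDegree : ℝ) ^ F.natDegree ≤ Cl.card ∧
      ∀ ψ ∈ Cl, ∀ (x : L) (l : ℕ),
        St V.val (F.map (algebraMap (𝓞 K) M)) (algebraMap (𝓞 K) M b) l (ρ x) →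
        St V.val (F.map (algebraMap (𝓞 K) M)) (algebraMap (𝓞 K) M b) l (ψ x) ∧
        Cg V.val (F.map (algebraMap (𝓞 K) M)) (algebraMap (𝓞 K) M b) l (ρ x) (ψ x) := by
  have hC := cantor_of hP0 h hV
  have hinj : Function.Injective (algebraMap (𝓞 K) M) := FaithfulSMul.algebraMap_injective (𝓞 K) M
  set F' := F.map (algebraMap (𝓞 K) M) with hF'
  set b' := algebraMap (𝓞 K) M b with hb'
  have hdeg : F'.natDegree = F.natDegree := natDegree_map_eq_of_injective hinj F
  have hna : IsNonarchimedean V.val := hC.nonarch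
  -- rationality over `K`
  have hFK : F' = (F.map (algebraMap (𝓞 K) K)).map (algebraMap K M) := by
    rw [hF', Polynomial.map_map, ← IsScalarTower.algebraMap_eq]
  have hφK : C b'⁻¹ * F' = (C (b : K)⁻¹ * F.map (algebraMap (𝓞 K) K)).map (algebraMap K M) := by
    rw [Polynomial.map_mul, Polynomial.map_C, map_inv₀ (algebraMap K M), ← hFK]
    rfl
  have hgF : ∀ (g : M ≃ₐ[K] M) (z : M), F'.eval (g z) = g (F'.eval z) := by
    intro g z
    rw [hFK]
    exact eval_gal _ g z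
  have hgit : ∀ (g : M ≃ₐ[K] M) (j : ℕ) (z : M),
      it (C b'⁻¹ * F') j (g z) = g (it (C b'⁻¹ * F') j z) := by
    intro g j z
    rw [hφK]
    exact it_gal _ g j z
  set Z := MulAction.stabilizer (M ≃ₐ[K] M) (mi V) with hZ
  have hgv : ∀ g ∈ Z, ∀ z : M, V.val (g z) = V.val z := fun g hg z =>
    H420R3.v_smul V (MulAction.mem_stabilizer_iff.1 hg) z
  obtain ⟨T, hT1, hT2, hT3⟩ := hC.exists_reps
  rw [hdeg] at hT1
  -- the action on the classes
  have hpi : ∀ g : M ≃ₐ[K] M, ∃ π : T → T, g ∈ Z → ∀ t : T, V.val (g t - π t) < 1 := by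
    intro g
    by_cases hg : g ∈ Z
    · have h1 : ∀ t : T, ∃ t' : T, V.val (g t - t') < 1 := by
        intro t
        have h2 := hT2 t t.2
        obtain ⟨t', ht', h3⟩ := hT3 (g t) (by rw [hgv g hg]; exact h2.1)
          (by rw [hgF, hgv g hg]; exact h2.2)
        exact ⟨⟨t', ht'⟩, h3⟩
      choose π hπ using h1
      exact ⟨π, fun _ => hπ⟩
    · exact ⟨id, fun hg' => absurd hg' hg⟩
  choose π hπ using hpi
  -- an element acting trivially on the classes
  have htriv : ∀ g g' : M ≃ₐ[K] M, g ∈ Z → g' ∈ Z → π g = π g' → ∀ y, V.val y ≤ 1 →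
      V.val (F'.eval y) < 1 → V.val (y - (g⁻¹ * g') y) < 1 := by
    intro g g' hg hg' hgg y hy hFy
    obtain ⟨t, ht, hyt⟩ := hT3 y hy hFy
    have h1 := hπ g hg ⟨t, ht⟩
    have h2 := hπ g' hg' ⟨t, ht⟩
    rw [← hgg] at h2
    have h3 : V.val (g t - g' t) < 1 := by
      have h4 : g t - g' t = (g t - π g ⟨t, ht⟩) + -(g' t - π g ⟨t, ht⟩) := by ring
      rw [h4]
      refine (hna _ _).trans_lt (max_lt h1 ?_)
      rw [V.val.map_neg]
      exact h2
    have hgi : g⁻¹ ∈ Z := Z.inv_mem hg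
    have hinv : ∀ z, g⁻¹ (g z) = z := fun z => by
      rw [← AlgEquiv.mul_apply, inv_mul_cancel]
      rfl
    have h5 : V.val (t - (g⁻¹ * g') t) < 1 := by
      have h6 : t - (g⁻¹ * g') t = g⁻¹ (g t - g' t) := by
        rw [map_sub, hinv]
        rfl
      rw [h6, hgv _ hgi]
      exact h3
    have h7 : V.val ((g⁻¹ * g') (y - t)) < 1 := by
      rw [hgv _ (Z.mul_mem hgi hg')]
      exact hyt
    have h8 : y - (g⁻¹ * g') y = ((y - t) + (t - (g⁻¹ * g') t)) + -((g⁻¹ * g') (y - t)) := by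
      rw [map_sub]
      ring
    rw [h8]
    refine (hna _ _).trans_lt (max_lt ((hna _ _).trans_lt (max_lt hyt h5)) ?_)
    rw [V.val.map_neg]
    exact h7
  -- the stability of the orbits
  have hstab : ∀ g ∈ Z, (∀ y, V.val y ≤ 1 → V.val (F'.eval y) < 1 → V.val (y - g y) < 1) →
      ∀ (x : L) (l : ℕ), St V.val F' b' l (ρ x) →
        St V.val F' b' l ((g • ρ) x) ∧ Cg V.val F' b' l (ρ x) ((g • ρ) x) := by
    intro g hg hy x l hSt
    constructor
    · intro j hj
      obtain ⟨h1, h2⟩ := hSt j hj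
      rw [smul_emb, hgit, hgF, hgv g hg, hgv g hg]
      exact ⟨h1, h2⟩
    · intro j hj
      obtain ⟨h1, h2⟩ := hSt j hj
      rw [smul_emb, hgit]
      exact hy _ h1 (h2.trans_lt hC.b1)
  -- pigeonhole
  have hfin : (MulAction.orbit Z ρ).Finite := Set.toFinite _
  set O := hfin.toFinset with hO
  have hOcard : n ≤ O.card := by
    refine hρ.trans (le_of_eq ?_)
    rw [osz, Nat.card_coe_set_eq, Set.ncard_eq_toFinset_card _ hfin]
  have hOmem : ∀ ψ : L →ₐ[K] M, ∃ g : M ≃ₐ[K] M, ψ ∈ O → g ∈ Z ∧ g • ρ = ψ := by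
    intro ψ
    by_cases hψ : ψ ∈ O
    · obtain ⟨g, hg⟩ := (Set.Finite.mem_toFinset _).1 hψ
      exact ⟨g, fun _ => ⟨g.2, hg⟩⟩
    · exact ⟨1, fun h' => absurd h' hψ⟩
  choose τ hτ using hOmem
  have hdpos : (0 : ℝ) < (F.natDegree : ℝ) ^ F.natDegree := by
    have : (0 : ℝ) < F.natDegree := by
      have := h.deg
      exact_mod_cast (by omega : 0 < F.natDegree)
    positivity
  have hTT : ((univ : Finset (T → T)).card : ℝ) ≤ (F.natDegree : ℝ) ^ F.natDegree := by
    rw [card_univ, Fintype.card_fun, Fintype.card_coe]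
    have h1 : T.card ^ T.card ≤ F.natDegree ^ F.natDegree :=
      (Nat.pow_le_pow_left hT1 _).trans (Nat.pow_le_pow_right (by have := h.deg; omega) hT1)
    exact_mod_cast h1
  obtain ⟨p, _, hp⟩ := Finset.exists_le_card_fiber_of_nsmul_le_card_of_maps_to (s := O)
    (t := (univ : Finset (T → T))) (f := fun ψ => π (τ ψ))
    (b := (n : ℝ) / (F.natDegree : ℝ) ^ F.natDegree)
    (fun _ _ => mem_univ _) ⟨id, mem_univ _⟩ (by
      rw [nsmul_eq_mul]
      have h1 : (0 : ℝ) ≤ (n : ℝ) / (F.natDegree : ℝ) ^ F.natDegree := by positivity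
      have h2 := mul_le_mul_of_nonneg_right hTT h1
      refine h2.trans ?_
      rw [mul_div_cancel₀ _ hdpos.ne']
      exact_mod_cast hOcard)
  have hne : (O.filter fun ψ => π (τ ψ) = p).Nonempty := by
    rw [← Finset.card_pos]
    have h1 : (0 : ℝ) < (n : ℝ) / (F.natDegree : ℝ) ^ F.natDegree := by
      have : (0 : ℝ) < n := by exact_mod_cast (by omega : 0 < n)
      positivity
    exact_mod_cast h1.trans_le hp
  obtain ⟨ψ₀, hψ₀⟩ := hne
  refine ⟨(O.filter fun ψ => π (τ ψ) = p).image (fun ψ => (τ ψ₀)⁻¹ • ψ), ?_, ?_⟩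
  · rw [Finset.card_image_of_injective _ (MulAction.injective _)]
    exact hp
  · intro ψ' hψ'
    obtain ⟨ψ, hψ, rfl⟩ := mem_image.1 hψ'
    obtain ⟨h1, h2⟩ := mem_filter.1 hψ
    obtain ⟨h3, h4⟩ := mem_filter.1 hψ₀
    obtain ⟨h5, h6⟩ := hτ ψ h1
    obtain ⟨h7, _⟩ := hτ ψ₀ h3
    have h8 : (τ ψ₀)⁻¹ • ψ = ((τ ψ₀)⁻¹ * τ ψ) • ρ := by
      rw [mul_smul, h6]
    rw [h8]
    exact hstab _ (Z.mul_mem (Z.inv_mem h7) h5)
      (htriv (τ ψ₀) (τ ψ) h7 h5 (h4.trans h2.symm))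

end cluster

end Pool.Agent.NH29.LE
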