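import Pool.Agent.NH29.LE.A3

set_option autoImplicit false

namespace Pool.Agent.NH29.LE

open Polynomial Real Finset NumberField Height Module

section loc
variable {M : Type} [Field M]

/-- the constant of the polynomial `φ` at the absolute value `v` -/
noncomputable def cc (v : AbsoluteValue M ℝ) (φ : M[X]) : ℝ :=
  posLog (v φ.leadingCoeff⁻¹) + ∑ i ∈ range φ.natDegree, posLog (v (φ.coeff i / φ.leadingCoeff))

lemma cc_nonneg (v : AbsoluteValue M ℝ) (φ : M[X]) : 0 ≤ cc v φ :=
  add_nonneg posLog_nonneg (Finset.sum_nonneg fun _ _ => posLog_nonneg)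

lemma growth (v : AbsoluteValue M ℝ) (φ : M[X]) (hd : 2 ≤ φ.natDegree) (k : ℝ) (hk : 0 ≤ k)
    (hk' : IsNonarchimedean v ∨ Real.log (φ.natDegree + 1) ≤ k) (z : M) :
    posLog (v z) ≤ posLog (v (φ.eval z)) / φ.natDegree + (cc v φ + k) := by
  classical
  have h0 : φ ≠ 0 := by
    rintro rfl
    simp at hd
  have hl : φ.leadingCoeff ≠ 0 := leadingCoeff_ne_zero.2 h0
  have hd' : (2 : ℝ) ≤ φ.natDegree := by exact_mod_cast hd
  have hcc := cc_nonneg v φ
  have hp : 0 ≤ posLog (v (φ.eval z)) := posLog_nonneg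
  have hq : 0 ≤ posLog (v (φ.eval z)) / φ.natDegree := div_nonneg hp (by linarith)
  rcases le_or_gt (v z) 1 with hz | hz
  · rw [(posLog_eq_zero_iff _).2 (by rw [abs_of_nonneg (v.nonneg _)]; exact hz)]
    linarith
  have hz0 : 0 < v z := zero_lt_one.trans hz
  by_contra hcon
  push Not at hcon
  have hpz : posLog (v z) = Real.log (v z) :=
    posLog_eq_log (by rw [abs_of_nonneg (v.nonneg _)]; exact hz.le)
  rw [hpz] at hcon
  obtain ⟨s, hs⟩ : ∃ s, s = Real.log (v z) -
    (posLog (v (φ.eval z)) / φ.natDegree + (cc v φ + k)) := ⟨_, rfl⟩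
  have hs0 : 0 < s := by linarith
  -- the equation
  have h1 : z ^ φ.natDegree = φ.eval z * φ.leadingCoeff⁻¹ +
      ∑ i ∈ range φ.natDegree, -(φ.coeff i / φ.leadingCoeff * z ^ i) := by
    have h2 : φ.eval z = (∑ i ∈ range φ.natDegree, φ.coeff i * z ^ i) +
        φ.leadingCoeff * z ^ φ.natDegree := by
      rw [eval_eq_sum_range, Finset.sum_range_succ]
      rfl
    rw [h2, Finset.sum_neg_distrib]
    have h3 : ∑ i ∈ range φ.natDegree, φ.coeff i / φ.leadingCoeff * z ^ i =
        (∑ i ∈ range φ.natDegree, φ.coeff i * z ^ i) * φ.leadingCoeff⁻¹ := by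
      rw [Finset.sum_mul]
      exact Finset.sum_congr rfl fun i _ => by ring
    rw [h3]
    field_simp
    ring
  -- the bounds for the terms
  set y := Real.log (v z) with hy
  have hy0 : 0 < y := log_pos hz
  have hvz : v z = exp y := (exp_log hz0).symm
  set B := exp (φ.natDegree * y - s - k) with hB
  have ht1 : v (φ.eval z * φ.leadingCoeff⁻¹) ≤ B := by
    rw [map_mul]
    have h2 : posLog (v φ.leadingCoeff⁻¹) ≤ cc v φ :=
      le_add_of_nonneg_right (Finset.sum_nonneg fun _ _ => posLog_nonneg)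
    refine (mul_le_mul (le_exp_posLog _) (le_exp_posLog _) (v.nonneg _) (exp_pos _).le).trans ?_
    rw [← exp_add, hB, exp_le_exp]
    have h3 : posLog (v (φ.eval z)) / φ.natDegree * φ.natDegree = posLog (v (φ.eval z)) := by
      field_simp
    have h4 : y = s + (posLog (v (φ.eval z)) / φ.natDegree + (cc v φ + k)) := by linarith
    have h5 : φ.natDegree * y = φ.natDegree * s + posLog (v (φ.eval z)) +
        φ.natDegree * (cc v φ + k) := by
      rw [h4]
      linear_combination h3
    rw [h5]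
    have h6 : s ≤ φ.natDegree * s := by nlinarith
    have h7 : cc v φ + k ≤ φ.natDegree * (cc v φ + k) := by nlinarith
    linarith
  have ht2 : ∀ i ∈ range φ.natDegree,
      v (-(φ.coeff i / φ.leadingCoeff * z ^ i)) ≤ B := by
    intro i hi
    rw [v.map_neg, map_mul, map_pow, hvz, ← exp_nat_mul]
    have h2 : posLog (v (φ.coeff i / φ.leadingCoeff)) ≤ cc v φ := by
      refine le_add_of_nonneg_of_le posLog_nonneg ?_
      exact Finset.single_le_sum (f := fun i => posLog (v (φ.coeff i / φ.leadingCoeff)))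
        (fun _ _ => posLog_nonneg) hi
    refine (mul_le_mul_of_nonneg_right (le_exp_posLog _) (exp_pos _).le).trans ?_
    rw [← exp_add, hB, exp_le_exp]
    have h3 : ((i : ℕ) : ℝ) + 1 ≤ φ.natDegree := by
      have : i + 1 ≤ φ.natDegree := mem_range.1 hi
      exact_mod_cast this
    have h4 : (i : ℝ) * y + y ≤ φ.natDegree * y := by nlinarith
    linarith
  have hfin : v (z ^ φ.natDegree) < v (z ^ φ.natDegree) := by
    have h5 : v (z ^ φ.natDegree) = exp (φ.natDegree * y) := by
      rw [map_pow, hvz, ← exp_nat_mul]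
    conv_rhs => rw [h5]
    rcases hk' with hv | hk'
    · have h6 : v (z ^ φ.natDegree) ≤ B := by
        rw [h1]
        exact (hv _ _).trans (max_le ht1 (sum_le_nonarch v hv _ _ (exp_pos _).le ht2))
      refine h6.trans_lt (exp_lt_exp.2 ?_)
      linarith
    · have h6 : v (z ^ φ.natDegree) ≤ B + φ.natDegree * B := by
        rw [h1]
        refine (v.add_le _ _).trans (add_le_add ht1 ?_)
        refine (v.sum_le _ _).trans ((Finset.sum_le_sum ht2).trans (le_of_eq ?_))
        rw [sum_const, card_range, nsmul_eq_mul]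
      have h7 : B + φ.natDegree * B = (φ.natDegree + 1) * B := by ring
      rw [h7] at h6
      refine h6.trans_lt ?_
      have h8 : ((φ.natDegree : ℝ) + 1) ≤ exp k := by
        rw [← log_le_iff_le_exp (by positivity)]
        exact hk'
      calc ((φ.natDegree : ℝ) + 1) * B ≤ exp k * B :=
            mul_le_mul_of_nonneg_right h8 (exp_pos _).le
        _ = exp (φ.natDegree * y - s) := by
            rw [hB, ← exp_add]
            congr 1
            ring
        _ < exp (φ.natDegree * y) := exp_lt_exp.2 (by linarith)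
  exact lt_irrefl _ hfin

end loc

section places
variable {M : Type} [Field M] [NumberField M]

lemma fin_nonarch (V : FinitePlace M) : IsNonarchimedean V.val :=
  fun x y => FinitePlace.add_le V x y

lemma exists_T (S : Finset (FinitePlace M)) (Z : Finset M) :
    ∃ T : Finset (FinitePlace M), S ⊆ T ∧
      (∀ z ∈ Z, z ≠ 0 → ∑ w : InfinitePlace M, (w.mult : ℝ) * Real.log (w.val z) +
        ∑ V ∈ T, Real.log (V.val z) = 0) ∧
      (∀ z ∈ Z, logHeight₁ z = ∑ w : InfinitePlace M, (w.mult : ℝ) * posLog (w.val z) +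
        ∑ V ∈ T, posLog (V.val z)) := by
  classical
  have hfin : (⋃ z ∈ Z, {V : FinitePlace M | z ≠ 0 ∧ V.val z ≠ 1}).Finite := by
    refine Set.Finite.biUnion Z.finite_toSet fun z _ => ?_
    by_cases hz : z = 0
    · refine Set.finite_empty.subset fun V hV => ?_
      exact absurd hz hV.1
    · exact (FinitePlace.hasFiniteMulSupport hz).subset fun V hV => hV.2
  refine ⟨S ∪ hfin.toFinset, subset_union_left, ?_, ?_⟩
  · intro z hz hz0
    have h1 := prod_abs_eq_one hz0
    have hpos : ∀ V : FinitePlace M, 0 < V z := fun V => V.val.pos hz0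
    have hposi : ∀ w : InfinitePlace M, 0 < w z := fun w => w.val.pos hz0
    have h2 := congrArg Real.log h1
    have h3 : ∏ᶠ V : FinitePlace M, V z = ∏ V ∈ S ∪ hfin.toFinset, V z := by
      refine finprod_eq_prod_of_mulSupport_subset _ fun V hV => ?_
      rw [Finset.mem_coe, Finset.mem_union]
      right
      rw [Set.Finite.mem_toFinset]
      exact Set.mem_biUnion hz ⟨hz0, hV⟩
    rw [h3, Real.log_one, Real.log_mul, Real.log_prod, Real.log_prod] at h2
    · rw [← h2]
      congr 1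
      refine Finset.sum_congr rfl fun w _ => ?_
      rw [Real.log_pow]
      rfl
    · exact fun V _ => (hpos V).ne'
    · exact fun w _ => (pow_pos (hposi w) _).ne'
    · exact (Finset.prod_pos fun w _ => pow_pos (hposi w) _).ne'
    · exact (Finset.prod_pos fun V _ => hpos V).ne'
  · intro z hz
    rw [NumberField.logHeight₁_eq]
    have h3 : ∑ᶠ V : FinitePlace M, posLog (V z) = ∑ V ∈ S ∪ hfin.toFinset, posLog (V z) := by
      refine finsum_eq_sum_of_support_subset _ fun V hV => ?_
      rw [Finset.mem_coe, Finset.mem_union]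
      right
      rw [Set.Finite.mem_toFinset]
      refine Set.mem_biUnion hz ⟨?_, ?_⟩
      · rintro rfl
        apply hV
        simp
      · intro hcon
        apply hV
        have : V z = 1 := hcon
        simp [this]
    rw [h3]
    rfl

end places

section global
variable {M : Type} [Field M] [NumberField M]

/-- the local terms -/
noncomputable def gl (v : AbsoluteValue M ℝ) (φ : M[X]) {D : ℕ} (x : Fin D → M) : ℝ :=
  2 * Real.log (v (Matrix.vandermonde x).det) +
    2 * (∑ j ∈ range D, ex φ.natDegree j : ℕ) * Real.log (v φ.leadingCoeff)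

theorem glob (F : M[X]) (b : M) (hd : 2 ≤ F.natDegree) (hb : b ≠ 0)
    (S : Finset (FinitePlace M)) (hS : ∀ V ∈ S, Cantor V.val F b)
    (D n k L : ℕ) (hD : 1 ≤ D) (hDn : D ≤ n) (hk : k ≤ n) (hL : L ≤ k) (x : Fin D → M)
    (hx : Function.Injective x) (c β : ℝ) (hc : 1 ≤ c) (A : FinitePlace M → Finset (Fin D))
    (Cl : FinitePlace M → Fin D → Finset (Fin D))
    (hβ : ∀ V ∈ S, β * D ≤ (A V).card) (hA : ∀ V ∈ S, ∀ i ∈ A V, c ≤ (Cl V i).card)
    (hCl : ∀ V ∈ S, ∀ i, ∀ i' ∈ Cl V i, ∀ l, St V.val F b l (x i) →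
      St V.val F b l (x i') ∧ Cg V.val F b l (x i) (x i'))
    (H : ℝ) (hH : ∀ i, logHeight₁ (it (C b⁻¹ * F) n (x i)) ≤ H) :
    0 ≤ (2 * ((D : ℝ) - 1) + ((F.natDegree : ℝ) - 1) *
          (4 * D + 2 * (c - 1) * (F.natDegree : ℝ) ^ k)) *
          (D * (H / (F.natDegree : ℝ) ^ n)) +
        4 * (∑ j ∈ Finset.range D, ds F.natDegree j : ℕ) *
          (logHeight₁ ((C b⁻¹ * F).leadingCoeff⁻¹) + ∑ i ∈ range F.natDegree,
            logHeight₁ ((C b⁻¹ * F).coeff i / (C b⁻¹ * F).leadingCoeff)) +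
        finrank ℚ M * (4 * (∑ j ∈ Finset.range D, ds F.natDegree j : ℕ) *
          Real.log (F.natDegree + 1) + 2 * Real.log D.factorial) +
        (∑ V ∈ S, -Real.log (V.val b)) *
          ((D : ℝ) ^ 2 / (F.natDegree : ℝ) ^ L + L * D +
          (4 * D + 2 * (c - 1) * (F.natDegree : ℝ) ^ k) * D / (F.natDegree : ℝ) ^ n -
          (c - 1) * (β * D) * ((k : ℝ) - L)) := by
  classical
  obtain ⟨φ, hφ⟩ : ∃ φ : M[X], φ = C b⁻¹ * F := ⟨_, rfl⟩
  have hφd : φ.natDegree = F.natDegree := by
    rw [hφ, natDegree_C_mul (inv_ne_zero hb)]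
  have hφ2 : 2 ≤ φ.natDegree := hφd ▸ hd
  have h0 : φ ≠ 0 := by
    rintro h
    rw [h] at hφ2
    simp at hφ2
  have hl : φ.leadingCoeff ≠ 0 := leadingCoeff_ne_zero.2 h0
  have hV : (Matrix.vandermonde x).det ≠ 0 := Matrix.det_vandermonde_ne_zero_iff.2 hx
  rw [← hφ] at hH ⊢
  set d : ℝ := (F.natDegree : ℝ) with hdd
  have hd2 : 2 ≤ d := by
    rw [hdd]
    exact_mod_cast hd
  set s : ℝ := ((∑ j ∈ range D, ds F.natDegree j : ℕ) : ℝ) with hs
  have hs0 : 0 ≤ s := Nat.cast_nonneg _
  set E : ℝ := ((∑ j ∈ range D, ex F.natDegree j : ℕ) : ℝ) with hE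
  set R := 2 * ((D : ℝ) - 1) + (d - 1) * (4 * D + 2 * (c - 1) * d ^ k) with hR
  set Y := (D : ℝ) ^ 2 / d ^ L + L * D + (4 * D + 2 * (c - 1) * d ^ k) * D / d ^ n -
          (c - 1) * (β * D) * ((k : ℝ) - L) with hY
  have hD' : (1 : ℝ) ≤ D := by exact_mod_cast hD
  have hR0 : 2 * ((D : ℝ) - 1) ≤ R := by
    have h1 : 0 ≤ (d - 1) * (4 * D + 2 * (c - 1) * d ^ k) := by
      have h2 : 0 ≤ c - 1 := by linarith
      have h3 : 0 ≤ d - 1 := by linarith
      positivity
    linarith
  have hR1 : 0 ≤ R := by linarith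
  set Z : Finset M := {(Matrix.vandermonde x).det, φ.leadingCoeff, φ.leadingCoeff⁻¹} ∪
    (range F.natDegree).image (fun i => φ.coeff i / φ.leadingCoeff) ∪
    univ.image (fun i => it φ n (x i)) with hZ
  obtain ⟨T, hST, hT1, hT2⟩ := exists_T S Z
  have hZ1 : (Matrix.vandermonde x).det ∈ Z := by simp [hZ]
  have hZ2 : φ.leadingCoeff ∈ Z := by simp [hZ]
  have hZ3 : φ.leadingCoeff⁻¹ ∈ Z := by simp [hZ]
  have hZ4 : ∀ i ∈ range F.natDegree, φ.coeff i / φ.leadingCoeff ∈ Z := by
    intro i hi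
    rw [hZ]
    exact mem_union_left _ (mem_union_right _ (mem_image_of_mem _ hi))
  have hZ5 : ∀ i, it φ n (x i) ∈ Z := by
    intro i
    rw [hZ]
    exact mem_union_right _ (mem_image_of_mem _ (mem_univ i))
  -- the local inequalities
  have hgen : ∀ (v : AbsoluteValue M ℝ) (κ : ℝ), 0 ≤ κ →
      (IsNonarchimedean v ∨ Real.log (φ.natDegree + 1) ≤ κ) →
      gl v φ x ≤ 2 * ((D : ℝ) - 1) * (∑ i, gr v φ n (x i)) + 4 * s * (cc v φ + κ) +
        2 * (if IsNonarchimedean v then 0 else Real.log D.factorial) := by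
    intro v κ hκ hκ'
    have h1 := st_B M v φ hφ2 (cc v φ + κ) (add_nonneg (cc_nonneg v φ) hκ)
      (fun z => growth v φ hφ2 κ hκ hκ' z) D n hDn x hx
    rw [hφd] at h1
    unfold gl
    rw [hφd]
    linarith
  have harch : ∀ w : InfinitePlace M, gl w.val φ x ≤ R * (∑ i, gr w.val φ n (x i)) +
      4 * s * cc w.val φ + (4 * s * Real.log (d + 1) + 2 * Real.log D.factorial) := by
    intro w
    have hlogd : 0 ≤ Real.log (d + 1) := log_nonneg (by linarith)
    have h1 := hgen w.val (Real.log (d + 1)) hlogd (Or.inr (by rw [hφd]))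
    have h2 : (if IsNonarchimedean w.val then 0 else Real.log D.factorial) ≤
        Real.log D.factorial := by
      split_ifs
      · exact log_nonneg (by exact_mod_cast D.factorial_pos)
      · exact le_rfl
    have h3 : 0 ≤ ∑ i, gr w.val φ n (x i) := Finset.sum_nonneg fun i _ => gr_nonneg _ _ _ _
    have h4 := mul_le_mul_of_nonneg_right hR0 h3
    linarith
  have hfin : ∀ V : FinitePlace M, gl V.val φ x ≤ R * (∑ i, gr V.val φ n (x i)) +
      4 * s * cc V.val φ + (if V ∈ S then (-Real.log (V.val b)) * Y else 0) := by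
    intro V
    have h3 : 0 ≤ ∑ i, gr V.val φ n (x i) := Finset.sum_nonneg fun i _ => gr_nonneg _ _ _ _
    by_cases hVS : V ∈ S
    · rw [if_pos hVS]
      have h1 := st_A3 M V.val F b (hS V hVS) D n k L hD hk hL x hx c hc (A V) (Cl V)
        (hA V hVS) (hCl V hVS)
      rw [← hφ] at h1
      have h2 : gl V.val φ x ≤ R * (∑ i, gr V.val φ n (x i)) +
          (-Real.log (V.val b)) * ((D : ℝ) ^ 2 / d ^ L + L * D +
          (4 * D + 2 * (c - 1) * d ^ k) * D / d ^ n - (c - 1) * (A V).card * ((k : ℝ) - L)) := by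
        unfold gl
        rw [hφd]
        exact h1
      have h4 := (hS V hVS).lam_pos
      have h5 : (D : ℝ) ^ 2 / d ^ L + L * D +
          (4 * D + 2 * (c - 1) * d ^ k) * D / d ^ n - (c - 1) * (A V).card * ((k : ℝ) - L) ≤ Y := by
        have h6 : (c - 1) * (β * D) * ((k : ℝ) - L) ≤ (c - 1) * (A V).card * ((k : ℝ) - L) := by
          have h7 : (0 : ℝ) ≤ (k : ℝ) - L := by
            have : (L : ℝ) ≤ k := by exact_mod_cast hL
            linarith
          exact mul_le_mul_of_nonneg_right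
            (mul_le_mul_of_nonneg_left (hβ V hVS) (by linarith)) h7
        rw [hY]
        linarith
      have h6 := mul_le_mul_of_nonneg_left h5 h4.le
      have h7 : 0 ≤ 4 * s * cc V.val φ := mul_nonneg (by positivity) (cc_nonneg _ _)
      linarith
    · rw [if_neg hVS]
      have h1 := hgen V.val 0 le_rfl (Or.inl (fin_nonarch V))
      rw [if_pos (fin_nonarch V)] at h1
      have h4 := mul_le_mul_of_nonneg_right hR0 h3
      linarith
  -- the sum
  have hsum0 : ∑ w : InfinitePlace M, (w.mult : ℝ) * gl w.val φ x +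
      ∑ V ∈ T, gl V.val φ x = 0 := by
    have h1 := hT1 _ hZ1 hV
    have h2 := hT1 _ hZ2 hl
    have h3 : ∑ w : InfinitePlace M, (w.mult : ℝ) * gl w.val φ x =
        2 * ∑ w : InfinitePlace M, (w.mult : ℝ) * Real.log (w.val (Matrix.vandermonde x).det) +
        2 * E * ∑ w : InfinitePlace M, (w.mult : ℝ) * Real.log (w.val φ.leadingCoeff) := by
      rw [Finset.mul_sum, Finset.mul_sum, ← Finset.sum_add_distrib]
      refine Finset.sum_congr rfl fun w _ => ?_
      unfold gl
      rw [hφd]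
      ring
    have h4 : ∑ V ∈ T, gl V.val φ x =
        2 * ∑ V ∈ T, Real.log (V.val (Matrix.vandermonde x).det) +
        2 * E * ∑ V ∈ T, Real.log (V.val φ.leadingCoeff) := by
      rw [Finset.mul_sum, Finset.mul_sum, ← Finset.sum_add_distrib]
      refine Finset.sum_congr rfl fun w _ => ?_
      unfold gl
      rw [hφd]
    rw [h3, h4]
    linear_combination 2 * h1 + 2 * E * h2
  have hgr : ∑ w : InfinitePlace M, (w.mult : ℝ) * (∑ i, gr w.val φ n (x i)) +
      ∑ V ∈ T, (∑ i, gr V.val φ n (x i)) = ∑ i, logHeight₁ (it φ n (x i)) / d ^ n := by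
    have h1 : ∑ w : InfinitePlace M, (w.mult : ℝ) * (∑ i, gr w.val φ n (x i)) =
        ∑ i, ∑ w : InfinitePlace M, (w.mult : ℝ) * gr w.val φ n (x i) := by
      rw [Finset.sum_comm]
      exact Finset.sum_congr rfl fun w _ => by rw [Finset.mul_sum]
    rw [h1, Finset.sum_comm (s := T), ← Finset.sum_add_distrib]
    refine Finset.sum_congr rfl fun i _ => ?_
    rw [hT2 _ (hZ5 i), add_div, Finset.sum_div, Finset.sum_div]
    congr 1
    · refine Finset.sum_congr rfl fun w _ => ?_
      unfold gr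
      rw [hφd, mul_div_assoc]
    · refine Finset.sum_congr rfl fun w _ => ?_
      unfold gr
      rw [hφd]
  have hcc : ∑ w : InfinitePlace M, (w.mult : ℝ) * cc w.val φ + ∑ V ∈ T, cc V.val φ =
      logHeight₁ (φ.leadingCoeff⁻¹) + ∑ i ∈ range F.natDegree,
            logHeight₁ (φ.coeff i / φ.leadingCoeff) := by
    have h1 : ∑ w : InfinitePlace M, (w.mult : ℝ) * cc w.val φ =
        ∑ w : InfinitePlace M, (w.mult : ℝ) * posLog (w.val φ.leadingCoeff⁻¹) +
        ∑ i ∈ range F.natDegree, ∑ w : InfinitePlace M, (w.mult : ℝ) *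
          posLog (w.val (φ.coeff i / φ.leadingCoeff)) := by
      rw [Finset.sum_comm, ← Finset.sum_add_distrib]
      refine Finset.sum_congr rfl fun w _ => ?_
      unfold cc
      rw [hφd, mul_add, Finset.mul_sum]
    have h2 : ∑ V ∈ T, cc V.val φ =
        ∑ V ∈ T, posLog (V.val φ.leadingCoeff⁻¹) +
        ∑ i ∈ range F.natDegree, ∑ V ∈ T,
          posLog (V.val (φ.coeff i / φ.leadingCoeff)) := by
      rw [Finset.sum_comm (s := range F.natDegree), ← Finset.sum_add_distrib]
      refine Finset.sum_congr rfl fun w _ => ?_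
      unfold cc
      rw [hφd]
    rw [h1, h2, hT2 _ hZ3]
    have h3 : ∑ i ∈ range F.natDegree, logHeight₁ (φ.coeff i / φ.leadingCoeff) =
        ∑ i ∈ range F.natDegree, ∑ w : InfinitePlace M, (w.mult : ℝ) *
          posLog (w.val (φ.coeff i / φ.leadingCoeff)) +
        ∑ i ∈ range F.natDegree, ∑ V ∈ T,
          posLog (V.val (φ.coeff i / φ.leadingCoeff)) := by
      rw [← Finset.sum_add_distrib]
      exact Finset.sum_congr rfl fun i hi => hT2 _ (hZ4 i hi)
    rw [h3]
    ring
  have hdeg : (finrank ℚ M : ℝ) = ∑ w : InfinitePlace M, (w.mult : ℝ) := by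
    exact_mod_cast (InfinitePlace.sum_mult_eq (K := M)).symm
  have hSsum : ∑ V ∈ T, (if V ∈ S then (-Real.log (V.val b)) * Y else 0) =
      (∑ V ∈ S, -Real.log (V.val b)) * Y := by
    rw [← Finset.sum_filter, Finset.filter_mem_eq_inter, Finset.inter_eq_right.2 hST,
      Finset.sum_mul]
  have htotal : ∑ w : InfinitePlace M, (w.mult : ℝ) * gl w.val φ x + ∑ V ∈ T, gl V.val φ x ≤
      R * (∑ i, logHeight₁ (it φ n (x i)) / d ^ n) +
      4 * s * (logHeight₁ (φ.leadingCoeff⁻¹) + ∑ i ∈ range F.natDegree,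
            logHeight₁ (φ.coeff i / φ.leadingCoeff)) +
      finrank ℚ M * (4 * s * Real.log (d + 1) + 2 * Real.log D.factorial) +
      (∑ V ∈ S, -Real.log (V.val b)) * Y := by
    have h1 : ∑ w : InfinitePlace M, (w.mult : ℝ) * gl w.val φ x ≤
        ∑ w : InfinitePlace M, (w.mult : ℝ) * (R * (∑ i, gr w.val φ n (x i)) +
      4 * s * cc w.val φ + (4 * s * Real.log (d + 1) + 2 * Real.log D.factorial)) :=
      Finset.sum_le_sum fun w _ => mul_le_mul_of_nonneg_left (harch w) (Nat.cast_nonneg _)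
    have h2 : ∑ V ∈ T, gl V.val φ x ≤ ∑ V ∈ T, (R * (∑ i, gr V.val φ n (x i)) +
      4 * s * cc V.val φ + (if V ∈ S then (-Real.log (V.val b)) * Y else 0)) :=
      Finset.sum_le_sum fun V _ => hfin V
    refine (add_le_add h1 h2).trans (le_of_eq ?_)
    rw [← hgr, ← hcc, hdeg, ← hSsum]
    have e1 : ∑ w : InfinitePlace M, (w.mult : ℝ) * (R * (∑ i, gr w.val φ n (x i)) +
      4 * s * cc w.val φ + (4 * s * Real.log (d + 1) + 2 * Real.log D.factorial)) =
      R * (∑ w : InfinitePlace M, (w.mult : ℝ) * ∑ i, gr w.val φ n (x i)) +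
      4 * s * (∑ w : InfinitePlace M, (w.mult : ℝ) * cc w.val φ) +
      (∑ w : InfinitePlace M, (w.mult : ℝ)) *
        (4 * s * Real.log (d + 1) + 2 * Real.log D.factorial) := by
      rw [Finset.mul_sum, Finset.mul_sum, Finset.sum_mul, ← Finset.sum_add_distrib,
        ← Finset.sum_add_distrib]
      exact Finset.sum_congr rfl fun w _ => by ring
    have e2 : ∑ V ∈ T, (R * (∑ i, gr V.val φ n (x i)) +
      4 * s * cc V.val φ + (if V ∈ S then (-Real.log (V.val b)) * Y else 0)) =
      R * (∑ V ∈ T, ∑ i, gr V.val φ n (x i)) + 4 * s * (∑ V ∈ T, cc V.val φ) +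
      ∑ V ∈ T, (if V ∈ S then (-Real.log (V.val b)) * Y else 0) := by
      rw [Finset.mul_sum, Finset.mul_sum, ← Finset.sum_add_distrib, ← Finset.sum_add_distrib]
    rw [e1, e2]
    ring
  rw [hsum0] at htotal
  refine htotal.trans ?_
  have hHs : ∑ i, logHeight₁ (it φ n (x i)) / d ^ n ≤ D * (H / d ^ n) := by
    have h1 : ∑ i, logHeight₁ (it φ n (x i)) / d ^ n ≤ ∑ _i : Fin D, H / d ^ n :=
      Finset.sum_le_sum fun i _ => div_le_div_of_nonneg_right (hH i) (by positivity)
    rw [sum_const, card_univ, Fintype.card_fin, nsmul_eq_mul] at h1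
    exact h1
  have h9 := mul_le_mul_of_nonneg_left hHs hR1
  linarith

end global

end Pool.Agent.NH29.LE
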