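import Pool.Agent.NH29.LE.B

set_option autoImplicit false

/-!
The choice of the parameters
-/

namespace Pool.Agent.NH29.LE

open Real Finset

lemma ds_le {d : ℕ} (hd : 2 ≤ d) (j : ℕ) :
    (ds d j : ℝ) ≤ ((d : ℝ) - 1) / Real.log (4 / 3) * Real.log (j + 1) := by
  have hl : 0 < Real.log (4 / 3) := log_pos (by norm_num)
  have hd' : (2 : ℝ) ≤ d := by exact_mod_cast hd
  have hA : 0 ≤ ((d : ℝ) - 1) / Real.log (4 / 3) := div_nonneg (by linarith) hl.le
  induction j using Nat.strong_induction_on with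
  | _ j ih =>
    rcases Nat.eq_zero_or_pos j with rfl | hj
    · rw [ds_zero]
      simp
    · have hlt : j / d < j := Nat.div_lt_self hj hd
      have h1 := ih _ hlt
      rw [ds_pos hd j hj]
      push_cast
      have h2 : ((j % d : ℕ) : ℝ) ≤ d - 1 := by
        have : j % d + 1 ≤ d := Nat.mod_lt j (by omega)
        have h3 : ((j % d + 1 : ℕ) : ℝ) ≤ d := by exact_mod_cast this
        push_cast at h3
        linarith
      have h3 : Real.log (4 / 3) ≤ Real.log (j + 1) - Real.log (((j / d : ℕ) : ℝ) + 1) := by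
        rw [← Real.log_div (by positivity) (by positivity)]
        apply Real.log_le_log (by norm_num)
        rw [le_div_iff₀ (by positivity)]
        have h4 : (j / d) * 2 ≤ j := by
          have h5 := Nat.div_mul_le_self j d
          have h6 : (j / d) * 2 ≤ (j / d) * d := Nat.mul_le_mul_left _ hd
          omega
        have h5 : (((j / d) * 2 : ℕ) : ℝ) ≤ j := by exact_mod_cast h4
        push_cast at h5
        have h6 : (1 : ℝ) ≤ j := by exact_mod_cast hj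
        linarith
      have h4 : (d : ℝ) - 1 ≤ ((d : ℝ) - 1) / Real.log (4 / 3) *
          (Real.log (j + 1) - Real.log (((j / d : ℕ) : ℝ) + 1)) := by
        have h5 := mul_le_mul_of_nonneg_left h3 hA
        rw [div_mul_cancel₀ _ hl.ne'] at h5
        exact h5
      linarith

lemma sum_ds_le {d : ℕ} (hd : 2 ≤ d) (D : ℕ) :
    ((∑ j ∈ range D, ds d j : ℕ) : ℝ) ≤
      ((d : ℝ) - 1) / Real.log (4 / 3) * (D * Real.log (D + 1)) := by
  have hl : 0 < Real.log (4 / 3) := log_pos (by norm_num)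
  have hd' : (2 : ℝ) ≤ d := by exact_mod_cast hd
  have hA : 0 ≤ ((d : ℝ) - 1) / Real.log (4 / 3) := div_nonneg (by linarith) hl.le
  push_cast
  have h1 : ∀ j ∈ range D, (ds d j : ℝ) ≤
      ((d : ℝ) - 1) / Real.log (4 / 3) * Real.log (D + 1) := by
    intro j hj
    refine (ds_le hd j).trans (mul_le_mul_of_nonneg_left ?_ hA)
    apply Real.log_le_log (by positivity)
    have h2 : (j : ℝ) ≤ D := by exact_mod_cast (mem_range.1 hj).le
    linarith
  refine (Finset.sum_le_sum h1).trans (le_of_eq ?_)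
  rw [sum_const, card_range, nsmul_eq_mul]
  ring

lemma log_fact_le (D : ℕ) (hD : 1 ≤ D) : Real.log D.factorial ≤ D * Real.log (D + 1) := by
  have h1 : (D.factorial : ℝ) ≤ (D : ℝ) ^ D := by exact_mod_cast Nat.factorial_le_pow D
  have h2 : (0 : ℝ) < D.factorial := by exact_mod_cast D.factorial_pos
  have h3 : (0 : ℝ) < D := by exact_mod_cast hD
  calc Real.log D.factorial ≤ Real.log ((D : ℝ) ^ D) := Real.log_le_log h2 h1
    _ = D * Real.log D := by rw [Real.log_pow]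
    _ ≤ D * Real.log (D + 1) := by
        apply mul_le_mul_of_nonneg_left _ h3.le
        exact Real.log_le_log h3 (by linarith)

/-- the number of levels -/
lemma exists_level {d : ℕ} (hd : 2 ≤ d) (D : ℕ) (hD : 1 ≤ D) (c : ℝ) (hc : 1 ≤ c)
    (hcD : c ≤ D) : ∃ L : ℕ, (D : ℝ) ≤ c * (d : ℝ) ^ L ∧ c * (d : ℝ) ^ L ≤ d * D ∧
      (L : ℝ) ≤ 3 * Real.log (D + 1) := by
  classical
  have hd' : (2 : ℝ) ≤ d := by exact_mod_cast hd
  have hD' : (1 : ℝ) ≤ D := by exact_mod_cast hD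
  have hex : ∃ L : ℕ, (D : ℝ) ≤ c * (d : ℝ) ^ L := by
    obtain ⟨L, hL⟩ := pow_unbounded_of_one_lt (D : ℝ) (show (1 : ℝ) < d by linarith)
    refine ⟨L, hL.le.trans ?_⟩
    have : (0 : ℝ) ≤ (d : ℝ) ^ L := by positivity
    nlinarith
  obtain ⟨L, hL⟩ : ∃ L, L = Nat.find hex := ⟨_, rfl⟩
  have h1 : (D : ℝ) ≤ c * (d : ℝ) ^ L := hL ▸ Nat.find_spec hex
  have h2 : ∀ m < L, c * (d : ℝ) ^ m < D := by
    intro m hm
    rw [hL] at hm
    exact not_le.1 (Nat.find_min hex hm)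
  refine ⟨L, h1, ?_, ?_⟩
  · rcases Nat.eq_zero_or_pos L with h0 | h0
    · rw [h0, pow_zero, mul_one]
      nlinarith
    · obtain ⟨m, rfl⟩ := Nat.exists_eq_succ_of_ne_zero h0.ne'
      have h3 := h2 m (Nat.lt_succ_self m)
      rw [Nat.succ_eq_add_one, pow_succ]
      nlinarith
  · have hlog : 0 ≤ Real.log ((D : ℝ) + 1) := log_nonneg (by linarith)
    rcases Nat.eq_zero_or_pos L with h0 | h0
    · rw [h0, Nat.cast_zero]
      linarith
    · obtain ⟨m, rfl⟩ := Nat.exists_eq_succ_of_ne_zero h0.ne'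
      have h3 := h2 m (Nat.lt_succ_self m)
      have h4 : (2 : ℝ) ^ m ≤ D := by
        have h5 : (2 : ℝ) ^ m ≤ (d : ℝ) ^ m := pow_le_pow_left₀ (by norm_num) hd' m
        have h6 : (d : ℝ) ^ m ≤ c * (d : ℝ) ^ m := by
          have : (0 : ℝ) ≤ (d : ℝ) ^ m := by positivity
          nlinarith
        linarith
      have h5 : (2 : ℝ) ^ (m + 1) ≤ ((D : ℝ) + 1) ^ 2 := by
        rw [pow_succ]
        nlinarith
      have h6 := Real.log_le_log (by positivity) h5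
      rw [Real.log_pow, Real.log_pow] at h6
      have h7 : (0.6931 : ℝ) < Real.log 2 := by
        have := Real.log_two_gt_d9
        linarith
      push_cast at h6 ⊢
      have h8 : (0 : ℝ) ≤ (m : ℝ) + 1 := by positivity
      nlinarith

theorem opt (d : ℕ) (hd : 2 ≤ d) (Λ₀ W β : ℝ) (hΛ₀ : 0 < Λ₀) (hW : 0 ≤ W) (hβ : 0 < β) :
    ∃ κ : ℝ, 0 < κ ∧ ∃ C : ℝ, 0 < C ∧ ∀ (D n : ℕ) (c h Λ' : ℝ), 1 ≤ D →
      c = n / (d : ℝ) ^ d → 2 ≤ c → c ≤ D → Λ₀ ≤ Λ' →
      (∀ k L : ℕ, L ≤ k → 0 ≤ (2 * ((D : ℝ) - 1) + ((d : ℝ) - 1) *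
          (4 * D + 2 * (c - 1) * (d : ℝ) ^ k)) * (D * h) +
        W * (∑ j ∈ Finset.range D, ds d j : ℕ) + 2 * Real.log D.factorial +
        Λ' * ((D : ℝ) ^ 2 / (d : ℝ) ^ L + L * D - (c - 1) * (β * D) * ((k : ℝ) - L))) →
      κ * (n / D) * ((D : ℝ) + 1) ^ (-(C / n)) ≤ h := by
  have hd' : (2 : ℝ) ≤ d := by exact_mod_cast hd
  have hl43 : 0 < Real.log (4 / 3) := log_pos (by norm_num)
  have hlogd : 0 < Real.log d := log_pos (by linarith)
  set A₀ := ((d : ℝ) - 1) / Real.log (4 / 3) with hA₀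
  have hA : 0 ≤ A₀ := div_nonneg (by linarith) hl43.le
  set B₀ := W * A₀ + 2 with hB₀
  have hB : 0 < B₀ := by positivity
  set E₀ := 2 * (3 + B₀ / Λ₀) / β with hE₀
  have hE : 0 < E₀ := by positivity
  have hdd : (0 : ℝ) < (d : ℝ) ^ d := by positivity
  refine ⟨Λ₀ * Real.exp (-((1 + 4 / β) * Real.log d)) / (4 * (d : ℝ) ^ (d + 2)), by positivity,
    E₀ * (d : ℝ) ^ d * Real.log d, by positivity, ?_⟩
  intro D n c h Λ' hD hc hc2 hcD hΛ' hineq
  have hD' : (1 : ℝ) ≤ D := by exact_mod_cast hD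
  have hD0 : (0 : ℝ) < D := by linarith
  have hc0 : 0 < c := by linarith
  have hn0 : (0 : ℝ) < n := by
    have h1 : (n : ℝ) = c * (d : ℝ) ^ d := by
      rw [hc]
      field_simp
    rw [h1]
    positivity
  obtain ⟨L, hL1, hL2, hL3⟩ := exists_level hd D hD c (by linarith) hcD
  set ℓ := Real.log ((D : ℝ) + 1) with hℓ
  have hℓ0 : 0 ≤ ℓ := log_nonneg (by linarith)
  set T := 4 / β + E₀ / c * ℓ with hT
  have hT0 : 0 ≤ T := by positivity
  set t := ⌈T⌉₊ with ht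
  have ht1 : T ≤ t := Nat.le_ceil T
  have ht2 : (t : ℝ) < T + 1 := Nat.ceil_lt_add_one hT0
  have h1 := hineq (L + t) L (Nat.le_add_right L t)
  have hs := sum_ds_le hd D
  have hf := log_fact_le D hD
  rw [← hA₀, ← hℓ] at hs
  rw [← hℓ] at hf
  set s : ℝ := ((∑ j ∈ Finset.range D, ds d j : ℕ) : ℝ) with hsdef
  set R := 2 * ((D : ℝ) - 1) + ((d : ℝ) - 1) * (4 * D + 2 * (c - 1) * (d : ℝ) ^ (L + t)) with hR
  -- the bound for Y
  have hY : (D : ℝ) ^ 2 / (d : ℝ) ^ L + L * D - (c - 1) * (β * D) * (((L + t : ℕ) : ℝ) - L) ≤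
      D * (-(c + B₀ / Λ₀ * ℓ)) := by
    have e1 : (D : ℝ) ^ 2 / (d : ℝ) ^ L ≤ D * c := by
      rw [div_le_iff₀ (by positivity), sq, mul_assoc]
      exact mul_le_mul_of_nonneg_left hL1 hD0.le
    have e2 : (((L + t : ℕ) : ℝ) - L) = t := by
      push_cast
      ring
    rw [e2]
    have e3 : (c / 2) * β * T ≤ (c - 1) * β * t := by
      have h2 : c / 2 ≤ c - 1 := by linarith
      have h3 : (c / 2) * β ≤ (c - 1) * β := mul_le_mul_of_nonneg_right h2 hβ.le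
      exact mul_le_mul h3 ht1 hT0 (mul_nonneg (by linarith) hβ.le)
    have e4 : (c / 2) * β * T = 2 * c + (3 + B₀ / Λ₀) * ℓ := by
      rw [hT, hE₀]
      field_simp
      ring
    have e5 : (L : ℝ) * D ≤ D * (3 * ℓ) := by
      rw [mul_comm]
      exact mul_le_mul_of_nonneg_left hL3 hD0.le
    have e6 : (c - 1) * (β * D) * t = D * ((c - 1) * β * t) := by ring
    rw [e6]
    have e7 : D * (2 * c + (3 + B₀ / Λ₀) * ℓ) ≤ D * ((c - 1) * β * t) := by
      rw [← e4]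
      exact mul_le_mul_of_nonneg_left e3 hD0.le
    have e8 : D * (-(c + B₀ / Λ₀ * ℓ)) = D * c + D * (3 * ℓ) -
        D * (2 * c + (3 + B₀ / Λ₀) * ℓ) := by ring
    rw [e8]
    linarith
  have hΛY : Λ' * ((D : ℝ) ^ 2 / (d : ℝ) ^ L + L * D -
      (c - 1) * (β * D) * (((L + t : ℕ) : ℝ) - L)) ≤ D * (-(Λ₀ * c + B₀ * ℓ)) := by
    have h2 := mul_le_mul_of_nonneg_left hY (hΛ₀.le.trans hΛ')
    refine h2.trans ?_
    have h3 : 0 ≤ c + B₀ / Λ₀ * ℓ := by positivity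
    have h4 : Λ₀ * (c + B₀ / Λ₀ * ℓ) ≤ Λ' * (c + B₀ / Λ₀ * ℓ) :=
      mul_le_mul_of_nonneg_right hΛ' h3
    have h5 : Λ₀ * (c + B₀ / Λ₀ * ℓ) = Λ₀ * c + B₀ * ℓ := by
      field_simp
    rw [h5] at h4
    have h6 := mul_le_mul_of_nonneg_left h4 hD0.le
    linarith
  -- the lower bound for R h
  have hRh : Λ₀ * c ≤ R * h := by
    have h2 : W * s ≤ D * (W * A₀ * ℓ) := by
      have h3 := mul_le_mul_of_nonneg_left hs hW
      linarith
    have h3 : 0 ≤ D * (R * h - Λ₀ * c) := by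
      have h4 : R * (D * h) = D * (R * h) := by ring
      rw [h4] at h1
      have h5 : D * (B₀ * ℓ) = D * (W * A₀ * ℓ) + 2 * (D * ℓ) := by
        rw [hB₀]
        ring
      have h6 : D * (R * h - Λ₀ * c) = D * (R * h) + D * (-(Λ₀ * c + B₀ * ℓ)) + D * (B₀ * ℓ) := by
        ring
      rw [h6, h5]
      linarith
    have h4 := nonneg_of_mul_nonneg_right h3 hD0
    linarith
  -- the bound for R
  have hdt : (1 : ℝ) ≤ (d : ℝ) ^ t := one_le_pow₀ (by linarith)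
  have hR1 : R ≤ 4 * (d : ℝ) ^ 2 * D * (d : ℝ) ^ t := by
    have h2 : (c - 1) * (d : ℝ) ^ (L + t) ≤ d * D * (d : ℝ) ^ t := by
      rw [pow_add, ← mul_assoc]
      apply mul_le_mul_of_nonneg_right _ (by positivity)
      have h3 : (0 : ℝ) ≤ (d : ℝ) ^ L := by positivity
      have h4 : (c - 1) * (d : ℝ) ^ L ≤ c * (d : ℝ) ^ L :=
        mul_le_mul_of_nonneg_right (by linarith) h3
      exact h4.trans hL2
    have h3 : ((d : ℝ) - 1) * (4 * D + 2 * (c - 1) * (d : ℝ) ^ (L + t)) ≤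
        ((d : ℝ) - 1) * (4 * D * (d : ℝ) ^ t + 2 * (d * D * (d : ℝ) ^ t)) := by
      apply mul_le_mul_of_nonneg_left _ (by linarith)
      have h5 : 4 * (D : ℝ) ≤ 4 * D * (d : ℝ) ^ t := le_mul_of_one_le_right (by positivity) hdt
      linarith
    have h4 : 2 * ((D : ℝ) - 1) ≤ 2 * D * (d : ℝ) ^ t := by
      have h5 : 2 * (D : ℝ) ≤ 2 * D * (d : ℝ) ^ t := le_mul_of_one_le_right (by positivity) hdt
      linarith
    have h5 : R ≤ (D * (d : ℝ) ^ t) * (2 * (d : ℝ) ^ 2 + 2 * d - 2) := by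
      have h6 : (D * (d : ℝ) ^ t) * (2 * (d : ℝ) ^ 2 + 2 * d - 2) = 2 * D * (d : ℝ) ^ t +
          ((d : ℝ) - 1) * (4 * D * (d : ℝ) ^ t + 2 * (d * D * (d : ℝ) ^ t)) := by ring
      rw [h6]
      exact add_le_add h4 h3
    have h6 : 2 * (d : ℝ) ^ 2 + 2 * d - 2 ≤ 4 * (d : ℝ) ^ 2 := by
      have h8 : 0 ≤ (d : ℝ) * ((d : ℝ) - 1) := mul_nonneg (by linarith) (by linarith)
      have h9 : (d : ℝ) * ((d : ℝ) - 1) = (d : ℝ) ^ 2 - d := by ring
      linarith
    have h7 : 0 ≤ (D : ℝ) * (d : ℝ) ^ t := by positivity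
    calc R ≤ (D * (d : ℝ) ^ t) * (2 * (d : ℝ) ^ 2 + 2 * d - 2) := h5
      _ ≤ (D * (d : ℝ) ^ t) * (4 * (d : ℝ) ^ 2) := mul_le_mul_of_nonneg_left h6 h7
      _ = 4 * (d : ℝ) ^ 2 * D * (d : ℝ) ^ t := by ring
  have hR0 : 0 < R := by
    have h2 : 0 ≤ (c - 1) * (d : ℝ) ^ (L + t) := mul_nonneg (by linarith) (by positivity)
    have h3 : 0 < ((d : ℝ) - 1) * (4 * D + 2 * (c - 1) * (d : ℝ) ^ (L + t)) := by
      apply mul_pos (by linarith)
      rw [mul_assoc]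
      linarith
    have h4 : 0 ≤ 2 * ((D : ℝ) - 1) := by linarith
    linarith
  have hh0 : 0 < h := by
    have h2 : 0 < Λ₀ * c := by positivity
    by_contra hcon
    push Not at hcon
    have h3 := mul_nonpos_of_nonneg_of_nonpos hR0.le hcon
    linarith
  have hfin : Λ₀ * c ≤ 4 * (d : ℝ) ^ 2 * D * (d : ℝ) ^ t * h :=
    hRh.trans (mul_le_mul_of_nonneg_right hR1 hh0.le)
  -- the power
  have hpow : (d : ℝ) ^ t ≤ Real.exp ((1 + 4 / β) * Real.log d + E₀ / c * ℓ * Real.log d) := by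
    rw [← Real.rpow_natCast, Real.rpow_def_of_pos (by linarith)]
    apply Real.exp_le_exp.2
    have h2 : (t : ℝ) ≤ 1 + 4 / β + E₀ / c * ℓ := by linarith
    have h3 := mul_le_mul_of_nonneg_left h2 hlogd.le
    linarith
  have hexp : ((D : ℝ) + 1) ^ (-(E₀ * (d : ℝ) ^ d * Real.log d / n)) =
      Real.exp (-(E₀ / c * ℓ * Real.log d)) := by
    rw [Real.rpow_def_of_pos (by linarith), ← hℓ]
    congr 1
    rw [hc]
    field_simp
  rw [hexp]
  have hkey : Λ₀ * c * Real.exp (-((1 + 4 / β) * Real.log d)) *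
      Real.exp (-(E₀ / c * ℓ * Real.log d)) ≤ 4 * (d : ℝ) ^ 2 * D * h := by
    rw [mul_assoc, ← Real.exp_add, ← neg_add, Real.exp_neg, ← div_eq_mul_inv,
      div_le_iff₀ (Real.exp_pos _)]
    refine hfin.trans ?_
    have h2 : 0 ≤ 4 * (d : ℝ) ^ 2 * D * h := by positivity
    have h3 := mul_le_mul_of_nonneg_left hpow h2
    linarith
  have e8 : Λ₀ * Real.exp (-((1 + 4 / β) * Real.log d)) / (4 * (d : ℝ) ^ (d + 2)) * (n / D) *
      Real.exp (-(E₀ / c * ℓ * Real.log d)) =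
      (Λ₀ * c * Real.exp (-((1 + 4 / β) * Real.log d)) *
      Real.exp (-(E₀ / c * ℓ * Real.log d))) / (4 * (d : ℝ) ^ 2 * D) := by
    rw [hc, pow_add]
    field_simp
  rw [e8, div_le_iff₀ (by positivity)]
  linarith

end Pool.Agent.NH29.LE
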