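import Pool.Agent.NH29.LE.Glob
import Pool.Agent.NH29.LE.Clu
import Pool.Agent.NH29.LE.Opt
import Pool.Agent.Helper259.HtExt

set_option autoImplicit false
set_option linter.unusedSectionVars false
set_option linter.style.haveILetI false

/-!
The lower bound for the canonical height
-/

namespace Pool.Agent.NH29.LE

open NumberField Module Polynomial IsDedekindDomain Finset Height Filter Topology
open Pool.Agent.H420R3 (mi nv TP mem_TP liesOver_of_mem ew)
open scoped IntermediateField

section field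

/-- a Galois extension which contains all conjugates -/
theorem embeds (K : Type) [Field K] [NumberField K] (F : Type) [Field F] [Algebra K F] (m : ℕ)
    (hF : Module.finrank K F = m + 1) :
    ∃ (M : Type) (_ : Field M) (_ : NumberField M) (_ : Algebra K M) (_ : IsGalois K M),
      Nonempty (Fin (m + 1) ≃ (F →ₐ[K] M)) := by
  haveI : FiniteDimensional K F := FiniteDimensional.of_finrank_pos (by omega)
  haveI : CharZero F := charZero_of_injective_algebraMap (algebraMap K F).injective
  let L := AlgebraicClosure K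
  haveI : Normal K L := IsAlgClosure.normal K L
  haveI : FiniteDimensional K (IntermediateField.normalClosure K F L) := inferInstance
  haveI : CharZero (IntermediateField.normalClosure K F L) :=
    charZero_of_injective_algebraMap
      (algebraMap K (IntermediateField.normalClosure K F L)).injective
  haveI : NumberField (IntermediateField.normalClosure K F L) := by
    refine { to_charZero := inferInstance, to_finiteDimensional := ?_ }
    exact FiniteDimensional.trans ℚ K (IntermediateField.normalClosure K F L)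
  haveI : Normal K (IntermediateField.normalClosure K F L) := inferInstance
  haveI : Algebra.IsSeparable K (IntermediateField.normalClosure K F L) := inferInstance
  have hcard : Fintype.card (F →ₐ[K] L) = m + 1 := by
    rw [AlgHom.card K F L, hF]
  refine ⟨IntermediateField.normalClosure K F L, inferInstance, inferInstance, inferInstance,
    { }, ⟨?_⟩⟩
  have e1 : Fin (m + 1) ≃ (F →ₐ[K] L) := (Fin.castOrderIso hcard.symm).toEquiv.trans
    (Fintype.equivFin _).symm
  exact e1.trans (normalClosure.algHomEquiv K F L).symm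

variable {K L M : Type} [Field K] [NumberField K] [Field L] [NumberField L] [Field M]
  [NumberField M] [Algebra K L] [Algebra K M]

lemma emb_inj (x : L) (hx : K⟮x⟯ = ⊤) {ρ ψ : L →ₐ[K] M} (h : ρ x = ψ x) : ρ = ψ := by
  haveI : FiniteDimensional K L := Module.Finite.of_restrictScalars_finite ℚ K L
  have h1 : Algebra.adjoin K {x} = ⊤ := by
    rw [← IntermediateField.adjoin_simple_toSubalgebra_of_isAlgebraic (IsAlgebraic.of_finite K x),
      hx, IntermediateField.top_toSubalgebra]
  refine AlgHom.ext_of_adjoin_eq_top h1 ?_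
  intro y hy
  rw [Set.mem_singleton_iff.1 hy]
  exact h

lemma ht_map (ρ : L →+* M) (y : L) :
    logHeight₁ (ρ y) * finrank ℚ L = logHeight₁ y * finrank ℚ M := by
  letI := ρ.toAlgebra
  haveI : IsScalarTower ℚ L M := inferInstance
  have h1 : logHeight₁ (algebraMap L M y) = finrank L M * logHeight₁ y := by
    have h := Pool.Agent.Helper259.HtExt.logHeight_ext (L := M) ![y, 1]
    have h2 : (fun i => algebraMap L M (![y, 1] i)) = ![algebraMap L M y, 1] := by
      funext i
      fin_cases i <;> simp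
    rw [h2] at h
    rw [logHeight₁_eq_logHeight, h, ← logHeight₁_eq_logHeight]
  have h2 : finrank ℚ L * finrank L M = finrank ℚ M := Module.finrank_mul_finrank ℚ L M
  have h3 : ρ y = algebraMap L M y := rfl
  rw [h3, h1, ← h2]
  push_cast
  ring

end field

section
variable {K : Type} [Field K] [NumberField K]

/-- the polynomial `F / b` over an extension -/
noncomputable def pb (L : Type) [Field L] [Algebra (𝓞 K) L] (F : (𝓞 K)[X]) (b : 𝓞 K) : L[X] :=
  C (algebraMap (𝓞 K) L b)⁻¹ * F.map (algebraMap (𝓞 K) L)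

lemma pb_map {L M : Type} [Field L] [NumberField L] [Field M] [NumberField M] [Algebra K L]
    [Algebra K M] (ρ : L →ₐ[K] M) (F : (𝓞 K)[X]) (b : 𝓞 K) :
    pb M F b = (pb L F b).map (ρ : L →+* M) := by
  have h1 : ∀ a : 𝓞 K, ρ (algebraMap (𝓞 K) L a) = algebraMap (𝓞 K) M a := by
    intro a
    rw [IsScalarTower.algebraMap_apply (𝓞 K) K L, IsScalarTower.algebraMap_apply (𝓞 K) K M,
      ρ.commutes]
  unfold pb
  rw [Polynomial.map_mul, Polynomial.map_C, Polynomial.map_map]
  congr 1
  · congr 1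
    rw [map_inv₀ (ρ : L →+* M)]
    congr 1
    exact (h1 b).symm
  · congr 1
    ext a
    exact (h1 a).symm

lemma it_map {L M : Type} [Field L] [NumberField L] [Field M] [NumberField M] [Algebra K L]
    [Algebra K M] (ρ : L →ₐ[K] M) (F : (𝓞 K)[X]) (b : 𝓞 K) (m : ℕ) (x : L) :
    it (pb M F b) m (ρ x) = ρ (it (pb L F b) m x) := by
  induction m generalizing x with
  | zero => rfl
  | succ m ih =>
    rw [it_succ, it_succ, ← ih]
    congr 1
    rw [pb_map ρ F b]
    exact eval_map_apply _ _

end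

section main
variable {K : Type} [Field K] [NumberField K]

/-- the sum of the local degrees which are at least `n` -/
noncomputable def big (K : Type) [Field K] [NumberField K] (P : Ideal (𝓞 K)) [P.IsMaximal]
    (L : Type) [Field L] [NumberField L] [Algebra K L] (n : ℕ) : ℕ :=
  ∑ Q : P.primesOver (𝓞 L) with n ≤ Q.1.ramificationIdx (𝓞 K) * Q.1.inertiaDeg (𝓞 K),
    Q.1.ramificationIdx (𝓞 K) * Q.1.inertiaDeg (𝓞 K)

theorem main (P : Ideal (𝓞 K)) [P.IsMaximal] (hP0 : P ≠ ⊥) (F : (𝓞 K)[X]) (b : 𝓞 K)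
    (h : CR P F b) (β : ℝ) (hβ : 0 < β) :
    ∃ κ : ℝ, 0 < κ ∧ ∃ C₀ : ℝ, 0 < C₀ ∧ ∀ (L : Type) [Field L] [NumberField L] [Algebra K L]
      (x : L), K⟮x⟯ = ⊤ → ∀ n : ℕ, 2 * F.natDegree ^ F.natDegree ≤ n →
      β * finrank K L ≤ big K P L n → ∀ r : ℝ,
      Tendsto (fun m : ℕ => logHeight₁ (it (pb L F b) m x) /
        ((finrank ℚ L : ℝ) * (F.natDegree : ℝ) ^ m)) atTop (𝓝 r) →
      κ * (n / finrank K L) * ((finrank K L : ℝ) + 1) ^ (-(C₀ / n)) ≤ r := by
  classical
  set d := F.natDegree with hd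
  have hd2 : 2 ≤ d := h.deg
  have hd' : (2 : ℝ) ≤ d := by exact_mod_cast hd2
  set CK : ℝ := logHeight₁ ((pb K F b).leadingCoeff⁻¹) + ∑ i ∈ range d,
    logHeight₁ ((pb K F b).coeff i / (pb K F b).leadingCoeff) with hCK
  have hCK0 : 0 ≤ CK := add_nonneg (zero_le_logHeight₁ _)
    (Finset.sum_nonneg fun _ _ => zero_le_logHeight₁ _)
  have hQ : (0 : ℝ) < finrank ℚ K := by exact_mod_cast (finrank_pos : 0 < finrank ℚ K)
  have hNP : 0 < Real.log P.absNorm := by
    have h1 : 1 < P.absNorm := HeightOneSpectrum.one_lt_absNorm (⟨P, inferInstance, hP0⟩ : HeightOneSpectrum (𝓞 K))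
    exact Real.log_pos (by exact_mod_cast h1)
  obtain ⟨κ, hκ, C₀, hC₀, hopt⟩ := opt d hd2 (Real.log P.absNorm / finrank ℚ K)
    (4 * CK / finrank ℚ K + 4 * Real.log (d + 1)) β (by positivity)
    (add_nonneg (by positivity) (by
      have := Real.log_nonneg (show (1 : ℝ) ≤ (d : ℝ) + 1 by linarith)
      linarith)) hβ
  refine ⟨κ, hκ, C₀, hC₀, ?_⟩
  intro L _ _ _ x hx n hn hbig r hr
  haveI : FiniteDimensional K L := Module.Finite.of_restrictScalars_finite ℚ K L
  have hDpos : 0 < finrank K L := finrank_pos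
  obtain ⟨m₀, hm₀⟩ : ∃ m₀, finrank K L = m₀ + 1 := ⟨finrank K L - 1, by omega⟩
  obtain ⟨M, _, _, _, _, ⟨e⟩⟩ := embeds K L m₀ hm₀
  rw [hm₀] at hbig ⊢
  obtain ⟨D, hD⟩ : ∃ D, D = m₀ + 1 := ⟨_, rfl⟩
  rw [← hD] at hbig ⊢ e
  have hD1 : 1 ≤ D := by omega
  have hD' : (1 : ℝ) ≤ D := by exact_mod_cast hD1
  set y : Fin D → M := fun i => e i x with hy
  have hyinj : Function.Injective y := by
    intro i j hij
    exact e.injective (emb_inj x hx hij)
  have hn1 : 1 ≤ n := by
    have : 0 < d ^ d := Nat.pow_pos (by omega)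
    omega
  obtain ⟨c, hc⟩ : ∃ c : ℝ, c = n / (d : ℝ) ^ d := ⟨_, rfl⟩
  have hdd : (0 : ℝ) < (d : ℝ) ^ d := by positivity
  have hc2 : 2 ≤ c := by
    rw [hc, le_div_iff₀ hdd]
    exact_mod_cast hn
  -- the sets
  set A : FinitePlace M → Finset (Fin D) := fun V => univ.filter fun i => n ≤ osz (mi V) (e i)
    with hA
  have hAcard : ∀ V ∈ TP M P, β * D ≤ (A V).card := by
    intro V hV
    haveI := liesOver_of_mem hP0 hV
    have h1 := card_big (e ⟨0, by omega⟩) P (mi V) n
    have h2 : (univ.filter fun ρ : L →ₐ[K] M => n ≤ osz (mi V) ρ).card = (A V).card := by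
      symm
      refine Finset.card_bij (fun i _ => e i) ?_ ?_ ?_
      · intro i hi
        exact mem_filter.2 ⟨mem_univ _, (mem_filter.1 hi).2⟩
      · intro i _ j _ hij
        exact e.injective hij
      · intro ρ hρ
        refine ⟨e.symm ρ, mem_filter.2 ⟨mem_univ _, ?_⟩, e.apply_symm_apply ρ⟩
        rw [e.apply_symm_apply]
        exact (mem_filter.1 hρ).2
    rw [h2] at h1
    have h3 : (big K P L n : ℝ) ≤ (A V).card := by
      have h4 : big K P L n ≤ (A V).card := h1
      exact_mod_cast h4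
    exact hbig.trans h3
  have hClex : ∀ (V : FinitePlace M) (i : Fin D), ∃ T : Finset (Fin D),
      (V ∈ TP M P → i ∈ A V → c ≤ T.card) ∧
      (V ∈ TP M P → ∀ i' ∈ T, ∀ l,
        St V.val (F.map (algebraMap (𝓞 K) M)) (algebraMap (𝓞 K) M b) l (y i) →
        St V.val (F.map (algebraMap (𝓞 K) M)) (algebraMap (𝓞 K) M b) l (y i') ∧
        Cg V.val (F.map (algebraMap (𝓞 K) M)) (algebraMap (𝓞 K) M b) l (y i) (y i')) := by
    intro V i
    by_cases hV : V ∈ TP M P ∧ i ∈ A V
    · obtain ⟨T, hT1, hT2⟩ := exists_cluster hP0 h hV.1 (e i) n hn1 (mem_filter.1 hV.2).2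
      refine ⟨T.image e.symm, fun _ _ => ?_, fun _ i' hi' l hSt => ?_⟩
      · rw [Finset.card_image_of_injective _ e.symm.injective, hc]
        exact hT1
      · obtain ⟨ψ, hψ, rfl⟩ := mem_image.1 hi'
        have h1 := hT2 ψ hψ x l hSt
        have h2 : y (e.symm ψ) = ψ x := by
          rw [hy]
          simp only [e.apply_symm_apply]
        rw [h2]
        exact h1
    · refine ⟨∅, fun h1 h2 => absurd ⟨h1, h2⟩ hV, fun _ i' hi' => ?_⟩
      exact absurd hi' (notMem_empty _)
  choose Cl hCl1 hCl2 using hClex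
  -- there is a place
  have hMK : (0 : ℝ) < finrank K M := by
    haveI : FiniteDimensional K M := Module.Finite.of_restrictScalars_finite ℚ K M
    exact_mod_cast (finrank_pos : 0 < finrank K M)
  have hTPne : (TP M P).Nonempty := by
    rw [Finset.nonempty_iff_ne_empty]
    intro h0
    have h1 := H420R3.sum_ew (M := M) hP0
    rw [h0, Finset.sum_empty] at h1
    have := mul_pos hMK hNP
    linarith
  have hcD : c ≤ D := by
    obtain ⟨V, hV⟩ := hTPne
    have h1 := hAcard V hV
    have h2 : (0 : ℝ) < (A V).card := lt_of_lt_of_le (by positivity) h1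
    obtain ⟨i, hi⟩ : (A V).Nonempty := by
      rw [← Finset.card_pos]
      exact_mod_cast h2
    refine (hCl1 V i hV hi).trans ?_
    have h3 := Finset.card_le_univ (Cl V i)
    rw [Fintype.card_fin] at h3
    exact_mod_cast h3
  have hinjM : Function.Injective (algebraMap (𝓞 K) M) := FaithfulSMul.algebraMap_injective (𝓞 K) M
  have hdM : (F.map (algebraMap (𝓞 K) M)).natDegree = d := natDegree_map_eq_of_injective hinjM F
  have hbM : algebraMap (𝓞 K) M b ≠ 0 := by
    rw [Ne, map_eq_zero_iff _ hinjM]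
    exact h.b0
  have hN : (finrank ℚ M : ℝ) = finrank ℚ K * finrank K M := by
    exact_mod_cast (Module.finrank_mul_finrank ℚ K M).symm
  have hNpos : (0 : ℝ) < finrank ℚ M := by
    rw [hN]
    positivity
  set u : ℕ → ℝ := fun m => logHeight₁ (it (pb L F b) m x) /
        ((finrank ℚ L : ℝ) * (d : ℝ) ^ m) with hu
  set Λ' := (∑ V ∈ TP M P, -Real.log (V.val (algebraMap (𝓞 K) M b))) / finrank ℚ M with hΛ'
  have hΛ : Real.log P.absNorm / finrank ℚ K ≤ Λ' := by
    rw [hΛ', div_le_div_iff₀ hQ hNpos, hN]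
    have h1 := sum_lam (M := M) hP0 h.b0 h.bP
    have h2 := mul_le_mul_of_nonneg_right h1 hQ.le
    linarith
  refine hopt D n c r Λ' hD1 hc hc2 hcD hΛ fun k Lv hkL => ?_
  set s : ℝ := ((∑ j ∈ range D, ds d j : ℕ) : ℝ) with hs
  set R := 2 * ((D : ℝ) - 1) + ((d : ℝ) - 1) * (4 * D + 2 * (c - 1) * (d : ℝ) ^ k) with hR
  set Y := (D : ℝ) ^ 2 / (d : ℝ) ^ Lv + Lv * D - (c - 1) * (β * D) * ((k : ℝ) - Lv) with hY
  -- the inequality for the iterates
  have hm : ∀ m : ℕ, max D k ≤ m → 0 ≤ R * (D * u m) +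
      (4 * CK / finrank ℚ K + 4 * Real.log (d + 1)) * s + 2 * Real.log D.factorial +
      Λ' * (Y + (4 * D + 2 * (c - 1) * (d : ℝ) ^ k) * D / (d : ℝ) ^ m) := by
    intro m hm
    have hmD : D ≤ m := (le_max_left _ _).trans hm
    have hmk : k ≤ m := (le_max_right _ _).trans hm
    have hL0 : (0 : ℝ) < finrank ℚ L := by exact_mod_cast (finrank_pos : 0 < finrank ℚ L)
    have g := glob (F.map (algebraMap (𝓞 K) M)) (algebraMap (𝓞 K) M b) (hdM ▸ hd2) hbM (TP M P)
      (fun V hV => cantor_of hP0 h hV) D m k Lv hD1 hmD hmk hkL y hyinj c β (by linarith) A Cl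
      hAcard (fun V hV i hi => hCl1 V i hV hi) (fun V hV i i' hi' l => hCl2 V i hV i' hi' l)
      (finrank ℚ M * (logHeight₁ (it (pb L F b) m x) / finrank ℚ L)) (by
        intro i
        have h1 : it (C (algebraMap (𝓞 K) M b)⁻¹ * F.map (algebraMap (𝓞 K) M)) m (y i) =
            (e i) (it (pb L F b) m x) := it_map (e i) F b m x
        rw [h1]
        apply le_of_eq
        have h2 := ht_map ((e i : L →ₐ[K] M) : L →+* M) (it (pb L F b) m x)
        have h3 : logHeight₁ ((e i) (it (pb L F b) m x)) * finrank ℚ L =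
            logHeight₁ (it (pb L F b) m x) * finrank ℚ M := h2
        field_simp
        linarith)
    rw [hdM] at g
    -- the constants
    have hcst : logHeight₁ ((C (algebraMap (𝓞 K) M b)⁻¹ *
        F.map (algebraMap (𝓞 K) M)).leadingCoeff⁻¹) + ∑ i ∈ range d,
          logHeight₁ ((C (algebraMap (𝓞 K) M b)⁻¹ * F.map (algebraMap (𝓞 K) M)).coeff i /
            (C (algebraMap (𝓞 K) M b)⁻¹ * F.map (algebraMap (𝓞 K) M)).leadingCoeff) =
        finrank ℚ M / finrank ℚ K * CK := by
      have h1 : C (algebraMap (𝓞 K) M b)⁻¹ * F.map (algebraMap (𝓞 K) M) =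
          (pb K F b).map (algebraMap K M) := pb_map (Algebra.ofId K M) F b
      have h2 : ∀ z : K, logHeight₁ (algebraMap K M z) = finrank ℚ M / finrank ℚ K *
          logHeight₁ z := by
        intro z
        have h3 := ht_map (algebraMap K M) z
        field_simp
        linarith
      rw [h1, leadingCoeff_map, ← map_inv₀, h2, hCK, mul_add, Finset.mul_sum]
      congr 1
      refine Finset.sum_congr rfl fun i _ => ?_
      rw [coeff_map, ← map_div₀, h2]
    rw [hcst] at g
    have g2 : 0 ≤ (finrank ℚ M : ℝ) * (R * (D * u m) +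
      (4 * CK / finrank ℚ K + 4 * Real.log (d + 1)) * s + 2 * Real.log D.factorial +
      Λ' * (Y + (4 * D + 2 * (c - 1) * (d : ℝ) ^ k) * D / (d : ℝ) ^ m)) := by
      refine g.trans (le_of_eq ?_)
      rw [← hs]
      have h5 : ∑ V ∈ TP M P, -Real.log (V.val (algebraMap (𝓞 K) M b)) =
          finrank ℚ M * Λ' := by
        rw [hΛ']
        field_simp
      rw [h5]
      have h6 : (finrank ℚ M : ℝ) * (logHeight₁ (it (pb L F b) m x) / finrank ℚ L) /
          (d : ℝ) ^ m = finrank ℚ M * u m := by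
        rw [hu]
        simp only
        field_simp
      rw [h6, hR, hY]
      ring
    exact nonneg_of_mul_nonneg_right g2 hNpos
  -- the limit
  have hlim : Tendsto (fun m : ℕ => R * (D * u m) +
      (4 * CK / finrank ℚ K + 4 * Real.log (d + 1)) * s + 2 * Real.log D.factorial +
      Λ' * (Y + (4 * D + 2 * (c - 1) * (d : ℝ) ^ k) * D / (d : ℝ) ^ m)) atTop
      (𝓝 (R * (D * r) +
      (4 * CK / finrank ℚ K + 4 * Real.log (d + 1)) * s + 2 * Real.log D.factorial +
      Λ' * (Y + 0))) := by
    have h1 : Tendsto (fun m : ℕ => (4 * (D : ℝ) + 2 * (c - 1) * (d : ℝ) ^ k) * D / (d : ℝ) ^ m)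
        atTop (𝓝 0) := by
      have h2 : Tendsto (fun m : ℕ => (d : ℝ) ^ m) atTop atTop :=
        tendsto_pow_atTop_atTop_of_one_lt (by linarith)
      exact Tendsto.div_atTop tendsto_const_nhds h2
    have h2 : Tendsto u atTop (𝓝 r) := hr
    exact (((h2.const_mul (D : ℝ)).const_mul R).add_const _ |>.add_const _).add
      ((tendsto_const_nhds.add h1).const_mul Λ')
  have hfin := ge_of_tendsto hlim ((eventually_ge_atTop (max D k)).mono hm)
  rw [add_zero] at hfin
  exact hfin

end main

end Pool.Agent.NH29.LE
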