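import Pool.Agent.NH29.LE.A3
import Pool.Agent.H420R3.Over

set_option autoImplicit false
set_option linter.unusedSectionVars false

/-!
The reduction at the places over a prime of `K`
-/

namespace Pool.Agent.NH29.LE

open NumberField Module Polynomial IsDedekindDomain
open Pool.Agent.H420R3 (mi nv TP mem_TP liesOver_of_mem ew)
open scoped Pointwise

section
variable {K M : Type} [Field K] [NumberField K] [Field M] [NumberField M] [Algebra K M]
variable {P : Ideal (𝓞 K)} [hP : P.IsMaximal]

/-- the condition on the polynomial `F / b` at the prime `P` -/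
structure CR (P : Ideal (𝓞 K)) (F : (𝓞 K)[X]) (b : 𝓞 K) : Prop where
  deg : 2 ≤ F.natDegree
  lead : F.leadingCoeff ∉ P
  b0 : b ≠ 0
  bP : b ∈ P
  sep : (F.map (Ideal.Quotient.mk P)).Separable

lemma mem_mi (hP0 : P ≠ ⊥) {V : FinitePlace M} (hV : V ∈ TP M P) (a : 𝓞 K) :
    algebraMap (𝓞 K) (𝓞 M) a ∈ mi V ↔ a ∈ P := by
  have h1 := (liesOver_of_mem hP0 hV).over
  conv_rhs => rw [h1]
  rfl

lemma val_coe (V : FinitePlace M) (a : 𝓞 M) : V.val (a : M) = V (a : M) := rfl

lemma alg_coe (a : 𝓞 K) : algebraMap (𝓞 K) M a = ((algebraMap (𝓞 K) (𝓞 M) a : 𝓞 M) : M) := rfl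

lemma val_lt_iff (hP0 : P ≠ ⊥) {V : FinitePlace M} (hV : V ∈ TP M P) (a : 𝓞 K) :
    V.val (algebraMap (𝓞 K) M a) < 1 ↔ a ∈ P := by
  rw [alg_coe, val_coe, H420R3.v_lt_one_iff, mem_mi hP0 hV]

lemma val_le (V : FinitePlace M) (a : 𝓞 K) : V.val (algebraMap (𝓞 K) M a) ≤ 1 := by
  rw [alg_coe, val_coe]
  exact H420R3.v_le_one V _

lemma val_eval_le (V : FinitePlace M) (G : (𝓞 K)[X]) {z : M} (hz : V.val z ≤ 1) :
    V.val ((G.map (algebraMap (𝓞 K) M)).eval z) ≤ 1 := by
  rw [eval_eq_sum_range]
  refine sum_le_nonarch V.val (fun x y => FinitePlace.add_le V x y) _ _ zero_le_one fun i _ => ?_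
  rw [map_mul, map_pow, coeff_map]
  exact mul_le_one₀ (val_le V _) (pow_nonneg (V.val.nonneg _) _) (pow_le_one₀ (V.val.nonneg _) hz)

lemma val_eval_lt (hP0 : P ≠ ⊥) {V : FinitePlace M} (hV : V ∈ TP M P) (G : (𝓞 K)[X])
    (hG : G.map (Ideal.Quotient.mk P) = 0) {z : M} (hz : V.val z ≤ 1) :
    V.val ((G.map (algebraMap (𝓞 K) M)).eval z) < 1 := by
  have h1 : ∀ i, V.val ((G.map (algebraMap (𝓞 K) M)).coeff i) < 1 := by
    intro i
    rw [coeff_map, val_lt_iff hP0 hV]
    have h2 := congrArg (fun Q => Q.coeff i) hG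
    simp only [coeff_map, coeff_zero] at h2
    exact Ideal.Quotient.eq_zero_iff_mem.1 h2
  rw [eval_eq_sum_range]
  have hna : IsNonarchimedean V.val := fun x y => FinitePlace.add_le V x y
  have key : ∀ (s : Finset ℕ), V.val (∑ i ∈ s,
      (G.map (algebraMap (𝓞 K) M)).coeff i * z ^ i) < 1 := by
    intro s
    induction s using Finset.induction_on with
    | empty => simp
    | insert a s ha ih =>
      rw [Finset.sum_insert ha]
      refine (hna _ _).trans_lt (max_lt ?_ ih)
      rw [map_mul, map_pow]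
      have h3 : V.val z ^ a ≤ 1 := pow_le_one₀ (V.val.nonneg _) hz
      have h4 := V.val.nonneg ((G.map (algebraMap (𝓞 K) M)).coeff a)
      calc V.val ((G.map (algebraMap (𝓞 K) M)).coeff a) * V.val z ^ a ≤
            V.val ((G.map (algebraMap (𝓞 K) M)).coeff a) * 1 :=
            mul_le_mul_of_nonneg_left h3 h4
        _ < 1 := by rw [mul_one]; exact h1 a
  exact key _

theorem cantor_of (hP0 : P ≠ ⊥) {F : (𝓞 K)[X]} {b : 𝓞 K} (h : CR P F b) {V : FinitePlace M}
    (hV : V ∈ TP M P) :
    Cantor V.val (F.map (algebraMap (𝓞 K) M)) (algebraMap (𝓞 K) M b) := by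
  have hinj : Function.Injective (algebraMap (𝓞 K) M) := FaithfulSMul.algebraMap_injective (𝓞 K) M
  have hna : IsNonarchimedean V.val := fun x y => FinitePlace.add_le V x y
  refine ⟨hna, ?_, ?_, ?_, ?_, ?_, ?_⟩
  · rw [natDegree_map_eq_of_injective hinj]
    exact h.deg
  · intro i
    rw [coeff_map]
    exact val_le V _
  · rw [leadingCoeff_map_of_injective hinj]
    have h1 := val_le (K := K) V F.leadingCoeff
    have h2 : ¬ V.val (algebraMap (𝓞 K) M F.leadingCoeff) < 1 := by
      rw [val_lt_iff hP0 hV]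
      exact h.lead
    exact le_antisymm h1 (not_lt.1 h2)
  · rw [Ne, map_eq_zero_iff _ hinj]
    exact h.b0
  · rw [val_lt_iff hP0 hV]
    exact h.bP
  · intro z hz hFz
    obtain ⟨A, B, hAB⟩ := h.sep
    obtain ⟨A', rfl⟩ := Polynomial.map_surjective _ Ideal.Quotient.mk_surjective A
    obtain ⟨B', rfl⟩ := Polynomial.map_surjective _ Ideal.Quotient.mk_surjective B
    have h1 : (A' * F + B' * derivative F - 1).map (Ideal.Quotient.mk P) = 0 := by
      rw [Polynomial.map_sub, Polynomial.map_add, Polynomial.map_mul, Polynomial.map_mul,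
        Polynomial.map_one, ← derivative_map, hAB, sub_self]
    have h2 := val_eval_lt hP0 hV _ h1 hz
    rw [Polynomial.map_sub, Polynomial.map_add, Polynomial.map_mul, Polynomial.map_mul,
      Polynomial.map_one, ← derivative_map, eval_sub, eval_add, eval_mul, eval_mul, eval_one] at h2
    have hA := val_eval_le V A' hz
    have hB := val_eval_le V B' hz
    have hF' := val_eval_le V (derivative F) hz
    rw [← derivative_map] at hF'
    apply le_antisymm hF'
    by_contra hcon
    push Not at hcon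
    set f := eval z (F.map (algebraMap (𝓞 K) M)) with hf
    set f' := eval z (derivative (F.map (algebraMap (𝓞 K) M))) with hf'
    set a := eval z (A'.map (algebraMap (𝓞 K) M)) with ha
    set b' := eval z (B'.map (algebraMap (𝓞 K) M)) with hb'
    have h3 : (1 : M) = (a * f + b' * f') + -(a * f + b' * f' - 1) := by ring
    have h4 : V.val (1 : M) < 1 := by
      rw [h3]
      refine (hna _ _).trans_lt (max_lt ?_ ?_)
      · refine (hna _ _).trans_lt (max_lt ?_ ?_)
        · rw [map_mul]
          exact (mul_le_of_le_one_left (V.val.nonneg _) hA).trans_lt hFz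
        · rw [map_mul]
          exact (mul_le_of_le_one_left (V.val.nonneg _) hB).trans_lt hcon
      · rw [V.val.map_neg]
        exact h2
    rw [map_one] at h4
    exact lt_irrefl _ h4

/-- the sum of the local contributions of `b` -/
theorem sum_lam (hP0 : P ≠ ⊥) {b : 𝓞 K} (hb0 : b ≠ 0) (hb : b ∈ P) :
    (finrank K M : ℝ) * Real.log P.absNorm ≤
      ∑ V ∈ TP M P, -Real.log (V.val (algebraMap (𝓞 K) M b)) := by
  rw [← H420R3.sum_ew hP0]
  refine Finset.sum_le_sum fun V hV => ?_
  have hinj : Function.Injective (algebraMap (𝓞 K) M) := FaithfulSMul.algebraMap_injective (𝓞 K) M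
  have h1 : V.val (algebraMap (𝓞 K) M b) ≤ Real.exp (-ew K V) :=
    H420R3.v_le_of_mem_P hP0 hV hb
  have h2 : 0 < V.val (algebraMap (𝓞 K) M b) := by
    apply V.val.pos
    rw [Ne, map_eq_zero_iff _ hinj]
    exact hb0
  have h3 := Real.log_le_log h2 h1
  rw [Real.log_exp] at h3
  linarith

end

end Pool.Agent.NH29.LE
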