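import Mathlib

set_option autoImplicit false

namespace Pool.Agent.NH29.LE

open Polynomial Real

variable {M : Type} [Field M]

/-- the exponent of the leading coefficient of the digit polynomial `Q_j` -/
def ex (d : ℕ) : ℕ → ℕ
  | 0 => 0
  | (j + 1) => if 2 ≤ d then (j + 1) / d + ex d ((j + 1) / d) else 0
decreasing_by
  rename_i h
  exact Nat.div_lt_self (Nat.succ_pos j) h

/-- the sum of the digits of `j` in base `d` -/
def ds (d : ℕ) : ℕ → ℕ
  | 0 => 0
  | (j + 1) => if 2 ≤ d then (j + 1) % d + ds d ((j + 1) / d) else 0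
decreasing_by
  rename_i h
  exact Nat.div_lt_self (Nat.succ_pos j) h

/-- the orbit of `z` under the polynomial `φ` -/
noncomputable def it (φ : M[X]) (n : ℕ) (z : M) : M := (fun y => φ.eval y)^[n] z

/-- the `n`-th approximation of the local canonical height -/
noncomputable def gr (v : AbsoluteValue M ℝ) (φ : M[X]) (n : ℕ) (z : M) : ℝ :=
  posLog (v (it φ n z)) / (φ.natDegree : ℝ) ^ n

/-- `z` stays for `l` steps in the set where the polynomial `F / b` is bounded -/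
def St (v : AbsoluteValue M ℝ) (F : M[X]) (b : M) (l : ℕ) (z : M) : Prop :=
  ∀ j < l, v (it (C b⁻¹ * F) j z) ≤ 1 ∧ v (F.eval (it (C b⁻¹ * F) j z)) ≤ v b

/-- `z` and `z'` have the same itinerary of length `l` -/
def Cg (v : AbsoluteValue M ℝ) (F : M[X]) (b : M) (l : ℕ) (z z' : M) : Prop :=
  ∀ j < l, v (it (C b⁻¹ * F) j z - it (C b⁻¹ * F) j z') < 1

/-- the polynomial `F / b` at the absolute value `v`: Cantor reduction -/
structure Cantor (v : AbsoluteValue M ℝ) (F : M[X]) (b : M) : Prop where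
  nonarch : IsNonarchimedean v
  deg : 2 ≤ F.natDegree
  coeff : ∀ i, v (F.coeff i) ≤ 1
  lead : v F.leadingCoeff = 1
  b0 : b ≠ 0
  b1 : v b < 1
  sep : ∀ z, v z ≤ 1 → v (F.eval z) < 1 → v (F.derivative.eval z) = 1

/-- **B.** the bound for the Vandermonde determinant at an arbitrary place -/
def St_B : Prop := ∀ (M : Type) [Field M] (v : AbsoluteValue M ℝ) (φ : M[X]), 2 ≤ φ.natDegree →
  ∀ C : ℝ, 0 ≤ C → (∀ z, posLog (v z) ≤ posLog (v (φ.eval z)) / φ.natDegree + C) →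
  ∀ (D n : ℕ), D ≤ n → ∀ x : Fin D → M, Function.Injective x →
    Real.log (v (Matrix.vandermonde x).det) +
        (∑ j ∈ Finset.range D, ex φ.natDegree j : ℕ) * Real.log (v φ.leadingCoeff) ≤
      ((D : ℝ) - 1) * ∑ i, gr v φ n (x i) +
        2 * C * (∑ j ∈ Finset.range D, ds φ.natDegree j : ℕ) +
        (open Classical in if IsNonarchimedean v then 0 else Real.log D.factorial)

/-- **A1.** escape -/
def St_A1 : Prop := ∀ (M : Type) [Field M] (v : AbsoluteValue M ℝ) (F : M[X]) (b : M),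
  Cantor v F b → ∀ (n l : ℕ), l ≤ n → ∀ z : M,
    posLog (v z) ≤ gr v (C b⁻¹ * F) n z ∧
    (¬ St v F b l z → posLog (v z) + (-Real.log (v b)) / ((F.natDegree : ℝ) - 1) *
      (((F.natDegree : ℝ) ^ l)⁻¹ - ((F.natDegree : ℝ) ^ n)⁻¹) ≤ gr v (C b⁻¹ * F) n z)

/-- **A2.** contraction along a common itinerary, and the number of itineraries -/
def St_A2 : Prop := ∀ (M : Type) [Field M] (v : AbsoluteValue M ℝ) (F : M[X]) (b : M),
  Cantor v F b →
    (∀ (l : ℕ) (z z' : M), 1 ≤ l → St v F b l z → St v F b l z' → Cg v F b l z z' →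
      v (z - z') ≤ v b ^ l) ∧
    (∀ (l : ℕ) (S : Finset M), (∀ z ∈ S, St v F b l z) →
      (∀ z ∈ S, ∀ z' ∈ S, Cg v F b l z z' → z = z') → S.card ≤ F.natDegree ^ l)

/-- **A3.** the bound at a Cantor place -/
def St_A3 : Prop := ∀ (M : Type) [Field M] (v : AbsoluteValue M ℝ) (F : M[X]) (b : M),
  Cantor v F b → ∀ (D n k L : ℕ), 1 ≤ D → k ≤ n → L ≤ k → ∀ x : Fin D → M, Function.Injective x →
  ∀ (c : ℝ), 1 ≤ c → ∀ (A : Finset (Fin D)) (Cl : Fin D → Finset (Fin D)),
    (∀ i ∈ A, c ≤ (Cl i).card) →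
    (∀ i, ∀ i' ∈ Cl i, ∀ l, St v F b l (x i) → St v F b l (x i') ∧ Cg v F b l (x i) (x i')) →
    2 * Real.log (v (Matrix.vandermonde x).det) +
        2 * (∑ j ∈ Finset.range D, ex F.natDegree j : ℕ) *
          Real.log (v (C b⁻¹ * F : M[X]).leadingCoeff) ≤
      (2 * ((D : ℝ) - 1) + ((F.natDegree : ℝ) - 1) *
          (4 * D + 2 * (c - 1) * (F.natDegree : ℝ) ^ k)) *
          ∑ i, gr v (C b⁻¹ * F) n (x i) +
        (-Real.log (v b)) * ((D : ℝ) ^ 2 / (F.natDegree : ℝ) ^ L + L * D +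
          (4 * D + 2 * (c - 1) * (F.natDegree : ℝ) ^ k) * D / (F.natDegree : ℝ) ^ n -
          (c - 1) * A.card * ((k : ℝ) - L))

end Pool.Agent.NH29.LE
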