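import Pool.Agent.TH377.Dyn.Canon
import Pool.Agent.NH29.LE.Main

set_option autoImplicit false
set_option linter.unusedSectionVars false
set_option linter.style.haveILetI false

/-!
The lower bound for all wandering points of bounded degree, and the final inequalities
-/

namespace Pool.Agent.NH29.LE

open NumberField Module Filter Topology Height Polynomial IsDedekindDomain
open Pool.Agent.TH377.Dyn (forms forms_hom iter_forms num num_facts map_eq)
open scoped IntermediateField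

section wan
variable {K : Type} [Field K] {d : ℕ}

/-- **The canonical height exists**, with a lower bound for wandering points. -/
theorem canon_wander [NumberField K] (hd : 2 ≤ d) (a : Fin (d + 1) → K) (b : K) (hb : b ≠ 0)
    (ha : a (Fin.last d) ≠ 0) : ∃ C : ℝ, 0 < C ∧ ∀ (L : Type) [Field L] [NumberField L]
      [Algebra K L] (x : L),
    ∃ h : ℝ, Tendsto (fun n : ℕ => logHeight₁ ((fun y : L => (algebraMap K L b)⁻¹ *
      ∑ i : Fin (d + 1), algebraMap K L (a i) * y ^ (i : ℕ))^[n] x) /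
        ((finrank ℚ L : ℝ) * (d : ℝ) ^ n)) atTop (𝓝 h) ∧
      (Function.Injective (fun n : ℕ => (fun y : L => (algebraMap K L b)⁻¹ *
        ∑ i : Fin (d + 1), algebraMap K L (a i) * y ^ (i : ℕ))^[n] x) →
        Real.exp (-(C * (finrank K L : ℝ) ^ 2)) ≤ h) := by
  have hmor : ∀ z : Fin (1 + 1) → AlgebraicClosure K,
      (∀ i, MvPolynomial.aeval z (forms a b i) = 0) → z = 0 := by
    intro z hz
    have h1 := hz 1
    have h0 := hz 0
    have e1 : z 1 = 0 := by
      have h2 : algebraMap K (AlgebraicClosure K) b * z 1 ^ d = 0 := by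
        simpa [forms] using h1
      rcases mul_eq_zero.1 h2 with h3 | h3
      · exact absurd ((map_eq_zero _).1 h3) hb
      · exact pow_eq_zero_iff (by omega) |>.1 h3
    have e0 : z 0 = 0 := by
      have h2 : ∑ i : Fin (d + 1), algebraMap K (AlgebraicClosure K) (a i) *
          (z 0 ^ (i : ℕ) * z 1 ^ (d - i)) = 0 := by
        simpa [forms] using h0
      rw [Finset.sum_eq_single (Fin.last d)] at h2
      · rw [Fin.val_last, Nat.sub_self, pow_zero, mul_one] at h2
        rcases mul_eq_zero.1 h2 with h3 | h3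
        · exact absurd ((map_eq_zero _).1 h3) ha
        · exact pow_eq_zero_iff (by omega) |>.1 h3
      · intro i _ hi
        have h3 : d - (i : ℕ) ≠ 0 := by
          have h4 : (i : ℕ) ≠ d := fun h => hi (Fin.ext (by rw [h, Fin.val_last]))
          have := i.2
          omega
        rw [e1, zero_pow h3, mul_zero, mul_zero]
      · intro h
        exact absurd (Finset.mem_univ _) h
    funext i
    fin_cases i
    · exact e0
    · exact e1
  obtain ⟨C, hC0, hC⟩ := Pool.Agent.W238.Leh.general K 1 d hd (forms a b) (forms_hom a b) hmor 1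
    one_pos
  refine ⟨C, hC0, fun L _ _ _ x => ?_⟩
  obtain ⟨h1, _, _, h4⟩ := hC L
  have hx : (![x, 1] : Fin (1 + 1) → L) ≠ 0 := fun h => one_ne_zero (congrFun h 1)
  refine ⟨_, (h1 ![x, 1] hx).congr fun n => ?_, fun hinj => ?_⟩
  · obtain ⟨t, ht, h⟩ := iter_forms a b hb x n
    rw [h, logHeight_smul_eq_logHeight _ ht, logHeight₁_eq_logHeight]
  · have h5 := h4 ![x, 1] hx (by
      rintro ⟨m, n, hmn, c, hc, hcn⟩
      apply hmn
      obtain ⟨t, ht, h⟩ := iter_forms a b hb x m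
      obtain ⟨t', ht', h'⟩ := iter_forms a b hb x n
      rw [h, h', smul_smul] at hcn
      have e1 := congrFun hcn 1
      have e0 := congrFun hcn 0
      simp only [Pi.smul_apply, smul_eq_mul, Matrix.cons_val_one, Matrix.cons_val_zero,
        mul_one] at e1 e0
      rw [← e1] at e0
      exact hinj (mul_left_cancel₀ ht' e0).symm)
    refine le_trans (le_of_eq ?_) h5
    congr 2
    rw [show (((1 : ℕ) : ℝ) + 1) = ((2 : ℕ) : ℝ) by norm_num, Real.rpow_natCast]

end wan

section fin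
variable {K : Type} [Field K] [NumberField K] {d : ℕ}

/-- the polynomial of a vector -/
noncomputable def ply (c : Fin (d + 2) → 𝓞 K) : K[X] :=
  C ((c 0 : K)⁻¹) * ∑ i : Fin (d + 1), C (c i.succ : K) * X ^ (i : ℕ)

/-- separable reduction of the numerator at a prime which divides the denominator -/
def SepAt (v : HeightOneSpectrum (𝓞 K)) (c : Fin (d + 2) → 𝓞 K) : Prop :=
  c 0 ≠ 0 ∧ c 0 ∈ v.asIdeal ∧ c (Fin.last (d + 1)) ∉ v.asIdeal ∧
    (∑ i : Fin (d + 1), C (Ideal.Quotient.mk v.asIdeal (c i.succ)) * X ^ (i : ℕ)).Separable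

lemma last_ne (v : HeightOneSpectrum (𝓞 K)) {c : Fin (d + 2) → 𝓞 K} (h : SepAt v c) :
    c (Fin.last d).succ ≠ 0 := by
  intro h0
  apply h.2.2.1
  change c (Fin.last d).succ ∈ v.asIdeal
  rw [h0]
  exact zero_mem _

lemma cr_of (hd : 2 ≤ d) (v : HeightOneSpectrum (𝓞 K)) {c : Fin (d + 2) → 𝓞 K}
    (h : SepAt v c) : CR v.asIdeal (num c) (c 0) ∧ (num c).natDegree = d := by
  have h0 := last_ne v h
  have h1 : (num c).natDegree = d :=
    Pool.Agent.TH377.Sup.pol_natDegree (fun i : Fin (d + 1) => c i.succ) h0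
  refine ⟨⟨by rw [h1]; exact hd, ?_, h.1, h.2.1, ?_⟩, h1⟩
  · rw [num, Pool.Agent.TH377.Sup.pol_leadingCoeff (fun i : Fin (d + 1) => c i.succ) h0]
    exact h.2.2.1
  · rw [num, Pool.Agent.TH377.Sup.pol_map]
    exact h.2.2.2

lemma aeval_eq {L : Type} [Field L] [NumberField L] [Algebra K L] (c : Fin (d + 2) → 𝓞 K) :
    (fun y : L => aeval y (ply c)) = fun y : L => (algebraMap K L (c 0 : K))⁻¹ *
        ∑ i : Fin (d + 1), algebraMap K L (c i.succ : K) * y ^ (i : ℕ) := by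
  funext y
  simp [ply]

lemma it_eq {L : Type} [Field L] [NumberField L] [Algebra K L] (c : Fin (d + 2) → 𝓞 K)
    (m : ℕ) (x : L) : (fun y : L => aeval y (ply c))^[m] x = it (pb L (num c) (c 0)) m x := by
  have h1 : (fun y : L => aeval y (ply c)) = fun y : L => (pb L (num c) (c 0)).eval y := by
    funext y
    have h2 := map_eq c y
    unfold pb
    rw [eval_mul, eval_C]
    exact h2
  rw [h1]
  rfl

/-- the canonical height -/
def IsCH {L : Type} [Field L] [NumberField L] [Algebra K L] (φ : K[X])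
    (x : L) (h : ℝ) : Prop :=
  Tendsto (fun n : ℕ => logHeight₁ ((fun y => aeval y φ)^[n] x) /
    ((finrank ℚ L : ℝ) * (φ.natDegree : ℝ) ^ n)) atTop (𝓝 h)

lemma ply_deg (hd : 2 ≤ d) (v : HeightOneSpectrum (𝓞 K)) {c : Fin (d + 2) → 𝓞 K}
    (h : SepAt v c) : (ply c).natDegree = d := by
  have h1 : (∑ i : Fin (d + 1), C (c i.succ : K) * X ^ (i : ℕ) : K[X]) =
      (num c).map (algebraMap (𝓞 K) K) := by
    rw [num, Pool.Agent.TH377.Sup.pol_map]
    rfl
  have h2 : ((c 0 : K)⁻¹) ≠ 0 := by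
    rw [Ne, inv_eq_zero]
    exact_mod_cast h.1
  rw [ply, natDegree_C_mul h2, h1,
    natDegree_map_eq_of_injective (FaithfulSMul.algebraMap_injective (𝓞 K) K)]
  exact (cr_of hd v h).2

theorem ch_exists (hd : 2 ≤ d) (v : HeightOneSpectrum (𝓞 K)) {c : Fin (d + 2) → 𝓞 K}
    (h : SepAt v c) : ∃ C : ℝ, 0 < C ∧ ∀ (L : Type) [Field L] [NumberField L] [Algebra K L]
      (x : L), ∃ r : ℝ, IsCH (ply c) x r ∧
        (Function.Injective (fun n : ℕ => (fun y : L => aeval y (ply c))^[n] x) →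
          Real.exp (-(C * (finrank K L : ℝ) ^ 2)) ≤ r) := by
  have hb : ((c 0 : 𝓞 K) : K) ≠ 0 := by exact_mod_cast h.1
  have ha : ((c (Fin.last d).succ : 𝓞 K) : K) ≠ 0 := by
    intro h4
    exact last_ne v h (by exact_mod_cast h4)
  obtain ⟨C, hC, h1⟩ := canon_wander hd (fun i : Fin (d + 1) => (c i.succ : K)) (c 0 : K) hb ha
  refine ⟨C, hC, fun L _ _ _ x => ?_⟩
  obtain ⟨r, hr, hr2⟩ := h1 L x
  rw [← aeval_eq] at hr hr2
  refine ⟨r, ?_, hr2⟩
  unfold IsCH
  rw [ply_deg hd v h]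
  exact hr

/-- **The main inequality.** -/
theorem main2 (hd : 2 ≤ d) (v : HeightOneSpectrum (𝓞 K)) {c : Fin (d + 2) → 𝓞 K}
    (h : SepAt v c) (β : ℝ) (hβ : 0 < β) :
    ∃ κ : ℝ, 0 < κ ∧ ∃ C₀ : ℝ, 0 < C₀ ∧ ∀ (L : Type) [Field L] [NumberField L] [Algebra K L]
      (x : L), K⟮x⟯ = ⊤ → ∀ n : ℕ, 2 * d ^ d ≤ n →
      (haveI := v.isMaximal; β * finrank K L ≤ big K v.asIdeal L n) → ∀ r : ℝ,
      IsCH (ply c) x r →
      κ * (n / finrank K L) * ((finrank K L : ℝ) + 1) ^ (-(C₀ / n)) ≤ r := by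
  haveI := v.isMaximal
  obtain ⟨h1, h2⟩ := cr_of hd v h
  obtain ⟨κ, hκ, C₀, hC₀, h3⟩ := main v.asIdeal v.ne_bot (num c) (c 0) h1 β hβ
  refine ⟨κ, hκ, C₀, hC₀, fun L _ _ _ x hx n hn hbig r hr => ?_⟩
  rw [h2] at h3
  refine h3 L x hx n hn hbig r ?_
  unfold IsCH at hr
  rw [ply_deg hd v h] at hr
  refine hr.congr fun m => ?_
  rw [it_eq]

/-- **Lehmer's inequality.** -/
theorem lehmer2 (hd : 2 ≤ d) (v : HeightOneSpectrum (𝓞 K)) {c : Fin (d + 2) → 𝓞 K}
    (h : SepAt v c) (β ε : ℝ) (hβ : 0 < β) (hε : 0 < ε) :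
    ∃ κ : ℝ, 0 < κ ∧ ∀ (L : Type) [Field L] [NumberField L] [Algebra K L]
      (x : L), K⟮x⟯ = ⊤ →
      Function.Injective (fun n : ℕ => (fun y : L => aeval y (ply c))^[n] x) →
      ∀ n : ℕ, ε * Real.log ((finrank K L : ℝ) + 1) ≤ n →
      (haveI := v.isMaximal; β * finrank K L ≤ big K v.asIdeal L n) → ∀ r : ℝ,
      IsCH (ply c) x r → κ * (n / finrank K L) ≤ r := by
  obtain ⟨κ, hκ, C₀, hC₀, h1⟩ := main2 hd v h β hβ
  obtain ⟨C, hC, h2⟩ := ch_exists hd v h
  set N : ℝ := 2 * (d : ℝ) ^ d with hN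
  have hd' : (2 : ℝ) ≤ d := by exact_mod_cast hd
  have hN0 : 0 < N := by positivity
  set E : ℝ := Real.exp (N / ε) with hE
  refine ⟨min (κ * Real.exp (-(C₀ / ε))) (Real.exp (-(C * E ^ 2)) / N), by positivity, ?_⟩
  intro L _ _ _ x hx hw n hn hbig r hr
  haveI : FiniteDimensional K L := Module.Finite.of_restrictScalars_finite ℚ K L
  have hD : (1 : ℝ) ≤ finrank K L := by exact_mod_cast (finrank_pos : 0 < finrank K L)
  set D : ℝ := (finrank K L : ℝ) with hDdef
  have hlog : 0 < Real.log (D + 1) := Real.log_pos (by linarith)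
  have hn0 : (0 : ℝ) < n := lt_of_lt_of_le (by positivity) hn
  rcases le_or_gt (2 * d ^ d) n with hn2 | hn2
  · refine le_trans ?_ (h1 L x hx n hn2 hbig r hr)
    have h3 : Real.exp (-(C₀ / ε)) ≤ (D + 1) ^ (-(C₀ / n)) := by
      rw [Real.rpow_def_of_pos (by linarith)]
      apply Real.exp_le_exp.2
      have h4 : Real.log (D + 1) * (C₀ / n) ≤ C₀ / ε := by
        rw [mul_div_assoc', div_le_div_iff₀ hn0 hε]
        have := mul_le_mul_of_nonneg_left hn hC₀.le
        linarith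
      linarith
    have h5 : min (κ * Real.exp (-(C₀ / ε))) (Real.exp (-(C * E ^ 2)) / N) ≤
        κ * (D + 1) ^ (-(C₀ / n)) :=
      (min_le_left _ _).trans (mul_le_mul_of_nonneg_left h3 hκ.le)
    have h6 : 0 ≤ (n : ℝ) / D := by positivity
    calc _ ≤ κ * (D + 1) ^ (-(C₀ / n)) * (n / D) := mul_le_mul_of_nonneg_right h5 h6
      _ = _ := by ring
  · have hnN : (n : ℝ) ≤ N := by
      have h3 : (n : ℝ) ≤ ((2 * d ^ d : ℕ) : ℝ) := by exact_mod_cast hn2.le
      push_cast at h3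
      exact h3
    have hDE : D ≤ E := by
      have h3 : Real.log (D + 1) ≤ N / ε := by
        rw [le_div_iff₀ hε]
        linarith
      have h4 := Real.exp_le_exp.2 h3
      rw [Real.exp_log (by linarith)] at h4
      linarith
    obtain ⟨r', hr', h3⟩ := h2 L x
    have hrr : r = r' := tendsto_nhds_unique hr hr'
    rw [hrr]
    refine le_trans ?_ (h3 hw)
    have h4 : (n : ℝ) / D ≤ N := (div_le_self hn0.le hD).trans hnN
    have h5 : min (κ * Real.exp (-(C₀ / ε))) (Real.exp (-(C * E ^ 2)) / N) * (n / D) ≤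
        Real.exp (-(C * E ^ 2)) / N * N :=
      mul_le_mul (min_le_right _ _) h4 (by positivity) (by positivity)
    rw [div_mul_cancel₀ _ hN0.ne'] at h5
    refine h5.trans (Real.exp_le_exp.2 ?_)
    have h6 : D ^ 2 ≤ E ^ 2 := pow_le_pow_left₀ (by linarith) hDE 2
    have h7 := mul_le_mul_of_nonneg_left h6 hC.le
    linarith

/-- **The Bogomolov property.** -/
theorem bogomolov2 (hd : 2 ≤ d) (v : HeightOneSpectrum (𝓞 K)) {c : Fin (d + 2) → 𝓞 K}
    (h : SepAt v c) (ε : ℝ) (hε : 0 < ε) :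
    ∃ κ : ℝ, 0 < κ ∧ ∀ (L : Type) [Field L] [NumberField L] [Algebra K L]
      (x : L), K⟮x⟯ = ⊤ →
      Function.Injective (fun n : ℕ => (fun y : L => aeval y (ply c))^[n] x) →
      ∀ w : v.asIdeal.primesOver (𝓞 L),
        ε * finrank K L ≤ (w.1.ramificationIdx (𝓞 K) * w.1.inertiaDeg (𝓞 K) : ℕ) →
      ∀ r : ℝ, IsCH (ply c) x r → κ ≤ r := by
  classical
  haveI := v.isMaximal
  obtain ⟨κ, hκ, h1⟩ := lehmer2 hd v h ε ε hε hε
  refine ⟨κ * ε, by positivity, fun L _ _ _ x hx hw w hwε r hr => ?_⟩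
  haveI : FiniteDimensional K L := Module.Finite.of_restrictScalars_finite ℚ K L
  have hD : (1 : ℝ) ≤ finrank K L := by exact_mod_cast (finrank_pos : 0 < finrank K L)
  set n := w.1.ramificationIdx (𝓞 K) * w.1.inertiaDeg (𝓞 K) with hn
  have h2 : ε * Real.log ((finrank K L : ℝ) + 1) ≤ n := by
    have h3 := Real.log_le_sub_one_of_pos (show (0 : ℝ) < (finrank K L : ℝ) + 1 by linarith)
    have h4 : ε * Real.log ((finrank K L : ℝ) + 1) ≤ ε * finrank K L :=
      mul_le_mul_of_nonneg_left (by linarith) hε.le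
    exact h4.trans hwε
  have h3 : n ≤ big K v.asIdeal L n := by
    unfold big
    have h4 : w ∈ Finset.univ.filter fun Q : v.asIdeal.primesOver (𝓞 L) =>
        n ≤ Q.1.ramificationIdx (𝓞 K) * Q.1.inertiaDeg (𝓞 K) :=
      Finset.mem_filter.2 ⟨Finset.mem_univ _, le_rfl⟩
    exact Finset.single_le_sum (f := fun Q : v.asIdeal.primesOver (𝓞 L) =>
      Q.1.ramificationIdx (𝓞 K) * Q.1.inertiaDeg (𝓞 K)) (fun _ _ => Nat.zero_le _) h4
  have h4 : ε * finrank K L ≤ big K v.asIdeal L n := hwε.trans (by exact_mod_cast h3)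
  refine le_trans ?_ (h1 L x hx hw n h2 h4 r hr)
  apply mul_le_mul_of_nonneg_left _ hκ.le
  rw [le_div_iff₀ (by linarith)]
  exact hwε

end fin

end Pool.Agent.NH29.LE
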